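import Mathlib

open Matrix Module
open scoped MatrixOrder

noncomputable section

namespace Pool.Agent.Lib.MP_df705a_gt

/-- If the sum of real numbers is positive and its square exceeds the sum of the squares, at
least two of them are positive. -/
theorem exists_two_pos {n : ℕ} (l : Fin n → ℝ) (h1 : 0 < ∑ i, l i)
    (h2 : ∑ i, l i ^ 2 < (∑ i, l i) ^ 2) : ∃ i j, i ≠ j ∧ 0 < l i ∧ 0 < l j := by
  by_contra hcon
  push Not at hcon
  obtain ⟨i, _, hi⟩ : ∃ i ∈ Finset.univ, 0 < l i := by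
    by_contra hno
    push Not at hno
    have := Finset.sum_nonpos hno
    linarith
  have h3 : ∑ k, l k ≤ l i := by
    rw [← Finset.add_sum_erase _ _ (Finset.mem_univ i)]
    have : ∑ k ∈ Finset.univ.erase i, l k ≤ 0 := by
      apply Finset.sum_nonpos
      intro k hk
      exact hcon i k (Finset.ne_of_mem_erase hk).symm hi
    linarith
  have h4 : (∑ k, l k) ^ 2 ≤ l i ^ 2 := pow_le_pow_left₀ h1.le h3 2
  have h5 : l i ^ 2 ≤ ∑ k, l k ^ 2 :=
    Finset.single_le_sum (f := fun k => l k ^ 2) (fun k _ => sq_nonneg _) (Finset.mem_univ i)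
  linarith

/-- A form whose trace is positive and dominates its norm has two orthogonal positive
directions. -/
theorem exists_two_dirs {n : ℕ} (G h : Matrix (Fin n) (Fin n) ℝ) (hG : G.PosDef)
    (hh : hᵀ = h) (hτ : 0 < (G⁻¹ * h).trace)
    (hlt : ((G⁻¹ * h) * (G⁻¹ * h)).trace < (G⁻¹ * h).trace ^ 2) :
    ∃ w₁ w₂ : Fin n → ℝ, 0 < w₁ ⬝ᵥ h *ᵥ w₁ ∧ 0 < w₂ ⬝ᵥ h *ᵥ w₂ ∧ w₁ ⬝ᵥ h *ᵥ w₂ = 0 := by
  obtain ⟨B, hB⟩ : ∃ B : Matrix (Fin n) (Fin n) ℝ, G⁻¹ = Bᵀ * B := by
    obtain ⟨B, hB⟩ := CStarAlgebra.nonneg_iff_eq_star_mul_self.mp hG.inv.posSemidef.nonneg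
    refine ⟨B, ?_⟩
    rw [hB, star_eq_conjTranspose, conjTranspose_eq_transpose_of_trivial]
  set A : Matrix (Fin n) (Fin n) ℝ := B * h * Bᵀ with hA
  have hAh : A.IsHermitian := by
    rw [Matrix.IsHermitian, conjTranspose_eq_transpose_of_trivial, hA, transpose_mul,
      transpose_mul, transpose_transpose, hh, Matrix.mul_assoc]
  set U : Matrix (Fin n) (Fin n) ℝ := (hAh.eigenvectorUnitary : Matrix (Fin n) (Fin n) ℝ) with hU
  set l : Fin n → ℝ := hAh.eigenvalues with hl
  have hdiag : Uᵀ * A * U = diagonal l := by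
    have h1 := hAh.conjStarAlgAut_star_eigenvectorUnitary
    rw [Unitary.conjStarAlgAut_star_apply] at h1
    rw [star_eq_conjTranspose, conjTranspose_eq_transpose_of_trivial] at h1
    exact h1
  have hUU : Uᵀ * U = 1 := by
    have h1 := Unitary.coe_star_mul_self hAh.eigenvectorUnitary
    rw [star_eq_conjTranspose, conjTranspose_eq_transpose_of_trivial] at h1
    exact h1
  have hUU' : U * Uᵀ = 1 := mul_eq_one_comm.mp hUU
  have htr1 : (G⁻¹ * h).trace = ∑ i, l i := by
    calc (G⁻¹ * h).trace = (Bᵀ * (B * h)).trace := by rw [hB, Matrix.mul_assoc]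
      _ = A.trace := by rw [Matrix.trace_mul_comm, hA]
      _ = (U * Uᵀ * A).trace := by rw [hUU', Matrix.one_mul]
      _ = (Uᵀ * A * U).trace := by
        rw [Matrix.mul_assoc, Matrix.trace_mul_comm]
      _ = ∑ i, l i := by rw [hdiag, trace_diagonal]
  have htr2 : ((G⁻¹ * h) * (G⁻¹ * h)).trace = ∑ i, l i ^ 2 := by
    calc ((G⁻¹ * h) * (G⁻¹ * h)).trace = (Bᵀ * (B * h * Bᵀ * (B * h))).trace := by
          rw [hB]; simp only [Matrix.mul_assoc]
      _ = (A * A).trace := by
          rw [Matrix.trace_mul_comm, hA]; simp only [Matrix.mul_assoc]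
      _ = (U * Uᵀ * (A * (U * Uᵀ) * A)).trace := by
          rw [hUU', Matrix.one_mul, Matrix.mul_one]
      _ = ((Uᵀ * A * U) * (Uᵀ * A * U)).trace := by
        rw [Matrix.mul_assoc, Matrix.trace_mul_comm]
        simp only [Matrix.mul_assoc]
      _ = ∑ i, l i ^ 2 := by
        rw [hdiag, diagonal_mul_diagonal, trace_diagonal]
        exact Finset.sum_congr rfl fun i _ => (sq _).symm
  obtain ⟨i, j, hij, hi, hj⟩ := exists_two_pos l (by rw [← htr1]; exact hτ)
    (by rw [← htr1, ← htr2]; exact hlt)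
  set P : Matrix (Fin n) (Fin n) ℝ := Bᵀ * U with hP
  have hPhP : Pᵀ * h * P = diagonal l := by
    rw [hP, transpose_mul, transpose_transpose, ← hdiag, hA]
    simp only [Matrix.mul_assoc]
  have hentry : ∀ a b, (fun k => P k a) ⬝ᵥ h *ᵥ (fun k => P k b) = diagonal l a b := by
    intro a b
    rw [← hPhP, Matrix.mul_assoc, Matrix.mul_apply]
    rfl
  refine ⟨fun k => P k i, fun k => P k j, ?_, ?_, ?_⟩
  · rw [hentry, diagonal_apply_eq]; exact hi
  · rw [hentry, diagonal_apply_eq]; exact hj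
  · rw [hentry, diagonal_apply_ne _ hij]

/-- Two orthogonal positive directions span a plane on which the form is positive. -/
theorem plane_of_two {E : Type*} [AddCommGroup E] [Module ℝ E] (H : E → E → ℝ)
    (hadd : ∀ a b c, H (a + b) c = H a c + H b c) (hsmul : ∀ (r : ℝ) a c, H (r • a) c = r * H a c)
    (hsymm : ∀ a b, H a b = H b a) (V₁ V₂ : E) (h1 : 0 < H V₁ V₁) (h2 : 0 < H V₂ V₂)
    (h12 : H V₁ V₂ = 0) :
    ∃ S : Submodule ℝ E, finrank ℝ S = 2 ∧ (∀ v ∈ S, ∃ a b : ℝ, v = a • V₁ + b • V₂) ∧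
      ∀ v ∈ S, v ≠ 0 → 0 < H v v := by
  have hq : ∀ a b : ℝ, H (a • V₁ + b • V₂) (a • V₁ + b • V₂) =
      a ^ 2 * H V₁ V₁ + b ^ 2 * H V₂ V₂ := by
    intro a b
    rw [hadd, hsmul, hsmul, hsymm V₁, hsymm V₂, hadd, hadd, hsmul, hsmul, hsmul, hsmul,
      hsymm V₂ V₁, h12]
    ring
  have hli : LinearIndependent ℝ ![V₁, V₂] := by
    rw [LinearIndependent.pair_iff]
    intro a b hab
    have h3 := hq a b
    have h0 : H 0 0 = 0 := by
      have := hsmul 0 0 0
      simpa using this
    rw [hab, h0] at h3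
    have h4 : a ^ 2 * H V₁ V₁ = 0 := by
      nlinarith [mul_nonneg (sq_nonneg a) h1.le, mul_nonneg (sq_nonneg b) h2.le]
    have h5 : b ^ 2 * H V₂ V₂ = 0 := by
      nlinarith [mul_nonneg (sq_nonneg a) h1.le, mul_nonneg (sq_nonneg b) h2.le]
    constructor
    · rcases mul_eq_zero.mp h4 with h | h
      · exact pow_eq_zero_iff two_ne_zero |>.mp h
      · exact absurd h h1.ne'
    · rcases mul_eq_zero.mp h5 with h | h
      · exact pow_eq_zero_iff two_ne_zero |>.mp h
      · exact absurd h h2.ne'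
  have hmem : ∀ v ∈ Submodule.span ℝ (Set.range ![V₁, V₂]), ∃ a b : ℝ, v = a • V₁ + b • V₂ := by
    intro v hv
    rw [Matrix.range_cons, Matrix.range_cons, Matrix.range_empty, Set.union_empty,
      Set.singleton_union, Submodule.mem_span_pair] at hv
    obtain ⟨a, b, hab⟩ := hv
    exact ⟨a, b, hab.symm⟩
  refine ⟨Submodule.span ℝ (Set.range ![V₁, V₂]), ?_, hmem, ?_⟩
  · rw [finrank_span_eq_card hli, Fintype.card_fin]
  · intro v hv hv0
    obtain ⟨a, b, rfl⟩ := hmem v hv
    rw [hq]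
    by_cases ha : a = 0
    · have hb : b ≠ 0 := by
        rintro rfl
        apply hv0
        simp [ha]
      have : 0 < b ^ 2 * H V₂ V₂ := by positivity
      have : 0 ≤ a ^ 2 * H V₁ V₁ := by positivity
      linarith
    · have : 0 < a ^ 2 * H V₁ V₁ := by positivity
      have : 0 ≤ b ^ 2 * H V₂ V₂ := by positivity
      linarith

section gram

variable {n : ℕ} {E : Type*} [AddCommGroup E] [Module ℝ E]

/-- Gram matrices of linearly independent families are positive definite. -/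
theorem gram_posDef (b : E →ₗ[ℝ] E →ₗ[ℝ] ℝ) (hsymm : ∀ u v, b u v = b v u)
    (hpos : ∀ v, v ≠ 0 → 0 < b v v) (ψ : Fin n → E) (hψ : LinearIndependent ℝ ψ) :
    (Matrix.of fun i j => b (ψ i) (ψ j)).PosDef := by
  apply Matrix.PosDef.of_dotProduct_mulVec_pos
  · rw [Matrix.IsHermitian, conjTranspose_eq_transpose_of_trivial]
    ext i j
    simp only [transpose_apply, of_apply]
    exact hsymm _ _
  · intro x hx
    have h1 : star x ⬝ᵥ (Matrix.of fun i j => b (ψ i) (ψ j)) *ᵥ x =
        b (∑ i, x i • ψ i) (∑ j, x j • ψ j) := by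
      simp only [map_sum, LinearMap.sum_apply, map_smul, LinearMap.smul_apply, smul_eq_mul,
        dotProduct, mulVec, of_apply, star_trivial]
      apply Finset.sum_congr rfl
      intro i _
      congr 1
      apply Finset.sum_congr rfl
      intro j _
      rw [hsymm (ψ i) (ψ j)]
      ring
    rw [h1]
    apply hpos
    intro h0
    apply hx
    have := Fintype.linearIndependent_iff.mp hψ x h0
    funext i
    exact this i

/-- Expansion of a vector of the span with the inverse Gram matrix. -/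
theorem gram_expand (b : E →ₗ[ℝ] E →ₗ[ℝ] ℝ) (hsymm : ∀ u v, b u v = b v u)
    (hpos : ∀ v, v ≠ 0 → 0 < b v v) (ψ : Fin n → E) (hψ : LinearIndependent ℝ ψ)
    (u : E) (hu : u ∈ Submodule.span ℝ (Set.range ψ)) :
    u = ∑ p, ∑ q, ((Matrix.of fun i j => b (ψ i) (ψ j))⁻¹ p q * b u (ψ p)) • ψ q := by
  set G : Matrix (Fin n) (Fin n) ℝ := Matrix.of fun i j => b (ψ i) (ψ j) with hG
  have hdet : IsUnit G.det := by
    rw [isUnit_iff_ne_zero]
    exact (gram_posDef b hsymm hpos ψ hψ).det_pos.ne'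
  set w : E := ∑ p, ∑ q, (G⁻¹ p q * b u (ψ p)) • ψ q with hw
  have hwmem : w ∈ Submodule.span ℝ (Set.range ψ) := by
    apply Submodule.sum_mem
    intro p _
    apply Submodule.sum_mem
    intro q _
    exact Submodule.smul_mem _ _ (Submodule.subset_span ⟨q, rfl⟩)
  have horth : ∀ r, b (u - w) (ψ r) = 0 := by
    intro r
    have h1 : b w (ψ r) = ∑ p, b u (ψ p) * (G⁻¹ * G) p r := by
      simp only [hw, map_sum, LinearMap.sum_apply, map_smul, LinearMap.smul_apply, smul_eq_mul,
        Matrix.mul_apply]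
      apply Finset.sum_congr rfl
      intro p _
      rw [Finset.mul_sum]
      apply Finset.sum_congr rfl
      intro q _
      simp only [hG, of_apply]
      ring
    rw [map_sub, LinearMap.sub_apply, h1, Matrix.nonsing_inv_mul _ hdet]
    simp [Matrix.one_apply]
  have hall : ∀ v ∈ Submodule.span ℝ (Set.range ψ), b (u - w) v = 0 := by
    intro v hv
    induction hv using Submodule.span_induction with
    | mem x hx => obtain ⟨r, rfl⟩ := hx; exact horth r
    | zero => simp
    | add x y _ _ hx hy => rw [map_add, hx, hy, add_zero]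
    | smul a x _ hx => rw [map_smul, hx, smul_zero]
  by_contra hne
  have hne' : u - w ≠ 0 := sub_ne_zero.mpr hne
  have h2 := hpos _ hne'
  have h3 := hall (u - w) (Submodule.sub_mem _ hu hwmem)
  linarith

end gram

end Pool.Agent.Lib.MP_df705a_gt
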