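import Pool.Agent.Lib.MP_df705a_gt.Gauss
import Pool.Agent.Lib.MP_df705a_gt.Algebra

open scoped Manifold ContDiff
open Bundle Filter Topology Module

noncomputable section

namespace Pool.Agent.Lib.MP_df705a_gt

variable {m : ℕ}

namespace Shortcuts

scoped instance sca1 : NormedAddCommGroup (Co m →L[ℝ] Co m) := inferInstance
scoped instance sca2 : NormedSpace ℝ (Co m →L[ℝ] Co m) := inferInstance
scoped instance sca3 : NormedAddCommGroup (Co m →L[ℝ] Co m →L[ℝ] Co m) := inferInstance
scoped instance sca4 : NormedSpace ℝ (Co m →L[ℝ] Co m →L[ℝ] Co m) := inferInstance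

end Shortcuts

open scoped Shortcuts

/-- A bilinear form as a linear map. -/
def bl (B : Co m →L[ℝ] Co m →L[ℝ] ℝ) : Co m →ₗ[ℝ] Co m →ₗ[ℝ] ℝ :=
  LinearMap.mk₂ ℝ (fun u v => B u v) (by intros; simp) (by intros; simp) (by intros; simp)
    (by intros; simp)

theorem bl_apply (B : Co m →L[ℝ] Co m →L[ℝ] ℝ) (u v : Co m) : bl B u v = B u v := rfl

theorem ev_eq : (ev : Fin m → Co m) = ⇑(EuclideanSpace.basisFun (Fin m) ℝ).toBasis := by
  funext i
  simp [ev]

theorem ev_linearIndependent : LinearIndependent ℝ (ev : Fin m → Co m) := by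
  rw [ev_eq]
  exact (EuclideanSpace.basisFun (Fin m) ℝ).toBasis.linearIndependent

theorem ev_span : Submodule.span ℝ (Set.range (ev : Fin m → Co m)) = ⊤ := by
  rw [ev_eq]
  exact (EuclideanSpace.basisFun (Fin m) ℝ).toBasis.span_eq

theorem sum_ev (u : Co m) : ∑ i, u i • ev i = u := by
  have := (EuclideanSpace.basisFun (Fin m) ℝ).sum_repr u
  simpa [ev] using this

variable {h : FormField m}

theorem gram_ev_posDef (hh : IsMetric h) (x : Co m) :
    (Matrix.of fun i j => h x (ev i) (ev j)).PosDef :=
  gram_posDef (bl (h x)) (hh.symm x) (hh.pos x) ev ev_linearIndependent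

theorem expand (hh : IsMetric h) (x u : Co m) :
    u = ∑ p, ∑ q, (invGram h x p q * h x u (ev p)) • ev q :=
  gram_expand (bl (h x)) (hh.symm x) (hh.pos x) ev ev_linearIndependent u (by
    rw [ev_span]; trivial)

theorem expand2 (hh : IsMetric h) (x a b : Co m) :
    ∑ p, ∑ q, invGram h x p q * (h x a (ev p) * h x b (ev q)) = h x a b := by
  conv_rhs => rw [hh.symm x a b, expand hh x a]
  rw [map_sum]
  apply Finset.sum_congr rfl
  intro p _
  rw [map_sum]
  apply Finset.sum_congr rfl
  intro q _
  rw [map_smul, smul_eq_mul]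
  ring

theorem IsMetric.differentiable (hh : IsMetric h) : Differentiable ℝ h :=
  hh.smooth.differentiable (by simp)

theorem IsMetric.contDiff_fderiv (hh : IsMetric h) : ContDiff ℝ ∞ (fderiv ℝ h) :=
  hh.smooth.fderiv_right (by simp)

theorem IsMetric.differentiable2 (hh : IsMetric h) : Differentiable ℝ (fderiv ℝ h) :=
  hh.contDiff_fderiv.differentiable (by simp)

theorem continuous_invGram (hh : IsMetric h) (p q : Fin m) :
    Continuous fun x => invGram h x p q := by
  have hc : Continuous fun x => (Matrix.of fun i j => h x (ev i) (ev j) :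
      Matrix (Fin m) (Fin m) ℝ) := by
    apply continuous_matrix
    intro i j
    simp only [Matrix.of_apply]
    exact (hh.smooth.continuous.clm_apply continuous_const).clm_apply continuous_const
  have h1 : (fun x => invGram h x p q) = fun x =>
      ((Matrix.of fun i j => h x (ev i) (ev j) : Matrix (Fin m) (Fin m) ℝ).det)⁻¹ *
      (Matrix.of fun i j => h x (ev i) (ev j) : Matrix (Fin m) (Fin m) ℝ).adjugate p q := by
    funext x
    unfold invGram
    rw [Matrix.inv_def, Ring.inverse_eq_inv', Matrix.smul_apply, smul_eq_mul]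
  rw [h1]
  apply Continuous.mul
  · apply Continuous.inv₀ hc.matrix_det
    intro x
    exact (gram_ev_posDef hh x).det_pos.ne'
  · exact hc.matrix_adjugate.matrix_elem p q

theorem chr_add_left (hh : IsMetric h) (x a b v w : Co m) :
    chr h x (a + b) v w = chr h x a v w + chr h x b v w := by
  rw [chr_eq (hh.differentiable x), chr_eq (hh.differentiable x), chr_eq (hh.differentiable x)]
  simp only [map_add, add_apply]
  ring

theorem chr_smul_left (hh : IsMetric h) (x : Co m) (r : ℝ) (a v w : Co m) :
    chr h x (r • a) v w = r * chr h x a v w := by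
  rw [chr_eq (hh.differentiable x), chr_eq (hh.differentiable x)]
  simp only [map_smul, smul_apply, smul_eq_mul]
  ring

theorem chr_symm (hh : IsMetric h) (x a v w : Co m) : chr h x a v w = chr h x v a w := by
  rw [chr_eq (hh.differentiable x), chr_eq (hh.differentiable x),
    fderiv_symm hh.symm (hh.differentiable x) w a v]
  ring

theorem chr_add_mid (hh : IsMetric h) (x a b v w : Co m) :
    chr h x v (a + b) w = chr h x v a w + chr h x v b w := by
  rw [chr_symm hh, chr_add_left hh, chr_symm hh x a, chr_symm hh x b]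

theorem chr_smul_mid (hh : IsMetric h) (x : Co m) (r : ℝ) (a v w : Co m) :
    chr h x v (r • a) w = r * chr h x v a w := by
  rw [chr_symm hh, chr_smul_left hh, chr_symm hh x a]

theorem chr_add_right (hh : IsMetric h) (x a b v w : Co m) :
    chr h x v w (a + b) = chr h x v w a + chr h x v w b := by
  rw [chr_eq (hh.differentiable x), chr_eq (hh.differentiable x), chr_eq (hh.differentiable x)]
  simp only [map_add, add_apply]
  ring

theorem chr_smul_right (hh : IsMetric h) (x : Co m) (r : ℝ) (a v w : Co m) :
    chr h x v w (r • a) = r * chr h x v w a := by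
  rw [chr_eq (hh.differentiable x), chr_eq (hh.differentiable x)]
  simp only [map_smul, smul_apply, smul_eq_mul]
  ring

/-- A function which is additive and homogeneous commutes with linear combinations. -/
theorem lin_sum {E : Type*} [AddCommGroup E] [Module ℝ E] {ι : Type*} (s : Finset ι) (F : E → ℝ)
    (hadd : ∀ a b, F (a + b) = F a + F b) (hsmul : ∀ (r : ℝ) a, F (r • a) = r * F a)
    (c : ι → ℝ) (V : ι → E) : F (∑ i ∈ s, c i • V i) = ∑ i ∈ s, c i * F (V i) := by
  let L : E →ₗ[ℝ] ℝ := { toFun := F, map_add' := hadd, map_smul' := hsmul }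
  have h1 : ∀ a, F a = L a := fun a => rfl
  rw [h1, map_sum]
  apply Finset.sum_congr rfl
  intro i _
  rw [map_smul, h1, smul_eq_mul]

theorem continuous_chr (hh : IsMetric h) (u v w : Co m) : Continuous fun x => chr h x u v w := by
  have h1 : (fun x => chr h x u v w) = fun x =>
      (fderiv ℝ h x u v w + fderiv ℝ h x v u w - fderiv ℝ h x w u v) / 2 := by
    funext x; exact chr_eq (hh.differentiable x) u v w
  have hc : Continuous (fderiv ℝ h) := hh.contDiff_fderiv.continuous
  have h2 : ∀ a b c, Continuous fun x => fderiv ℝ h x a b c := fun a b c =>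
    ((hc.clm_apply continuous_const).clm_apply continuous_const).clm_apply continuous_const
  rw [h1]
  exact (((h2 u v w).add (h2 v u w)).sub (h2 w u v)).div_const 2

/-- The Christoffel vectors `Γ(e_i, e_j)`. -/
def gamVec (h : FormField m) (x : Co m) (i j : Fin m) : Co m :=
  ∑ p, ∑ q, (invGram h x p q * chr h x (ev i) (ev j) (ev p)) • ev q

/-- The Levi-Civita connection form. -/
def gam (h : FormField m) (x : Co m) : Co m →L[ℝ] Co m →L[ℝ] Co m :=
  ∑ i, ∑ j, (EuclideanSpace.proj i : Co m →L[ℝ] ℝ).smulRight
    ((EuclideanSpace.proj j : Co m →L[ℝ] ℝ).smulRight (gamVec h x i j))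

theorem gam_apply (x u v : Co m) : gam h x u v = ∑ i, ∑ j, (u i * v j) • gamVec h x i j := by
  unfold gam
  simp only [sum_apply, ContinuousLinearMap.smulRight_apply, smul_apply, smul_smul]
  rfl

theorem gam_eq (hh : IsMetric h) (x u v : Co m) :
    gam h x u v = ∑ p, ∑ q, (invGram h x p q * chr h x u v (ev p)) • ev q := by
  have h1 : ∀ w, chr h x u v w = ∑ i, ∑ j, (u i * v j) * chr h x (ev i) (ev j) w := by
    intro w
    conv_lhs => rw [← sum_ev u, lin_sum _ (fun a => chr h x a v w)
      (fun a b => chr_add_left hh x a b v w) (fun r a => chr_smul_left hh x r a v w)]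
    apply Finset.sum_congr rfl
    intro i _
    conv_lhs => rw [← sum_ev v, lin_sum _ (fun a => chr h x (ev i) a w)
      (fun a b => chr_add_mid hh x a b (ev i) w) (fun r a => chr_smul_mid hh x r a (ev i) w)]
    rw [Finset.mul_sum]
    apply Finset.sum_congr rfl
    intro j _
    ring
  rw [gam_apply]
  unfold gamVec
  simp only [h1, Finset.smul_sum, Finset.mul_sum, Finset.sum_smul, smul_smul]
  rw [Finset.sum_congr rfl fun i _ => Finset.sum_comm]
  rw [Finset.sum_comm]
  apply Finset.sum_congr rfl
  intro p _
  rw [Finset.sum_congr rfl fun i _ => Finset.sum_comm]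
  rw [Finset.sum_comm]
  apply Finset.sum_congr rfl
  intro q _
  apply Finset.sum_congr rfl
  intro i _
  apply Finset.sum_congr rfl
  intro j _
  congr 1
  ring

theorem gam_spec (hh : IsMetric h) (x u v w : Co m) : h x (gam h x u v) w = chr h x u v w := by
  rw [gam_eq hh]
  have h1 : chr h x u v w = chr h x u v (∑ p, ∑ q, (invGram h x p q * h x w (ev p)) • ev q) := by
    rw [← expand hh x w]
  rw [h1, hh.symm]
  simp only [map_sum, map_smul, smul_eq_mul]
  have h2 : chr h x u v (∑ p, ∑ q, (invGram h x p q * h x w (ev p)) • ev q) =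
      ∑ p, ∑ q, (invGram h x p q * h x w (ev p)) * chr h x u v (ev q) := by
    have h3 := lin_sum (Finset.univ ×ˢ Finset.univ) (fun a => chr h x u v a)
      (fun a b => chr_add_right hh x a b u v) (fun r a => chr_smul_right hh x r a u v)
      (fun pq : Fin m × Fin m => invGram h x pq.1 pq.2 * h x w (ev pq.1)) (fun pq => ev pq.2)
    rw [Finset.sum_product, Finset.sum_product] at h3
    exact h3
  rw [h2, Finset.sum_comm]
  apply Finset.sum_congr rfl
  intro q _
  apply Finset.sum_congr rfl
  intro p _
  have h4 : invGram h x p q = invGram h x q p := by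
    unfold invGram
    have h5 : (Matrix.of fun i j => h x (ev i) (ev j) : Matrix (Fin m) (Fin m) ℝ).transpose =
        Matrix.of fun i j => h x (ev i) (ev j) := by
      ext i j
      simp only [Matrix.transpose_apply, Matrix.of_apply]
      exact hh.symm _ _ _
    conv_lhs => rw [← h5, ← Matrix.transpose_nonsing_inv, Matrix.transpose_apply]
  rw [h4]
  ring

theorem continuous_gam (hh : IsMetric h) : Continuous (gam h) := by
  have h1 : ∀ i j, Continuous fun x => gamVec h x i j := by
    intro i j
    unfold gamVec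
    exact continuous_finsetSum _ fun p _ => continuous_finsetSum _ fun q _ =>
      ((continuous_invGram hh p q).mul (continuous_chr hh _ _ _)).smul continuous_const
  unfold gam
  apply continuous_finsetSum
  intro i _
  apply continuous_finsetSum
  intro j _
  have h2 : Continuous fun x => (EuclideanSpace.proj j : Co m →L[ℝ] ℝ).smulRight (gamVec h x i j) :=
    (ContinuousLinearMap.smulRightL ℝ (Co m) (Co m)
      (EuclideanSpace.proj j : Co m →L[ℝ] ℝ)).continuous.comp (h1 i j)
  exact (ContinuousLinearMap.smulRightL ℝ (Co m) (Co m →L[ℝ] Co m)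
      (EuclideanSpace.proj i : Co m →L[ℝ] ℝ)).continuous.comp h2

theorem covHess_eq (hh : IsMetric h) (f : Co m → ℝ) (x u v : Co m) :
    covHess h f x u v = fderiv ℝ (fderiv ℝ f) x u v - fderiv ℝ f x (gam h x u v) := by
  unfold covHess
  rw [gam_eq hh, map_sum]
  congr 1
  apply Finset.sum_congr rfl
  intro p _
  rw [map_sum]
  apply Finset.sum_congr rfl
  intro q _
  rw [map_smul, smul_eq_mul]

end Pool.Agent.Lib.MP_df705a_gt
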