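import Pool.Agent.Lib.MP_df705a_gt.Ambient

open scoped Manifold ContDiff
open Bundle Filter Topology Module

noncomputable section

namespace Pool.Agent.Lib.MP_df705a_gt

open scoped Shortcuts

section calc2

variable {U E : Type*} [NormedAddCommGroup U] [NormedSpace ℝ U] [NormedAddCommGroup E]
  [NormedSpace ℝ E]

/-- Second derivative of a composition. -/
theorem second_comp {f : E → ℝ} (hf : ContDiff ℝ 2 f) {ψ : U → E} {y : U}
    (hψ : ContDiffAt ℝ 2 ψ y) (u v : U) :
    fderiv ℝ (fderiv ℝ (fun y => f (ψ y))) y u v =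
      fderiv ℝ (fderiv ℝ f) (ψ y) (fderiv ℝ ψ y u) (fderiv ℝ ψ y v)
        + fderiv ℝ f (ψ y) (fderiv ℝ (fderiv ℝ ψ) y u v) := by
  have h1 : HasFDerivAt ψ (fderiv ℝ ψ y) y := (hψ.differentiableAt two_ne_zero).hasFDerivAt
  have hc2 : ContDiffAt ℝ 1 (fderiv ℝ ψ) y := hψ.fderiv_right (by norm_num)
  have h2 : HasFDerivAt (fderiv ℝ ψ) (fderiv ℝ (fderiv ℝ ψ) y) y :=
    (hc2.differentiableAt one_ne_zero).hasFDerivAt
  have hf1 : ContDiff ℝ 1 (fderiv ℝ f) := hf.fderiv_right (by norm_num)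
  have h3 : HasFDerivAt (fun y => fderiv ℝ f (ψ y))
      ((fderiv ℝ (fderiv ℝ f) (ψ y)).comp (fderiv ℝ ψ y)) y :=
    ((hf1.differentiable one_ne_zero) (ψ y)).hasFDerivAt.comp y h1
  have h4 := h3.clm_comp h2
  have h5 : fderiv ℝ (fun y => f (ψ y)) =ᶠ[𝓝 y]
      fun y => (fderiv ℝ f (ψ y)).comp (fderiv ℝ ψ y) := by
    filter_upwards [hψ.eventually (by simp)] with y' hy'
    have h6 : HasFDerivAt ψ (fderiv ℝ ψ y') y' := (hy'.differentiableAt two_ne_zero).hasFDerivAt
    exact (((hf.differentiable two_ne_zero) (ψ y')).hasFDerivAt.comp y' h6).fderiv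
  rw [(h4.congr_of_eventuallyEq h5).fderiv]
  simp [add_comm]

/-- The second derivative at a local maximum is nonpositive. -/
theorem second_le_zero {F : U → ℝ} {y : U} (hF : ContDiffAt ℝ 2 F y) (hmax : IsLocalMax F y)
    (v : U) : fderiv ℝ (fderiv ℝ F) y v v ≤ 0 := by
  by_contra hcon
  rw [not_le] at hcon
  set g : ℝ → ℝ := fun t => F (y + t • v) with hg
  have hline : ∀ t : ℝ, HasDerivAt (fun t : ℝ => y + t • v) v t := by
    intro t
    simpa using ((hasDerivAt_id t).smul_const v).const_add y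
  have hlc : ContinuousAt (fun t : ℝ => y + t • v) 0 := (hline 0).continuousAt
  have hl0 : y + (0 : ℝ) • v = y := by simp
  have hev : ∀ᶠ t in 𝓝 (0 : ℝ), ContDiffAt ℝ 2 F (y + t • v) := by
    have h1 := hF.eventually (by simp)
    have h2 : Tendsto (fun t : ℝ => y + t • v) (𝓝 0) (𝓝 y) := by
      have := hlc.tendsto
      rwa [hl0] at this
    exact h2.eventually h1
  have hgd : ∀ᶠ t in 𝓝 (0 : ℝ), deriv g t = fderiv ℝ F (y + t • v) v := by
    filter_upwards [hev] with t ht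
    exact ((ht.differentiableAt two_ne_zero).hasFDerivAt.comp_hasDerivAt t (hline t)).deriv
  have hF1 : ContDiffAt ℝ 1 (fderiv ℝ F) y := hF.fderiv_right (by norm_num)
  have hgdd : deriv (deriv g) 0 = fderiv ℝ (fderiv ℝ F) y v v := by
    have h1 : HasFDerivAt (fderiv ℝ F) (fderiv ℝ (fderiv ℝ F) y) (y + (0 : ℝ) • v) := by
      rw [hl0]
      exact (hF1.differentiableAt one_ne_zero).hasFDerivAt
    have h2 : HasDerivAt (fun t : ℝ => fderiv ℝ F (y + t • v)) (fderiv ℝ (fderiv ℝ F) y v) 0 :=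
      h1.comp_hasDerivAt (0 : ℝ) (hline 0)
    have h3 : HasDerivAt (fun t : ℝ => fderiv ℝ F (y + t • v) v)
        (fderiv ℝ (fderiv ℝ F) y v v) 0 := by
      have := h2.clm_apply (hasDerivAt_const (0 : ℝ) v)
      simpa using this
    exact (h3.congr_of_eventuallyEq hgd).deriv
  have hgmax : IsLocalMax g 0 := by
    have h2 : Tendsto (fun t : ℝ => y + t • v) (𝓝 0) (𝓝 y) := by
      have := hlc.tendsto
      rwa [hl0] at this
    have h3 := h2.eventually hmax
    filter_upwards [h3] with t ht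
    simp only [hg, hl0]
    exact ht
  have hg0 : deriv g 0 = 0 := hgmax.deriv_eq_zero
  have hgc : ContinuousAt g 0 := by
    have : ContinuousAt F (y + (0 : ℝ) • v) := by
      rw [hl0]; exact (hF.differentiableAt two_ne_zero).continuousAt
    exact this.comp (f := fun t : ℝ => y + t • v) hlc
  have hgmin : IsLocalMin g 0 := isLocalMin_of_deriv_deriv_pos (by rw [hgdd]; exact hcon) hg0 hgc
  have hconst : ∀ᶠ t in 𝓝 (0 : ℝ), g t = g 0 := by
    filter_upwards [hgmax, hgmin] with t h1 h2 using le_antisymm h1 h2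
  have h5 : deriv g =ᶠ[𝓝 0] fun _ => 0 := by
    have h6 : g =ᶠ[𝓝 0] fun _ => g 0 := hconst
    have h7 := h6.deriv
    simpa using h7
  have h8 : deriv (deriv g) 0 = 0 := by
    rw [h5.deriv_eq]; simp
  rw [hgdd] at h8
  linarith

end calc2

/-- Pairing of a positive semidefinite matrix with a nonnegative form. -/
theorem psd_pair {n : ℕ} {P : Matrix (Fin n) (Fin n) ℝ} (hP : P.PosSemidef)
    (S : Fin n → Fin n → ℝ) (hS : ∀ y : Fin n → ℝ, 0 ≤ ∑ j, ∑ k, y j * y k * S j k) :
    0 ≤ ∑ j, ∑ k, P j k * S j k := by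
  obtain ⟨B, hB⟩ : ∃ B : Matrix (Fin n) (Fin n) ℝ, P = B.transpose * B := by
    open scoped MatrixOrder in
    obtain ⟨B, hB⟩ := CStarAlgebra.nonneg_iff_eq_star_mul_self.mp hP.nonneg
    refine ⟨B, ?_⟩
    rw [hB, Matrix.star_eq_conjTranspose, Matrix.conjTranspose_eq_transpose_of_trivial]
  have h1 : ∑ j, ∑ k, P j k * S j k = ∑ a, ∑ j, ∑ k, B a j * B a k * S j k := by
    have h2 : ∀ j k, P j k * S j k = ∑ a, B a j * B a k * S j k := by
      intro j k
      rw [hB, Matrix.mul_apply, Finset.sum_mul]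
      rfl
    simp only [h2]
    rw [Finset.sum_comm]
    rw [Finset.sum_congr rfl fun k _ => Finset.sum_comm]
    rw [Finset.sum_comm]
    apply Finset.sum_congr rfl
    intro a _
    exact Finset.sum_comm
  rw [h1]
  exact Finset.sum_nonneg fun a _ => hS (fun j => B a j)

end Pool.Agent.Lib.MP_df705a_gt
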