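import Pool.Agent.Lib.MP_df705a_gt.Boundary

open scoped Manifold ContDiff
open Bundle Filter Topology Module

noncomputable section

namespace Pool.Agent.Lib.MP_df705a_gt

open scoped Shortcuts

variable {m : ℕ}

theorem invGram_symm {h : FormField m} {x : Co m} (hs : ∀ u v, h x u v = h x v u) (p q : Fin m) :
    invGram h x p q = invGram h x q p := by
  unfold invGram
  have h5 : (Matrix.of fun i j => h x (ev i) (ev j) : Matrix (Fin m) (Fin m) ℝ).transpose =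
      Matrix.of fun i j => h x (ev i) (ev j) := by
    ext i j
    simp only [Matrix.transpose_apply, Matrix.of_apply]
    exact hs _ _
  conv_lhs => rw [← h5, ← Matrix.transpose_nonsing_inv, Matrix.transpose_apply]

/-- The gradient vector of `φ` with respect to the metric `h`. -/
def nrm (h : FormField m) (φ : Co m → ℝ) (x : Co m) : Co m :=
  ∑ p, ∑ q, (invGram h x p q * fderiv ℝ φ x (ev p)) • ev q

theorem nrm_spec {h : FormField m} (hh : IsMetric h) (φ : Co m → ℝ) (x w : Co m) :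
    h x (nrm h φ x) w = fderiv ℝ φ x w := by
  unfold nrm
  conv_rhs => rw [expand hh x w]
  rw [hh.symm]
  simp only [map_sum, map_smul, smul_eq_mul]
  rw [Finset.sum_comm]
  apply Finset.sum_congr rfl
  intro p _
  apply Finset.sum_congr rfl
  intro q _
  rw [invGram_symm (hh.symm x) q p]
  ring

/-- Data of a boundary point. -/
structure BD {n : ℕ} (h : FormField (n + 1)) (φ : Co (n + 1) → ℝ) (ψ : Co n → Co (n + 1))
    (y : Co n) : Prop where
  hh : IsMetric h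
  hφ : ContDiff ℝ 2 φ
  hψ : ContDiffAt ℝ 3 ψ y
  hinj : Function.Injective (fderiv ℝ ψ y)
  hzero : ∀ᶠ y' in 𝓝 y, φ (ψ y') = 0
  hreg : fderiv ℝ φ (ψ y) ≠ 0

namespace BD

variable {n : ℕ} {h : FormField (n + 1)} {φ : Co (n + 1) → ℝ} {ψ : Co n → Co (n + 1)} {y : Co n}

theorem hψ2 (b : BD h φ ψ y) : ContDiffAt ℝ 2 ψ y := b.hψ.of_le (by norm_num)

theorem ker1 (b : BD h φ ψ y) (v : Co n) : fderiv ℝ φ (ψ y) (fderiv ℝ ψ y v) = 0 := by
  have h1 : HasFDerivAt ψ (fderiv ℝ ψ y) y := (b.hψ2.differentiableAt two_ne_zero).hasFDerivAt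
  have h2 : HasFDerivAt (fun y => φ (ψ y)) ((fderiv ℝ φ (ψ y)).comp (fderiv ℝ ψ y)) y :=
    ((b.hφ.differentiable two_ne_zero) (ψ y)).hasFDerivAt.comp y h1
  have h3 : HasFDerivAt (fun y => φ (ψ y)) (0 : Co n →L[ℝ] ℝ) y := by
    refine (hasFDerivAt_const (0 : ℝ) y).congr_of_eventuallyEq ?_
    exact b.hzero
  have h4 := h2.unique h3
  have h5 := congrArg (fun L : Co n →L[ℝ] ℝ => L v) h4
  simpa using h5

/-- The second fundamental form vector. -/
def B (h : FormField (n + 1)) (ψ : Co n → Co (n + 1)) (y u v : Co n) : Co (n + 1) :=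
  fderiv ℝ (fderiv ℝ ψ) y u v + gam h (ψ y) (fderiv ℝ ψ y u) (fderiv ℝ ψ y v)

theorem ker2 (b : BD h φ ψ y) (u v : Co n) : fderiv ℝ φ (ψ y) (B h ψ y u v) =
    -covHess h φ (ψ y) (fderiv ℝ ψ y u) (fderiv ℝ ψ y v) := by
  have h1 := second_comp b.hφ b.hψ2 u v
  have h2 : fderiv ℝ (fderiv ℝ (fun y => φ (ψ y))) y u v = 0 := by
    have h3 : (fun y => φ (ψ y)) =ᶠ[𝓝 y] fun _ => 0 := b.hzero
    have h4 : fderiv ℝ (fun y => φ (ψ y)) =ᶠ[𝓝 y] fderiv ℝ (fun _ : Co n => (0 : ℝ)) := h3.fderiv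
    rw [h4.fderiv_eq]
    simp
  rw [h2] at h1
  rw [covHess_eq b.hh]
  unfold B
  rw [map_add]
  linarith

theorem linInd (b : BD h φ ψ y) : LinearIndependent ℝ fun i : Fin n => fderiv ℝ ψ y (ev i) :=
  ev_linearIndependent.map' (fderiv ℝ ψ y : Co n →ₗ[ℝ] Co (n + 1))
    (LinearMap.ker_eq_bot.mpr b.hinj)

theorem mem_span (b : BD h φ ψ y) (a : Co (n + 1)) (ha : fderiv ℝ φ (ψ y) a = 0) :
    a ∈ Submodule.span ℝ (Set.range fun i : Fin n => fderiv ℝ ψ y (ev i)) := by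
  set ℓ : Co (n + 1) →ₗ[ℝ] ℝ := (fderiv ℝ φ (ψ y) : Co (n + 1) →ₗ[ℝ] ℝ) with hℓ
  have hsub : Submodule.span ℝ (Set.range fun i : Fin n => fderiv ℝ ψ y (ev i)) ≤
      LinearMap.ker ℓ := by
    rw [Submodule.span_le]
    rintro _ ⟨i, rfl⟩
    exact b.ker1 (ev i)
  have hfin1 : finrank ℝ (Submodule.span ℝ (Set.range fun i : Fin n => fderiv ℝ ψ y (ev i))) = n := by
    rw [finrank_span_eq_card b.linInd, Fintype.card_fin]
  have hfin2 : finrank ℝ (LinearMap.ker ℓ) = n := by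
    have h1 := LinearMap.finrank_range_add_finrank_ker ℓ
    have h2 : LinearMap.range ℓ = ⊤ := by
      apply LinearMap.range_eq_top.mpr
      apply LinearMap.surjective
      intro h0
      apply b.hreg
      ext v
      exact congrArg (fun L : Co (n + 1) →ₗ[ℝ] ℝ => L v) h0
    rw [h2, finrank_top, finrank_self, finrank_euclideanSpace_fin] at h1
    omega
  have heq := Submodule.eq_of_le_of_finrank_eq hsub (by rw [hfin1, hfin2])
  rw [heq]
  exact ha

theorem invGram_eq : invGram (pull h ψ) y =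
    (Matrix.of fun i j => bl (h (ψ y)) (fderiv ℝ ψ y (ev i)) (fderiv ℝ ψ y (ev j)))⁻¹ := rfl

theorem cpos (b : BD h φ ψ y) : 0 < fderiv ℝ φ (ψ y) (nrm h φ (ψ y)) := by
  rw [← nrm_spec b.hh]
  apply b.hh.pos
  intro h0
  apply b.hreg
  ext v
  rw [← nrm_spec b.hh, h0]
  simp

theorem expand_tangent (b : BD h φ ψ y) (a : Co (n + 1)) (ha : fderiv ℝ φ (ψ y) a = 0) :
    a = ∑ p, ∑ q, (invGram (pull h ψ) y p q * h (ψ y) a (fderiv ℝ ψ y (ev p))) •
      fderiv ℝ ψ y (ev q) :=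
  gram_expand (bl (h (ψ y))) (b.hh.symm _) (b.hh.pos _) _ b.linInd a (b.mem_span a ha)

theorem expand_full (b : BD h φ ψ y) (a : Co (n + 1)) :
    a = ∑ p, ∑ q, (invGram (pull h ψ) y p q * h (ψ y) a (fderiv ℝ ψ y (ev p))) •
      fderiv ℝ ψ y (ev q) +
      (fderiv ℝ φ (ψ y) a / fderiv ℝ φ (ψ y) (nrm h φ (ψ y))) • nrm h φ (ψ y) := by
  have hc := b.cpos
  set t := fderiv ℝ φ (ψ y) a / fderiv ℝ φ (ψ y) (nrm h φ (ψ y)) with ht
  have h1 : fderiv ℝ φ (ψ y) (a - t • nrm h φ (ψ y)) = 0 := by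
    rw [map_sub, map_smul, smul_eq_mul, ht]
    field_simp
    ring
  have h2 := b.expand_tangent _ h1
  have h3 : ∀ p, h (ψ y) (a - t • nrm h φ (ψ y)) (fderiv ℝ ψ y (ev p)) =
      h (ψ y) a (fderiv ℝ ψ y (ev p)) := by
    intro p
    rw [map_sub, sub_apply, map_smul, smul_apply, nrm_spec b.hh, b.ker1]
    simp
  simp only [h3] at h2
  rw [← h2]
  abel

theorem decomp (b : BD h φ ψ y) (a c : Co (n + 1)) :
    h (ψ y) a c = ∑ p, ∑ q, invGram (pull h ψ) y p q *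
      (h (ψ y) a (fderiv ℝ ψ y (ev p)) * h (ψ y) c (fderiv ℝ ψ y (ev q))) +
      fderiv ℝ φ (ψ y) a * fderiv ℝ φ (ψ y) c / fderiv ℝ φ (ψ y) (nrm h φ (ψ y)) := by
  conv_lhs => rw [b.hh.symm, b.expand_full a]
  rw [map_add, map_smul, smul_eq_mul, b.hh.symm _ c (nrm h φ (ψ y)), nrm_spec b.hh]
  simp only [map_sum, map_smul, smul_eq_mul]
  congr 1
  · apply Finset.sum_congr rfl
    intro p _
    apply Finset.sum_congr rfl
    intro q _
    ring
  · ring

/-- The matrix of the second fundamental form (up to the length of the normal). -/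
def A (h : FormField (n + 1)) (φ : Co (n + 1) → ℝ) (ψ : Co n → Co (n + 1)) (y : Co n) :
    Matrix (Fin n) (Fin n) ℝ :=
  Matrix.of fun i j => fderiv ℝ φ (ψ y) (B h ψ y (ev i) (ev j))

theorem gam_symm (hh : IsMetric h) (x u v : Co (n + 1)) : gam h x u v = gam h x v u := by
  rw [gam_eq hh, gam_eq hh]
  apply Finset.sum_congr rfl
  intro p _
  apply Finset.sum_congr rfl
  intro q _
  rw [chr_symm hh]

theorem B_symm (b : BD h φ ψ y) (u v : Co n) : B h ψ y u v = B h ψ y v u := by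
  unfold B
  rw [gam_symm b.hh]
  have := b.hψ2.isSymmSndFDerivAt (by simp)
  rw [this.eq u v]

theorem A_symm (b : BD h φ ψ y) : (A h φ ψ y).transpose = A h φ ψ y := by
  ext i j
  simp only [A, Matrix.transpose_apply, Matrix.of_apply]
  rw [b.B_symm]

theorem chr_pull_B (b : BD h φ ψ y) (u v w : Co n) :
    chr (pull h ψ) y u v w = h (ψ y) (B h ψ y u v) (fderiv ℝ ψ y w) := by
  rw [chr_pull b.hh.symm b.hψ2 (b.hh.differentiable _), ← gam_spec b.hh]
  unfold B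
  rw [map_add, add_apply]

/-- The Gauss equation. -/
theorem gauss_eq (b : BD h φ ψ y) (i j k l : Fin n) :
    riem (pull h ψ) y (ev i) (ev j) (ev k) (ev l) =
      riem h (ψ y) (fderiv ℝ ψ y (ev i)) (fderiv ℝ ψ y (ev j)) (fderiv ℝ ψ y (ev k))
        (fderiv ℝ ψ y (ev l))
      + (A h φ ψ y j k * A h φ ψ y i l - A h φ ψ y i k * A h φ ψ y j l) /
        fderiv ℝ φ (ψ y) (nrm h φ (ψ y)) := by
  have h1 := gauss_pull b.hh.symm b.hh.differentiable b.hh.differentiable2 b.hψ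
    (fun a c => gam h (ψ y) a c) (fun a c d => gam_spec b.hh (ψ y) a c d)
    (fun a c => expand2 b.hh (ψ y) a c) (ev i) (ev j) (ev k) (ev l)
  conv_lhs => unfold riem
  rw [h1]
  have h2 := b.decomp (B h ψ y (ev j) (ev k)) (B h ψ y (ev i) (ev l))
  have h3 := b.decomp (B h ψ y (ev i) (ev k)) (B h ψ y (ev j) (ev l))
  have h4 : ∑ p, ∑ q, invGram (pull h ψ) y p q *
      (chr (pull h ψ) y (ev i) (ev k) (ev p) * chr (pull h ψ) y (ev j) (ev l) (ev q)
        - chr (pull h ψ) y (ev j) (ev k) (ev p) * chr (pull h ψ) y (ev i) (ev l) (ev q)) =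
      (∑ p, ∑ q, invGram (pull h ψ) y p q *
      (h (ψ y) (B h ψ y (ev i) (ev k)) (fderiv ℝ ψ y (ev p)) *
        h (ψ y) (B h ψ y (ev j) (ev l)) (fderiv ℝ ψ y (ev q)))) -
      ∑ p, ∑ q, invGram (pull h ψ) y p q *
      (h (ψ y) (B h ψ y (ev j) (ev k)) (fderiv ℝ ψ y (ev p)) *
        h (ψ y) (B h ψ y (ev i) (ev l)) (fderiv ℝ ψ y (ev q))) := by
    rw [← Finset.sum_sub_distrib]
    apply Finset.sum_congr rfl
    intro p _
    rw [← Finset.sum_sub_distrib]
    apply Finset.sum_congr rfl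
    intro q _
    rw [b.chr_pull_B, b.chr_pull_B, b.chr_pull_B, b.chr_pull_B]
    ring
  rw [h4]
  have h5 : ∀ a c, fderiv ℝ (fderiv ℝ ψ) y a c +
      gam h (ψ y) (fderiv ℝ ψ y a) (fderiv ℝ ψ y c) = B h ψ y a c := fun a c => rfl
  simp only [h5]
  rw [h2, h3]
  simp only [A, Matrix.of_apply]
  ring

end BD

end Pool.Agent.Lib.MP_df705a_gt
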