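import Pool.Agent.Lib.MP_df705a_gt.Boundary2

open scoped Manifold ContDiff
open Bundle Filter Topology Module

noncomputable section

namespace Pool.Agent.Lib.MP_df705a_gt

open scoped Shortcuts

theorem sum4 {n : ℕ} (F : Fin n → Fin n → Fin n → Fin n → ℝ) :
    ∑ i, ∑ j, ∑ k, ∑ l, F i j k l = ∑ l, ∑ k, ∑ i, ∑ j, F i j k l := by
  calc ∑ i, ∑ j, ∑ k, ∑ l, F i j k l = ∑ i, ∑ j, ∑ l, ∑ k, F i j k l :=
        Finset.sum_congr rfl fun i _ => Finset.sum_congr rfl fun j _ => Finset.sum_comm
    _ = ∑ i, ∑ l, ∑ j, ∑ k, F i j k l := Finset.sum_congr rfl fun i _ => Finset.sum_comm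
    _ = ∑ l, ∑ i, ∑ j, ∑ k, F i j k l := Finset.sum_comm
    _ = ∑ l, ∑ i, ∑ k, ∑ j, F i j k l :=
        Finset.sum_congr rfl fun l _ => Finset.sum_congr rfl fun i _ => Finset.sum_comm
    _ = ∑ l, ∑ k, ∑ i, ∑ j, F i j k l := Finset.sum_congr rfl fun l _ => Finset.sum_comm

section riemlin

variable {m : ℕ} {h : FormField m}

theorem riem_formula (hh : IsMetric h) (x u v w z : Co m) : riem h x u v w z =
    (fderiv ℝ (fderiv ℝ h) x u v w z + fderiv ℝ (fderiv ℝ h) x u w v z
        - fderiv ℝ (fderiv ℝ h) x u z v w) / 2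
    - (fderiv ℝ (fderiv ℝ h) x v u w z + fderiv ℝ (fderiv ℝ h) x v w u z
        - fderiv ℝ (fderiv ℝ h) x v z u w) / 2
    + (h x (gam h x u w) (gam h x v z) - h x (gam h x v w) (gam h x u z)) := by
  unfold riem
  rw [fderiv_chr hh.differentiable hh.differentiable2,
    fderiv_chr hh.differentiable hh.differentiable2]
  congr 1
  rw [← expand2 hh x (gam h x u w) (gam h x v z), ← expand2 hh x (gam h x v w) (gam h x u z),
    ← Finset.sum_sub_distrib]
  apply Finset.sum_congr rfl
  intro p _
  rw [← Finset.sum_sub_distrib]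
  apply Finset.sum_congr rfl
  intro q _
  rw [gam_spec hh, gam_spec hh, gam_spec hh, gam_spec hh]
  ring

theorem riem_sum1 (hh : IsMetric h) (x : Co m) {n : ℕ} (c : Fin n → ℝ) (V : Fin n → Co m)
    (v w z : Co m) : riem h x (∑ i, c i • V i) v w z = ∑ i, c i * riem h x (V i) v w z := by
  apply lin_sum _ (fun a => riem h x a v w z)
  · intro a b
    simp only [riem_formula hh, map_add, add_apply]
    ring
  · intro r a
    simp only [riem_formula hh, map_smul, smul_apply, smul_eq_mul]
    ring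

theorem riem_sum2 (hh : IsMetric h) (x : Co m) {n : ℕ} (c : Fin n → ℝ) (V : Fin n → Co m)
    (u w z : Co m) : riem h x u (∑ i, c i • V i) w z = ∑ i, c i * riem h x u (V i) w z := by
  apply lin_sum _ (fun a => riem h x u a w z)
  · intro a b
    simp only [riem_formula hh, map_add, add_apply]
    ring
  · intro r a
    simp only [riem_formula hh, map_smul, smul_apply, smul_eq_mul]
    ring

theorem riem_sum3 (hh : IsMetric h) (x : Co m) {n : ℕ} (c : Fin n → ℝ) (V : Fin n → Co m)
    (u v z : Co m) : riem h x u v (∑ i, c i • V i) z = ∑ i, c i * riem h x u v (V i) z := by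
  apply lin_sum _ (fun a => riem h x u v a z)
  · intro a b
    simp only [riem_formula hh, map_add, add_apply]
    ring
  · intro r a
    simp only [riem_formula hh, map_smul, smul_apply, smul_eq_mul]
    ring

theorem riem_sum4 (hh : IsMetric h) (x : Co m) {n : ℕ} (c : Fin n → ℝ) (V : Fin n → Co m)
    (u v w : Co m) : riem h x u v w (∑ i, c i • V i) = ∑ i, c i * riem h x u v w (V i) := by
  apply lin_sum _ (fun a => riem h x u v w a)
  · intro a b
    simp only [riem_formula hh, map_add, add_apply]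
    ring
  · intro r a
    simp only [riem_formula hh, map_smul, smul_apply, smul_eq_mul]
    ring

theorem riem_quad (hh : IsMetric h) (x : Co m) {n : ℕ} (s t : Fin n → ℝ) (V : Fin n → Co m) :
    riem h x (∑ i, s i • V i) (∑ j, t j • V j) (∑ k, t k • V k) (∑ l, s l • V l) =
      ∑ j, ∑ k, t j * t k * ∑ i, ∑ l, s i * s l * riem h x (V i) (V j) (V k) (V l) := by
  rw [riem_sum2 hh]
  apply Finset.sum_congr rfl
  intro j _
  rw [riem_sum3 hh, Finset.mul_sum]
  apply Finset.sum_congr rfl
  intro k _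
  rw [riem_sum1 hh, mul_assoc]
  congr 1
  congr 1
  apply Finset.sum_congr rfl
  intro i _
  rw [riem_sum4 hh, Finset.mul_sum]
  apply Finset.sum_congr rfl
  intro l _
  ring

/-- The curvature contraction is nonpositive when the sectional curvatures are. -/
theorem curv_term {n : ℕ} (hh : IsMetric h) (x : Co m) (V : Fin n → Co m)
    (P : Matrix (Fin n) (Fin n) ℝ) (hP : P.PosSemidef)
    (hc : ∀ s t : Fin n → ℝ,
      riem h x (∑ i, s i • V i) (∑ j, t j • V j) (∑ j, t j • V j) (∑ i, s i • V i) ≤ 0) :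
    ∑ i, ∑ j, ∑ k, ∑ l, P i l * P j k * riem h x (V i) (V j) (V k) (V l) ≤ 0 := by
  have h1 : 0 ≤ ∑ i, ∑ l, P i l * ∑ j, ∑ k, P j k * (-riem h x (V i) (V j) (V k) (V l)) := by
    apply psd_pair hP
    intro s
    have h2 : 0 ≤ ∑ j, ∑ k, P j k * ∑ i, ∑ l, s i * s l * (-riem h x (V i) (V j) (V k) (V l)) := by
      apply psd_pair hP
      intro t
      have h3 := hc s t
      rw [riem_quad hh] at h3
      have h4 : ∑ j, ∑ k, t j * t k * ∑ i, ∑ l, s i * s l * (-riem h x (V i) (V j) (V k) (V l)) =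
          -∑ j, ∑ k, t j * t k * ∑ i, ∑ l, s i * s l * riem h x (V i) (V j) (V k) (V l) := by
        simp only [mul_neg, Finset.sum_neg_distrib]
      rw [h4]
      linarith
    refine h2.trans_eq ?_
    simp only [Finset.mul_sum]
    rw [Finset.sum_congr rfl fun j _ => Finset.sum_comm]
    rw [Finset.sum_comm]
    apply Finset.sum_congr rfl
    intro i _
    rw [Finset.sum_congr rfl fun j _ => Finset.sum_comm]
    rw [Finset.sum_comm]
    apply Finset.sum_congr rfl
    intro l _
    apply Finset.sum_congr rfl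
    intro j _
    apply Finset.sum_congr rfl
    intro k _
    ring
  have h5 : ∑ i, ∑ l, P i l * ∑ j, ∑ k, P j k * (-riem h x (V i) (V j) (V k) (V l)) =
      -∑ i, ∑ j, ∑ k, ∑ l, P i l * P j k * riem h x (V i) (V j) (V k) (V l) := by
    simp only [Finset.mul_sum, ← Finset.sum_neg_distrib]
    apply Finset.sum_congr rfl
    intro i _
    rw [Finset.sum_comm]
    apply Finset.sum_congr rfl
    intro j _
    rw [Finset.sum_comm]
    apply Finset.sum_congr rfl
    intro k _
    apply Finset.sum_congr rfl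
    intro l _
    ring
  rw [h5] at h1
  linarith

end riemlin

namespace BD

variable {n : ℕ} {h : FormField (n + 1)} {φ : Co (n + 1) → ℝ} {ψ : Co n → Co (n + 1)} {y : Co n}

theorem gram_pull_posDef (b : BD h φ ψ y) :
    (Matrix.of fun i j => pull h ψ y (ev i) (ev j)).PosDef :=
  gram_posDef (bl (h (ψ y))) (b.hh.symm _) (b.hh.pos _) _ b.linInd

theorem invGram_posSemidef (b : BD h φ ψ y) : (invGram (pull h ψ) y).PosSemidef :=
  b.gram_pull_posDef.inv.posSemidef

theorem pull_symm (b : BD h φ ψ y) (u v : Co n) : pull h ψ y u v = pull h ψ y v u := by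
  rw [pull_apply, pull_apply, b.hh.symm]

theorem Gi_symm (b : BD h φ ψ y) (p q : Fin n) :
    invGram (pull h ψ) y p q = invGram (pull h ψ) y q p :=
  invGram_symm b.pull_symm p q

/-- The trace of the second fundamental form. -/
theorem trace_eq (b : BD h φ ψ y) : (invGram (pull h ψ) y * A h φ ψ y).trace =
    ∑ j, ∑ k, invGram (pull h ψ) y j k * A h φ ψ y j k := by
  rw [Matrix.trace]
  apply Finset.sum_congr rfl
  intro j _
  rw [Matrix.diag_apply, Matrix.mul_apply]
  apply Finset.sum_congr rfl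
  intro k _
  have := congrFun (congrFun b.A_symm k) j
  rw [Matrix.transpose_apply] at this
  rw [this]

theorem trace_sq_eq (b : BD h φ ψ y) :
    ((invGram (pull h ψ) y * A h φ ψ y) * (invGram (pull h ψ) y * A h φ ψ y)).trace =
    ∑ i, ∑ j, ∑ k, ∑ l, invGram (pull h ψ) y i l * invGram (pull h ψ) y j k *
      (A h φ ψ y i k * A h φ ψ y j l) := by
  have hA : ∀ a c, A h φ ψ y a c = A h φ ψ y c a := by
    intro a c
    have := congrFun (congrFun b.A_symm c) a
    rw [Matrix.transpose_apply] at this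
    exact this
  rw [sum4, Matrix.trace]
  apply Finset.sum_congr rfl
  intro l _
  rw [Matrix.diag_apply, Matrix.mul_apply]
  apply Finset.sum_congr rfl
  intro k _
  rw [Matrix.mul_apply, Matrix.mul_apply, Finset.sum_mul]
  apply Finset.sum_congr rfl
  intro i _
  rw [Finset.mul_sum]
  apply Finset.sum_congr rfl
  intro j _
  rw [b.Gi_symm l i, b.Gi_symm k j]
  ring

/-- The contracted Gauss equation. -/
theorem scal_eq (b : BD h φ ψ y) : scal (pull h ψ) y =
    ∑ i, ∑ j, ∑ k, ∑ l, invGram (pull h ψ) y i l * invGram (pull h ψ) y j k *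
      riem h (ψ y) (fderiv ℝ ψ y (ev i)) (fderiv ℝ ψ y (ev j)) (fderiv ℝ ψ y (ev k))
        (fderiv ℝ ψ y (ev l)) +
    ((invGram (pull h ψ) y * A h φ ψ y).trace ^ 2 -
      ((invGram (pull h ψ) y * A h φ ψ y) * (invGram (pull h ψ) y * A h φ ψ y)).trace) /
        fderiv ℝ φ (ψ y) (nrm h φ (ψ y)) := by
  have h1 : (invGram (pull h ψ) y * A h φ ψ y).trace ^ 2 =
      ∑ i, ∑ j, ∑ k, ∑ l, invGram (pull h ψ) y i l * invGram (pull h ψ) y j k *
        (A h φ ψ y j k * A h φ ψ y i l) := by
    rw [sq, b.trace_eq, Finset.sum_mul]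
    calc ∑ j, (∑ k, invGram (pull h ψ) y j k * A h φ ψ y j k) *
          ∑ i, ∑ l, invGram (pull h ψ) y i l * A h φ ψ y i l
        = ∑ j, ∑ i, ∑ k, ∑ l, invGram (pull h ψ) y i l * invGram (pull h ψ) y j k *
          (A h φ ψ y j k * A h φ ψ y i l) := by
          apply Finset.sum_congr rfl
          intro j _
          rw [Finset.mul_sum]
          apply Finset.sum_congr rfl
          intro i _
          rw [Finset.sum_mul]
          apply Finset.sum_congr rfl
          intro k _
          rw [Finset.mul_sum]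
          apply Finset.sum_congr rfl
          intro l _
          ring
      _ = _ := Finset.sum_comm
  rw [h1, b.trace_sq_eq, ← Finset.sum_sub_distrib, Finset.sum_div, ← Finset.sum_add_distrib]
  unfold scal
  apply Finset.sum_congr rfl
  intro i _
  rw [← Finset.sum_sub_distrib, Finset.sum_div, ← Finset.sum_add_distrib]
  apply Finset.sum_congr rfl
  intro j _
  rw [← Finset.sum_sub_distrib, Finset.sum_div, ← Finset.sum_add_distrib]
  apply Finset.sum_congr rfl
  intro k _
  rw [← Finset.sum_sub_distrib, Finset.sum_div, ← Finset.sum_add_distrib]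
  apply Finset.sum_congr rfl
  intro l _
  rw [b.gauss_eq]
  ring

/-- Positive scalar curvature in a space with nonpositive tangential curvatures. -/
theorem trace_lt (b : BD h φ ψ y)
    (hcurv : ∀ u v, fderiv ℝ φ (ψ y) u = 0 → fderiv ℝ φ (ψ y) v = 0 → riem h (ψ y) u v v u ≤ 0)
    (hs : 0 < scal (pull h ψ) y) :
    ((invGram (pull h ψ) y * A h φ ψ y) * (invGram (pull h ψ) y * A h φ ψ y)).trace <
      (invGram (pull h ψ) y * A h φ ψ y).trace ^ 2 := by
  have h1 := curv_term b.hh (ψ y) (fun i => fderiv ℝ ψ y (ev i)) (invGram (pull h ψ) y)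
    b.invGram_posSemidef (by
      intro s t
      apply hcurv
      · rw [map_sum]
        apply Finset.sum_eq_zero
        intro i _
        rw [map_smul, b.ker1, smul_zero]
      · rw [map_sum]
        apply Finset.sum_eq_zero
        intro i _
        rw [map_smul, b.ker1, smul_zero])
  have h2 := b.scal_eq
  have hc := b.cpos
  have h3 : 0 < ((invGram (pull h ψ) y * A h φ ψ y).trace ^ 2 -
      ((invGram (pull h ψ) y * A h φ ψ y) * (invGram (pull h ψ) y * A h φ ψ y)).trace) /
        fderiv ℝ φ (ψ y) (nrm h φ (ψ y)) := by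
    linarith
  have h4 := (div_pos_iff_of_pos_right hc).mp h3
  linarith

/-- If moreover the trace is positive there are two concave tangent directions. -/
theorem two_concave (b : BD h φ ψ y)
    (hcurv : ∀ u v, fderiv ℝ φ (ψ y) u = 0 → fderiv ℝ φ (ψ y) v = 0 → riem h (ψ y) u v v u ≤ 0)
    (hs : 0 < scal (pull h ψ) y) (ht : 0 < (invGram (pull h ψ) y * A h φ ψ y).trace) :
    ∃ S : Submodule ℝ (Co (n + 1)), finrank ℝ S = 2 ∧ (∀ v ∈ S, fderiv ℝ φ (ψ y) v = 0) ∧
      ∀ v ∈ S, v ≠ 0 → covHess h φ (ψ y) v v < 0 := by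
  obtain ⟨w₁, w₂, hw1, hw2, hw12⟩ := exists_two_dirs
    (Matrix.of fun i j => pull h ψ y (ev i) (ev j)) (A h φ ψ y) b.gram_pull_posDef b.A_symm ht
    (b.trace_lt hcurv hs)
  set V : (Fin n → ℝ) → Co (n + 1) := fun w => ∑ i, w i • fderiv ℝ ψ y (ev i) with hV
  have hker : ∀ w, fderiv ℝ φ (ψ y) (V w) = 0 := by
    intro w
    simp only [hV]
    rw [map_sum]
    apply Finset.sum_eq_zero
    intro i _
    rw [map_smul, b.ker1, smul_zero]
  have hlin : ∀ a c e, covHess h φ (ψ y) (a + c) e = covHess h φ (ψ y) a e +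
      covHess h φ (ψ y) c e := by
    intro a c e
    simp only [covHess_eq b.hh, map_add, add_apply]
    ring
  have hsm : ∀ (r : ℝ) a e, covHess h φ (ψ y) (r • a) e = r * covHess h φ (ψ y) a e := by
    intro r a e
    simp only [covHess_eq b.hh, map_smul, smul_apply, smul_eq_mul]
    ring
  have hsymm : ∀ a e, covHess h φ (ψ y) a e = covHess h φ (ψ y) e a := by
    intro a e
    simp only [covHess_eq b.hh]
    rw [gam_symm b.hh]
    have hφ1 : ContDiff ℝ 1 (fderiv ℝ φ) := b.hφ.fderiv_right (by norm_num)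
    rw [second_derivative_symmetric (fun y => ((b.hφ.differentiable two_ne_zero) y).hasFDerivAt)
      ((hφ1.differentiable one_ne_zero) _).hasFDerivAt a e]
  have hquad : ∀ w w' : Fin n → ℝ, -covHess h φ (ψ y) (V w) (V w') =
      w ⬝ᵥ (A h φ ψ y).mulVec w' := by
    intro w w'
    simp only [hV]
    rw [lin_sum _ (fun a => covHess h φ (ψ y) a (∑ i, w' i • fderiv ℝ ψ y (ev i)))
      (fun a c => hlin a c _) (fun r a => hsm r a _)]
    rw [dotProduct, ← Finset.sum_neg_distrib]
    apply Finset.sum_congr rfl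
    intro i _
    rw [hsymm, lin_sum _ (fun a => covHess h φ (ψ y) a (fderiv ℝ ψ y (ev i)))
      (fun a c => hlin a c _) (fun r a => hsm r a _), Matrix.mulVec, dotProduct, ← mul_neg,
      ← Finset.sum_neg_distrib]
    congr 1
    apply Finset.sum_congr rfl
    intro j _
    rw [hsymm]
    simp only [A, Matrix.of_apply]
    rw [b.ker2]
    ring
  obtain ⟨S, hS2, hSmem, hSpos⟩ := plane_of_two (fun a c => -covHess h φ (ψ y) a c)
    (fun a c e => by rw [hlin]; ring) (fun r a e => by rw [hsm]; ring)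
    (fun a e => by rw [hsymm]) (V w₁) (V w₂) (by rw [hquad]; exact hw1)
    (by rw [hquad]; exact hw2) (by rw [hquad]; exact hw12)
  refine ⟨S, hS2, ?_, ?_⟩
  · intro v hv
    obtain ⟨r, t, rfl⟩ := hSmem v hv
    rw [map_add, map_smul, map_smul, hker, hker]
    simp
  · intro v hv hv0
    have := hSpos v hv hv0
    linarith

end BD

end Pool.Agent.Lib.MP_df705a_gt
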