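import Pool.Agent.Lib.MP_df705a_gt.Core

open Set Metric Filter Topology Module
open scoped NNReal RealInnerProductSpace

namespace Pool.Agent.Lib.MP_df705a_gt

section

variable {E : Type} [NormedAddCommGroup E] [InnerProductSpace ℝ E] [FiniteDimensional ℝ E]

/-- The Hessian of `f` with respect to the connection with Christoffel symbols `Γ`. -/
noncomputable def hess (Γ : E → E →L[ℝ] E →L[ℝ] E) (f : E → ℝ) (x : E) : E →L[ℝ] E →L[ℝ] ℝ :=
  fderiv ℝ (fderiv ℝ f) x - (ContinuousLinearMap.compL ℝ E E ℝ (fderiv ℝ f x)).comp (Γ x)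

omit [FiniteDimensional ℝ E] in
theorem hess_apply (Γ : E → E →L[ℝ] E →L[ℝ] E) (f : E → ℝ) (x v w : E) :
    hess Γ f x v w = fderiv ℝ (fderiv ℝ f) x v w - fderiv ℝ f x (Γ x v w) := by
  simp [hess]

omit [FiniteDimensional ℝ E] in
theorem continuous_hess {Γ : E → E →L[ℝ] E →L[ℝ] E} (hΓ : Continuous Γ) {f : E → ℝ}
    (hf : ContDiff ℝ 2 f) : Continuous (hess Γ f) := by
  have h1 : ContDiff ℝ 1 (fderiv ℝ f) := hf.fderiv_right (by norm_num)
  have h2 : Continuous (fderiv ℝ (fderiv ℝ f)) := h1.continuous_fderiv one_ne_zero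
  have h3 : Continuous (fderiv ℝ f) := h1.continuous
  unfold hess
  exact h2.sub (((ContinuousLinearMap.compL ℝ E E ℝ).continuous.comp h3).clm_comp hΓ)

/-- A continuous family of forms positive on a compact set is uniformly positive. -/
theorem unif_pos {K : Set E} (hK : IsCompact K) {H : E → E →L[ℝ] E →L[ℝ] ℝ}
    (hH : Continuous H) (hpos : ∀ x ∈ K, ∀ v, v ≠ 0 → 0 < H x v v) :
    ∃ c > 0, ∀ x ∈ K, ∀ v, c * ‖v‖ ^ 2 ≤ H x v v := by
  have hcomp : IsCompact (K ×ˢ sphere (0 : E) 1) := hK.prod (isCompact_sphere 0 1)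
  have hcont : Continuous (fun q : E × E => H q.1 q.2 q.2) := by
    have h1 : Continuous (fun q : E × E => H q.1) := hH.comp continuous_fst
    exact (h1.clm_apply continuous_snd).clm_apply continuous_snd
  obtain ⟨c, hc, hcb⟩ := hcomp.exists_forall_le' hcont.continuousOn (a := 0) (by
    rintro ⟨x, v⟩ ⟨hx, hv⟩
    apply hpos x hx v
    rintro rfl
    simp at hv)
  refine ⟨c, hc, ?_⟩
  intro x hx v
  by_cases hv : v = 0
  · simp [hv]
  · have hn : 0 < ‖v‖ := norm_pos_iff.mpr hv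
    have h1 := hcb (x, (‖v‖)⁻¹ • v) ⟨hx, by
      rw [mem_sphere_zero_iff_norm, norm_smul, norm_inv, norm_norm, inv_mul_cancel₀ hn.ne']⟩
    simp only [map_smul, smul_apply, smul_eq_mul] at h1
    calc c * ‖v‖ ^ 2 ≤ (‖v‖⁻¹ * (‖v‖⁻¹ * H x v v)) * ‖v‖ ^ 2 :=
          mul_le_mul_of_nonneg_right h1 (by positivity)
      _ = H x v v := by field_simp

omit [FiniteDimensional ℝ E] in
/-- A continuous family of bilinear maps is bounded on a compact set. -/
theorem unif_bdd {G : Type*} [NormedAddCommGroup G] [NormedSpace ℝ G] {K : Set E}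
    (hK : IsCompact K) {H : E → E →L[ℝ] E →L[ℝ] G} (hH : Continuous H) :
    ∃ c > 0, ∀ x ∈ K, ∀ v, ‖H x v v‖ ≤ c * ‖v‖ ^ 2 := by
  have hn : Continuous (fun x => ‖H x‖) :=
    (continuous_norm (E := E →L[ℝ] E →L[ℝ] G)).comp hH
  obtain ⟨M, hM⟩ := (hK.image hn).bddAbove
  refine ⟨max M 1, lt_of_lt_of_le one_pos (le_max_right _ _), ?_⟩
  intro x hx v
  have h1 : ‖H x v v‖ ≤ ‖H x‖ * ‖v‖ * ‖v‖ := (H x).le_opNorm₂ v v
  calc ‖H x v v‖ ≤ ‖H x‖ * ‖v‖ * ‖v‖ := h1
    _ ≤ (max M 1) * ‖v‖ * ‖v‖ := by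
      gcongr
      exact (hM ⟨x, hx, rfl⟩).trans (le_max_left _ _)
    _ = _ := by ring

/-- Near a boundary point with two concave tangent directions there are three good directions. -/
theorem near_point {φ : E → ℝ} (hφ : ContDiff ℝ 2 φ) {H : E → E →L[ℝ] E →L[ℝ] ℝ}
    (hH : Continuous H) {p : E} (hp : φ p = 0) (hreg : fderiv ℝ φ p ≠ 0) {S : Submodule ℝ E}
    (hS2 : finrank ℝ S = 2) (hSker : ∀ v ∈ S, fderiv ℝ φ p v = 0)
    (hSpos : ∀ v ∈ S, v ≠ 0 → H p v v < 0) :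
    ∀ᶠ z in 𝓝 p, 0 < φ z → ∃ V : Submodule ℝ E, finrank ℝ V = 3 ∧
      ∀ v ∈ V, H z v v ≤ 1 / φ z * (fderiv ℝ φ z v) ^ 2 := by
  have hφc : Continuous φ := hφ.continuous
  have hDc : Continuous (fderiv ℝ φ) := hφ.continuous_fderiv two_ne_zero
  obtain ⟨ν, hν⟩ : ∃ ν, fderiv ℝ φ p ν ≠ 0 := by
    by_contra hcon
    push Not at hcon
    exact hreg (ContinuousLinearMap.ext hcon)
  have hν0 : ν ≠ 0 := by
    rintro rfl
    exact hν (map_zero _)
  set V : Submodule ℝ E := S ⊔ ℝ ∙ ν with hV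
  have hdisj : S ⊓ (ℝ ∙ ν) = ⊥ := by
    rw [eq_bot_iff]
    rintro x ⟨hx1, hx2⟩
    obtain ⟨a, rfl⟩ := Submodule.mem_span_singleton.mp hx2
    have h1 := hSker _ hx1
    rw [map_smul, smul_eq_mul] at h1
    rcases mul_eq_zero.mp h1 with h2 | h2
    · simp [h2]
    · exact absurd h2 hν
  have hV3 : finrank ℝ V = 3 := by
    have h1 := Submodule.finrank_sup_add_finrank_inf_eq S (ℝ ∙ ν)
    rw [hdisj, finrank_bot, finrank_span_singleton hν0, hS2] at h1
    rw [hV]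
    omega
  -- positivity on the unit sphere of `V` where `dφ` vanishes
  have hVdec : ∀ v ∈ V, fderiv ℝ φ p v = 0 → v ∈ S := by
    intro v hv h0
    obtain ⟨s, hs, w, hw, rfl⟩ := Submodule.mem_sup.mp hv
    obtain ⟨a, rfl⟩ := Submodule.mem_span_singleton.mp hw
    rw [map_add, hSker s hs, zero_add, map_smul, smul_eq_mul] at h0
    rcases mul_eq_zero.mp h0 with h2 | h2
    · simp [h2, hs]
    · exact absurd h2 hν
  set Sph : Set E := sphere (0 : E) 1 ∩ V with hSph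
  have hSphc : IsCompact Sph := (isCompact_sphere 0 1).inter_right (Submodule.closed_of_finiteDimensional V)
  have hSphne : ∀ v ∈ Sph, v ≠ 0 := by
    rintro v ⟨hv, _⟩ rfl
    simp at hv
  have hqc : Continuous (fun q : E × E => H q.1 q.2 q.2) := by
    have h1 : Continuous (fun q : E × E => H q.1) := hH.comp continuous_fst
    exact (h1.clm_apply continuous_snd).clm_apply continuous_snd
  have hlc : Continuous (fun q : E × E => (fderiv ℝ φ q.1 q.2) ^ 2) := by
    have h1 : Continuous (fun q : E × E => fderiv ℝ φ q.1) := hDc.comp continuous_fst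
    exact (h1.clm_apply continuous_snd).pow 2
  have hqp : Continuous (fun v : E => H p v v) :=
    hqc.comp (continuous_const.prodMk continuous_id)
  have hlp : Continuous (fun v : E => (fderiv ℝ φ p v) ^ 2) :=
    hlc.comp (continuous_const.prodMk continuous_id)
  -- Finsler's lemma
  obtain ⟨t, ht, htV⟩ : ∃ t : ℝ, 0 < t ∧ ∀ v ∈ Sph, H p v v < t * (fderiv ℝ φ p v) ^ 2 := by
    have hA : IsCompact (Sph \ {v | H p v v < 0}) :=
      hSphc.diff (isOpen_lt hqp continuous_const)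
    obtain ⟨m, hm, hmA⟩ := hA.exists_forall_le' hlp.continuousOn (a := 0) (by
      rintro v ⟨hv1, hv2⟩
      apply lt_of_le_of_ne (sq_nonneg _)
      intro h0
      apply hv2
      have h1 : fderiv ℝ φ p v = 0 := by
        have := h0.symm
        exact pow_eq_zero_iff two_ne_zero |>.mp this
      exact hSpos v (hVdec v hv1.2 h1) (hSphne v hv1))
    obtain ⟨M, hM⟩ := (hSphc.image hqp).bddAbove
    refine ⟨(|M| + 1) / m, by positivity, ?_⟩
    intro v hv
    by_cases h : H p v v < 0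
    · have : 0 ≤ (|M| + 1) / m * (fderiv ℝ φ p v) ^ 2 := by positivity
      linarith
    · have h1 := hmA v ⟨hv, h⟩
      have h2 : H p v v ≤ M := hM ⟨v, hv, rfl⟩
      calc H p v v ≤ |M| := h2.trans (le_abs_self M)
        _ < |M| + 1 := by linarith
        _ = (|M| + 1) / m * m := by field_simp
        _ ≤ (|M| + 1) / m * (fderiv ℝ φ p v) ^ 2 :=
          mul_le_mul_of_nonneg_left h1 (by positivity)
  have hev1 : ∀ᶠ z in 𝓝 p, ∀ v ∈ Sph, H z v v < t * (fderiv ℝ φ z v) ^ 2 := by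
    apply IsCompact.eventually_forall_of_forall_eventually hSphc
    intro v hv
    exact (isOpen_lt hqc (continuous_const.mul hlc)).mem_nhds (htV v hv)
  have hev2 : ∀ᶠ z in 𝓝 p, t * φ z < 1 := by
    apply (isOpen_lt (continuous_const.mul hφc) continuous_const).mem_nhds
    simp [hp]
  filter_upwards [hev1, hev2] with z hz1 hz2 hpos
  refine ⟨V, hV3, ?_⟩
  intro v hv
  by_cases hv0 : v = 0
  · simp [hv0]
  · have hn : 0 < ‖v‖ := norm_pos_iff.mpr hv0
    have h1 := hz1 ((‖v‖)⁻¹ • v) ⟨by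
      rw [mem_sphere_zero_iff_norm, norm_smul, norm_inv, norm_norm, inv_mul_cancel₀ hn.ne'],
      V.smul_mem _ hv⟩
    simp only [map_smul, smul_apply, smul_eq_mul] at h1
    have h2 : H z v v ≤ t * (fderiv ℝ φ z v) ^ 2 := by
      have h3 : ‖v‖⁻¹ * (‖v‖⁻¹ * H z v v) * ‖v‖ ^ 2 ≤
          t * (‖v‖⁻¹ * fderiv ℝ φ z v) ^ 2 * ‖v‖ ^ 2 :=
        mul_le_mul_of_nonneg_right h1.le (by positivity)
      have h4 : ‖v‖⁻¹ * (‖v‖⁻¹ * H z v v) * ‖v‖ ^ 2 = H z v v := by field_simp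
      have h5 : t * (‖v‖⁻¹ * fderiv ℝ φ z v) ^ 2 * ‖v‖ ^ 2 = t * (fderiv ℝ φ z v) ^ 2 := by
        field_simp
      rwa [h4, h5] at h3
    have h6 : t ≤ 1 / φ z := by
      rw [le_div_iff₀ hpos]
      linarith
    exact h2.trans (mul_le_mul_of_nonneg_right h6 (sq_nonneg _))

/-- The dual identification. -/
theorem exists_sharp : ∃ J : (E →L[ℝ] ℝ) →L[ℝ] E, ∀ ℓ v, ⟪J ℓ, v⟫ = ℓ v := by
  let b := stdOrthonormalBasis ℝ E
  refine ⟨∑ i, (ContinuousLinearMap.apply ℝ ℝ (b i)).smulRight (b i), ?_⟩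
  intro ℓ v
  have h1 : (∑ i, (ContinuousLinearMap.apply ℝ ℝ (b i)).smulRight (b i)) ℓ =
      ∑ i, ℓ (b i) • b i := by
    simp
  rw [h1, sum_inner]
  conv_rhs => rw [← b.sum_repr' v, map_sum]
  apply Finset.sum_congr rfl
  intro i _
  rw [real_inner_smul_left, map_smul, smul_eq_mul, mul_comm]

end

end Pool.Agent.Lib.MP_df705a_gt
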