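import Pool.Agent.Lib.MP_df705a_gt.Boundary3
import Pool.Agent.Lib.MP_df705a_gt.Morse

open scoped Manifold ContDiff
open Bundle Filter Topology Module

noncomputable section

namespace Pool.Agent.Lib.MP_df705a_gt

open scoped Shortcuts

theorem trace_sq_nonneg {n : ℕ} (G h : Matrix (Fin n) (Fin n) ℝ) (hG : G.PosSemidef)
    (hh : h.transpose = h) : 0 ≤ ((G * h) * (G * h)).trace := by
  obtain ⟨B, hB⟩ : ∃ B : Matrix (Fin n) (Fin n) ℝ, G = B.transpose * B := by
    open scoped MatrixOrder in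
    obtain ⟨B, hB⟩ := CStarAlgebra.nonneg_iff_eq_star_mul_self.mp hG.nonneg
    refine ⟨B, ?_⟩
    rw [hB, Matrix.star_eq_conjTranspose, Matrix.conjTranspose_eq_transpose_of_trivial]
  set A : Matrix (Fin n) (Fin n) ℝ := B * h * B.transpose with hA
  have hAt : A.transpose = A := by
    rw [hA, Matrix.transpose_mul, Matrix.transpose_mul, Matrix.transpose_transpose, hh,
      Matrix.mul_assoc]
  have h1 : ((G * h) * (G * h)).trace = (A * A).trace := by
    calc ((G * h) * (G * h)).trace = (B.transpose * (B * h * B.transpose * (B * h))).trace := by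
          rw [hB]; simp only [Matrix.mul_assoc]
      _ = (A * A).trace := by
          rw [Matrix.trace_mul_comm, hA]; simp only [Matrix.mul_assoc]
  rw [h1, Matrix.trace]
  apply Finset.sum_nonneg
  intro i _
  rw [Matrix.diag_apply, Matrix.mul_apply]
  apply Finset.sum_nonneg
  intro j _
  have := congrFun (congrFun hAt i) j
  rw [Matrix.transpose_apply] at this
  rw [this]
  exact mul_self_nonneg _

namespace BD

variable {n : ℕ} {h : FormField (n + 1)} {φ : Co (n + 1) → ℝ} {ψ : Co n → Co (n + 1)} {y : Co n}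

/-- The trace of a form on the ambient space in terms of the tangential trace. -/
theorem trace_identity (b : BD h φ ψ y) (H : Co (n + 1) →L[ℝ] Co (n + 1) →L[ℝ] ℝ) :
    ∑ p, ∑ q, invGram h (ψ y) p q * H (ev p) (ev q) =
      ∑ r, ∑ s, invGram (pull h ψ) y r s *
        H (fderiv ℝ ψ y (ev r)) (fderiv ℝ ψ y (ev s)) +
      H (nrm h φ (ψ y)) (nrm h φ (ψ y)) / fderiv ℝ φ (ψ y) (nrm h φ (ψ y)) := by
  set c := fderiv ℝ φ (ψ y) (nrm h φ (ψ y)) with hc
  set nv := nrm h φ (ψ y) with hnv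
  -- expand the second argument
  have e1 : ∀ a q, H a (ev q) = ∑ r, ∑ s, (invGram (pull h ψ) y r s *
      h (ψ y) (ev q) (fderiv ℝ ψ y (ev r))) * H a (fderiv ℝ ψ y (ev s)) +
      fderiv ℝ φ (ψ y) (ev q) / c * H a nv := by
    intro a q
    conv_lhs => rw [b.expand_full (ev q)]
    simp only [map_add, map_sum, map_smul, smul_eq_mul]
    rfl
  have e2 : ∀ r s, ∑ p, ∑ q, invGram h (ψ y) p q * h (ψ y) (ev q) (fderiv ℝ ψ y (ev r)) *
      H (ev p) (fderiv ℝ ψ y (ev s)) = H (fderiv ℝ ψ y (ev r)) (fderiv ℝ ψ y (ev s)) := by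
    intro r s
    conv_rhs => rw [expand b.hh (ψ y) (fderiv ℝ ψ y (ev r))]
    simp only [map_sum, map_smul, smul_eq_mul, sum_apply, smul_apply]
    rw [Finset.sum_comm]
    apply Finset.sum_congr rfl
    intro q _
    apply Finset.sum_congr rfl
    intro p _
    rw [invGram_symm (b.hh.symm (ψ y)) p q, b.hh.symm _ (ev q)]
  have e3 : ∑ p, ∑ q, invGram h (ψ y) p q * fderiv ℝ φ (ψ y) (ev q) * H (ev p) nv = H nv nv := by
    have : H nv nv = H (∑ p, ∑ q, (invGram h (ψ y) p q * fderiv ℝ φ (ψ y) (ev p)) • ev q) nv := rfl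
    rw [this]
    simp only [map_sum, map_smul, smul_eq_mul, sum_apply, smul_apply]
    rw [Finset.sum_comm]
    apply Finset.sum_congr rfl
    intro q _
    apply Finset.sum_congr rfl
    intro p _
    rw [invGram_symm (b.hh.symm (ψ y)) p q]
  have e4 : ∑ p, ∑ q, invGram h (ψ y) p q * H (ev p) (ev q) =
      ∑ p, ∑ q, ∑ r, ∑ s, invGram (pull h ψ) y r s * (invGram h (ψ y) p q *
        h (ψ y) (ev q) (fderiv ℝ ψ y (ev r)) * H (ev p) (fderiv ℝ ψ y (ev s))) +
      (∑ p, ∑ q, invGram h (ψ y) p q * fderiv ℝ φ (ψ y) (ev q) * H (ev p) nv) / c := by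
    rw [Finset.sum_div, ← Finset.sum_add_distrib]
    apply Finset.sum_congr rfl
    intro p _
    rw [Finset.sum_div, ← Finset.sum_add_distrib]
    apply Finset.sum_congr rfl
    intro q _
    rw [e1, mul_add, Finset.mul_sum]
    congr 1
    · apply Finset.sum_congr rfl
      intro r _
      rw [Finset.mul_sum]
      apply Finset.sum_congr rfl
      intro s _
      ring
    · ring
  have e5 : ∀ (F : Fin (n + 1) → Fin (n + 1) → Fin n → Fin n → ℝ),
      ∑ p, ∑ q, ∑ r, ∑ s, F p q r s = ∑ r, ∑ s, ∑ p, ∑ q, F p q r s := by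
    intro F
    calc ∑ p, ∑ q, ∑ r, ∑ s, F p q r s = ∑ p, ∑ r, ∑ q, ∑ s, F p q r s :=
          Finset.sum_congr rfl fun p _ => Finset.sum_comm
      _ = ∑ r, ∑ p, ∑ q, ∑ s, F p q r s := Finset.sum_comm
      _ = ∑ r, ∑ p, ∑ s, ∑ q, F p q r s :=
          Finset.sum_congr rfl fun r _ => Finset.sum_congr rfl fun p _ => Finset.sum_comm
      _ = ∑ r, ∑ s, ∑ p, ∑ q, F p q r s := Finset.sum_congr rfl fun r _ => Finset.sum_comm
  rw [e4, e3, e5]
  congr 1
  apply Finset.sum_congr rfl
  intro r _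
  apply Finset.sum_congr rfl
  intro s _
  rw [← e2 r s, Finset.mul_sum]
  apply Finset.sum_congr rfl
  intro p _
  rw [Finset.mul_sum]

end BD

/-- The trace of minus the Hessian of `φ` on the level set of `φ`. -/
def bdTrace {m : ℕ} (h : FormField m) (φ : Co m → ℝ) (x : Co m) : ℝ :=
  -(∑ p, ∑ q, invGram h x p q * hess (gam h) φ x (ev p) (ev q) -
    hess (gam h) φ x (nrm h φ x) (nrm h φ x) / fderiv ℝ φ x (nrm h φ x))

theorem hess_gam {m : ℕ} {h : FormField m} (hh : IsMetric h) (f : Co m → ℝ) (x u v : Co m) :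
    hess (gam h) f x u v = covHess h f x u v := by
  rw [hess_apply, covHess_eq hh]

theorem continuous_nrm {m : ℕ} {h : FormField m} (hh : IsMetric h) {φ : Co m → ℝ}
    (hφ : ContDiff ℝ 2 φ) : Continuous (nrm h φ) := by
  unfold nrm
  have h1 : Continuous (fderiv ℝ φ) := hφ.continuous_fderiv two_ne_zero
  exact continuous_finsetSum _ fun p _ => continuous_finsetSum _ fun q _ =>
    ((continuous_invGram hh p q).mul (h1.clm_apply continuous_const)).smul continuous_const

theorem continuousOn_bdTrace {m : ℕ} {h : FormField m} (hh : IsMetric h) {φ : Co m → ℝ}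
    (hφ : ContDiff ℝ 2 φ) (hreg : ∀ x, φ x = 0 → fderiv ℝ φ x ≠ 0) :
    ContinuousOn (bdTrace h φ) {x | φ x = 0} := by
  have h1 : Continuous (fderiv ℝ φ) := hφ.continuous_fderiv two_ne_zero
  have h2 : Continuous (hess (gam h) φ) := continuous_hess (continuous_gam hh) hφ
  have h3 := continuous_nrm hh hφ
  unfold bdTrace
  apply ContinuousOn.neg
  apply ContinuousOn.sub
  · apply Continuous.continuousOn
    exact continuous_finsetSum _ fun p _ => continuous_finsetSum _ fun q _ =>
      (continuous_invGram hh p q).mul ((h2.clm_apply continuous_const).clm_apply continuous_const)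
  · apply ContinuousOn.div
    · exact ((h2.clm_apply h3).clm_apply h3).continuousOn
    · exact (h1.clm_apply h3).continuousOn
    · intro x hx
      rw [← nrm_spec hh]
      apply (hh.pos x _ _).ne'
      intro h0
      apply hreg x hx
      ext v
      rw [← nrm_spec hh, h0]
      simp

namespace BD

variable {n : ℕ} {h : FormField (n + 1)} {φ : Co (n + 1) → ℝ} {ψ : Co n → Co (n + 1)} {y : Co n}

theorem trace_eq_bdTrace (b : BD h φ ψ y) :
    (invGram (pull h ψ) y * A h φ ψ y).trace = bdTrace h φ (ψ y) := by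
  rw [b.trace_eq]
  unfold bdTrace
  rw [b.trace_identity (hess (gam h) φ (ψ y))]
  rw [add_sub_cancel_right, ← Finset.sum_neg_distrib]
  apply Finset.sum_congr rfl
  intro r _
  rw [← Finset.sum_neg_distrib]
  apply Finset.sum_congr rfl
  intro s _
  simp only [A, Matrix.of_apply]
  rw [b.ker2, hess_gam b.hh]
  ring

/-- At a boundary point where a convex function has a maximum the trace is nonnegative. -/
theorem trace_nonneg_of_max (b : BD h φ ψ y) {f : Co (n + 1) → ℝ} (hf : ContDiff ℝ 2 f)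
    (hmax : IsLocalMax (fun y => f (ψ y)) y) (hn : fderiv ℝ f (ψ y) (nrm h φ (ψ y)) ≤ 0)
    (hconv : ∀ v, v ≠ 0 → 0 < covHess h f (ψ y) v v) :
    0 ≤ (invGram (pull h ψ) y * A h φ ψ y).trace := by
  have hc := b.cpos
  have hfd : ∀ v, fderiv ℝ f (ψ y) (fderiv ℝ ψ y v) = 0 := by
    intro v
    have h1 : HasFDerivAt ψ (fderiv ℝ ψ y) y := (b.hψ2.differentiableAt two_ne_zero).hasFDerivAt
    have h2 : HasFDerivAt (fun y => f (ψ y)) ((fderiv ℝ f (ψ y)).comp (fderiv ℝ ψ y)) y :=
      ((hf.differentiable two_ne_zero) (ψ y)).hasFDerivAt.comp y h1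
    have h3 := hmax.hasFDerivAt_eq_zero h2
    have h4 := congrArg (fun L : Co n →L[ℝ] ℝ => L v) h3
    simpa using h4
  set μ := -(fderiv ℝ f (ψ y) (nrm h φ (ψ y)) / fderiv ℝ φ (ψ y) (nrm h φ (ψ y))) with hμ
  have hμ0 : 0 ≤ μ := by
    rw [hμ, Left.nonneg_neg_iff]
    exact div_nonpos_of_nonpos_of_nonneg hn hc.le
  have hDf : ∀ a, fderiv ℝ f (ψ y) a = -(μ * fderiv ℝ φ (ψ y) a) := by
    intro a
    conv_lhs => rw [b.expand_full a]
    simp only [map_add, map_sum, map_smul, smul_eq_mul, hfd, mul_zero, Finset.sum_const_zero,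
      zero_add]
    rw [hμ]
    ring
  have hsecond : ∀ v, covHess h f (ψ y) (fderiv ℝ ψ y v) (fderiv ℝ ψ y v) ≤
      μ * fderiv ℝ φ (ψ y) (B h ψ y v v) := by
    intro v
    have hF : ContDiffAt ℝ 2 (fun y => f (ψ y)) y := hf.contDiffAt.comp y b.hψ2
    have h1 := second_le_zero hF hmax v
    rw [second_comp hf b.hψ2] at h1
    have h2 := hDf (B h ψ y v v)
    unfold B at h2 ⊢
    rw [map_add] at h2
    rw [covHess_eq b.hh]
    linarith
  have hAnn : ∀ v, 0 ≤ fderiv ℝ φ (ψ y) (B h ψ y v v) := by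
    intro v
    by_cases hv : v = 0
    · rw [hv]
      unfold B
      simp
    · have h1 : fderiv ℝ ψ y v ≠ 0 := by
        intro h0
        apply hv
        apply b.hinj
        rw [h0, map_zero]
      have h2 := hconv _ h1
      have h3 := hsecond v
      by_contra hcon
      rw [not_le] at hcon
      have : μ * fderiv ℝ φ (ψ y) (B h ψ y v v) ≤ 0 :=
        mul_nonpos_of_nonneg_of_nonpos hμ0 hcon.le
      linarith
  rw [b.trace_eq]
  apply psd_pair b.invGram_posSemidef
  intro t
  have h1 := hAnn (∑ i, t i • ev i)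
  refine h1.trans_eq ?_
  have hadd1 : ∀ a c e, fderiv ℝ φ (ψ y) (B h ψ y (a + c) e) =
      fderiv ℝ φ (ψ y) (B h ψ y a e) + fderiv ℝ φ (ψ y) (B h ψ y c e) := by
    intro a c e
    unfold B
    simp only [map_add, add_apply]
    ring
  have hsm1 : ∀ (r : ℝ) a e, fderiv ℝ φ (ψ y) (B h ψ y (r • a) e) =
      r * fderiv ℝ φ (ψ y) (B h ψ y a e) := by
    intro r a e
    unfold B
    simp only [map_add, map_smul, smul_apply, smul_eq_mul]
    ring
  rw [lin_sum _ (fun a => fderiv ℝ φ (ψ y) (B h ψ y a (∑ i, t i • ev i)))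
    (fun a c => hadd1 a c _) (fun r a => hsm1 r a _)]
  apply Finset.sum_congr rfl
  intro j _
  rw [b.B_symm, lin_sum _ (fun a => fderiv ℝ φ (ψ y) (B h ψ y a (ev j)))
    (fun a c => hadd1 a c _) (fun r a => hsm1 r a _), Finset.mul_sum]
  apply Finset.sum_congr rfl
  intro k _
  rw [b.B_symm]
  simp only [A, Matrix.of_apply]
  ring

end BD

end Pool.Agent.Lib.MP_df705a_gt
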