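import Mathlib

/-!
# Scalar curvature of a Riemannian metric, in coordinates and on a manifold

All the objects are given by the classical coordinate formulas, in the linear coordinates
given by a basis of the model space.
-/

open scoped Manifold ContDiff
open Bundle Module

noncomputable section

namespace Pool.Agent.Lib.MP_df705a_gt.Curv

section coordinates

variable {E : Type*} [NormedAddCommGroup E] [NormedSpace ℝ E] [FiniteDimensional ℝ E]

/-- The coefficients `h_{ij}` of a field of bilinear forms on the space `E`, in the linear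
coordinates given by the basis `finBasis ℝ E`. -/
def Coeff (E : Type*) [NormedAddCommGroup E] [NormedSpace ℝ E] : Type _ :=
  E → Matrix (Fin (finrank ℝ E)) (Fin (finrank ℝ E)) ℝ

/-- The partial derivative `∂_i F`. -/
def pd (i : Fin (finrank ℝ E)) (F : E → ℝ) (x : E) : ℝ :=
  fderiv ℝ F x (finBasis ℝ E i)

/-- `h` is a smooth Riemannian metric `∑ h_{ij} dx_i dx_j` on `E`. -/
def IsMetric (h : Coeff E) : Prop :=
  (∀ i j, ContDiff ℝ ∞ fun x => h x i j) ∧ ∀ x, (h x).PosDef

/-- The inner product of two vectors for the metric `h` at `x`. -/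
def ip (h : Coeff E) (x u v : E) : ℝ :=
  ∑ i, ∑ j, h x i j * ((finBasis ℝ E).repr u i * (finBasis ℝ E).repr v j)

/-- The Christoffel symbols of the first kind
`[ij, k] = (∂_i h_{jk} + ∂_j h_{ik} - ∂_k h_{ij}) / 2`. -/
def christoffel (h : Coeff E) (i j k : Fin (finrank ℝ E)) (x : E) : ℝ :=
  (pd i (fun y => h y j k) x + pd j (fun y => h y i k) x - pd k (fun y => h y i j) x) / 2

/-- The Riemann curvature tensor `R_{ijkl} = ⟨R(∂_i, ∂_j)∂_k, ∂_l⟩`, given by
`∂_i [jk, l] - ∂_j [ik, l] + ∑ h^{pq} ([ik, p] [jl, q] - [jk, p] [il, q])`. -/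
def riemann (h : Coeff E) (i j k l : Fin (finrank ℝ E)) (x : E) : ℝ :=
  pd i (christoffel h j k l) x - pd j (christoffel h i k l) x
    + ∑ p, ∑ q, (h x)⁻¹ p q *
      (christoffel h i k p x * christoffel h j l q x
        - christoffel h j k p x * christoffel h i l q x)

/-- The curvature `⟨R(u, v)v, u⟩`, which has the sign of the sectional curvature of the plane
spanned by `u` and `v`. -/
def curv (h : Coeff E) (x u v : E) : ℝ :=
  ∑ i, ∑ j, ∑ k, ∑ l, riemann h i j k l x * ((finBasis ℝ E).repr u i *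
    (finBasis ℝ E).repr v j * (finBasis ℝ E).repr v k * (finBasis ℝ E).repr u l)

/-- The scalar curvature `∑ h^{il} h^{jk} R_{ijkl}`. -/
def scal (h : Coeff E) (x : E) : ℝ :=
  ∑ i, ∑ j, ∑ k, ∑ l, (h x)⁻¹ i l * (h x)⁻¹ j k * riemann h i j k l x

/-- The covariant Hessian `∂_i ∂_j f - ∑ h^{pq} [ij, p] ∂_q f` of a function `f`. -/
def covHess (h : Coeff E) (f : E → ℝ) (x : E) :
    Matrix (Fin (finrank ℝ E)) (Fin (finrank ℝ E)) ℝ :=
  fun i j => pd i (pd j f) x - ∑ p, ∑ q, (h x)⁻¹ p q * christoffel h i j p x * pd q f x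

end coordinates

section manifold

variable {E : Type*} [NormedAddCommGroup E] [NormedSpace ℝ E] [FiniteDimensional ℝ E]
  {M : Type*} [TopologicalSpace M] [ChartedSpace E M] [IsManifold 𝓘(ℝ, E) ∞ M]

/-- The coefficients of the Riemannian metric `g` in the preferred chart at `x`. -/
def chartMetric (g : ContMDiffRiemannianMetric 𝓘(ℝ, E) ∞ E
    (fun x : M => TangentSpace 𝓘(ℝ, E) x)) (x : M) : Coeff E := fun y i j =>
  g.inner ((extChartAt 𝓘(ℝ, E) x).symm y)
    (mfderiv 𝓘(ℝ, E) 𝓘(ℝ, E) (extChartAt 𝓘(ℝ, E) x).symm y (finBasis ℝ E i))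
    (mfderiv 𝓘(ℝ, E) 𝓘(ℝ, E) (extChartAt 𝓘(ℝ, E) x).symm y (finBasis ℝ E j))

/-- The metric `g` has positive scalar curvature. -/
def PSC (g : ContMDiffRiemannianMetric 𝓘(ℝ, E) ∞ E
    (fun x : M => TangentSpace 𝓘(ℝ, E) x)) : Prop :=
  ∀ x : M, 0 < scal (chartMetric g x) (extChartAt 𝓘(ℝ, E) x x)

end manifold

/-- A space is aspherical if it has a contractible covering space
(which is then its universal cover). -/
def IsAspherical.{u} (M : Type u) [TopologicalSpace M] : Prop :=
  ∃ (Y : Type u) (_ : TopologicalSpace Y) (p : Y → M),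
    ContractibleSpace Y ∧ IsCoveringMap p ∧ Function.Surjective p

end Pool.Agent.Lib.MP_df705a_gt.Curv
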