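import Pool.Agent.Lib.MP_df705a_gt.Cubical

open Set Metric Filter Topology Module
open scoped NNReal ENNReal

namespace Pool.Agent.Lib.MP_df705a_gt

/-- A set of dimension at most `N - 3` (parametrized by countably many Lipschitz maps) can be
made disjoint from the two dimensional skeleton of a cubical grid by a translation. -/
theorem exists_translation {N k : ℕ} (hk : k + 3 ≤ N) {δ : ℝ} (hδ : 0 < δ)
    (S : Set (Fin N → ℝ)) {ι : Type} [Countable ι] (A : ι → Set (Fin N → ℝ))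
    (hS : S ⊆ ⋃ i, A i)
    (hA : ∀ i, ∃ (σ : (Fin k → ℝ) → (Fin N → ℝ)) (B : Set (Fin k → ℝ)) (C : ℝ≥0),
      LipschitzOnWith C σ B ∧ A i ⊆ σ '' B) :
    ∃ v : Fin N → ℝ, ∀ s ∈ S, 3 ≤ Grid.d v δ s := by
  classical
  choose σ B C hσ hAσ using hA
  let T := {J : Finset (Fin N) // J.card ≤ 2}
  let F : (i : ι) → (J : T) → (a : Fin N → ℤ) → ((Fin k → ℝ) × (J.1 → ℝ)) → (Fin N → ℝ) :=
    fun i J a p l => if h : l ∈ J.1 then p.2 ⟨l, h⟩ else σ i p.1 l - δ * a l
  have hF : ∀ i J a, LipschitzOnWith (max (C i) 1) (F i J a) (B i ×ˢ univ) := by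
    intro i J a
    apply LipschitzOnWith.of_dist_le_mul
    rintro ⟨b, c⟩ ⟨hb, _⟩ ⟨b', c'⟩ ⟨hb', _⟩
    rw [dist_pi_le_iff (by positivity)]
    intro l
    have hd1 : dist b b' ≤ dist (b, c) (b', c') := by
      rw [Prod.dist_eq]; exact le_max_left _ _
    have hd2 : dist c c' ≤ dist (b, c) (b', c') := by
      rw [Prod.dist_eq]; exact le_max_right _ _
    by_cases h : l ∈ J.1
    · simp only [F, h, dite_true]
      calc dist (c ⟨l, h⟩) (c' ⟨l, h⟩) ≤ dist c c' := dist_le_pi_dist c c' ⟨l, h⟩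
        _ ≤ 1 * dist (b, c) (b', c') := by rw [one_mul]; exact hd2
        _ ≤ ((max (C i) 1 : ℝ≥0) : ℝ) * dist (b, c) (b', c') := by
          apply mul_le_mul_of_nonneg_right _ dist_nonneg
          rw [NNReal.coe_max]
          exact le_max_right _ _
    · simp only [F, h, dite_false]
      rw [dist_sub_right]
      calc dist (σ i b l) (σ i b' l) ≤ dist (σ i b) (σ i b') := dist_le_pi_dist _ _ l
        _ ≤ C i * dist b b' := (hσ i).dist_le_mul b hb b' hb'
        _ ≤ ((max (C i) 1 : ℝ≥0) : ℝ) * dist (b, c) (b', c') := by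
          apply mul_le_mul _ hd1 dist_nonneg (by positivity)
          rw [NNReal.coe_max]
          exact le_max_left _ _
  let Bad : Set (Fin N → ℝ) := ⋃ q : ι × T × (Fin N → ℤ), F q.1 q.2.1 q.2.2 '' (B q.1 ×ˢ univ)
  have hBad : dimH Bad < finrank ℝ (Fin N → ℝ) := by
    rw [dimH_iUnion]
    have h1 : ∀ q : ι × T × (Fin N → ℤ), dimH (F q.1 q.2.1 q.2.2 '' (B q.1 ×ˢ univ)) ≤
        ((k + 2 : ℕ) : ℝ≥0∞) := by
      rintro ⟨i, J, a⟩
      calc dimH (F i J a '' (B i ×ˢ univ)) ≤ dimH (B i ×ˢ (univ : Set (J.1 → ℝ))) :=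
            (hF i J a).dimH_image_le
        _ ≤ dimH (univ : Set ((Fin k → ℝ) × (J.1 → ℝ))) := dimH_mono (subset_univ _)
        _ = (finrank ℝ ((Fin k → ℝ) × (J.1 → ℝ)) : ℝ≥0∞) := Real.dimH_univ_eq_finrank _
        _ ≤ ((k + 2 : ℕ) : ℝ≥0∞) := by
          rw [finrank_prod, finrank_fin_fun, finrank_fintype_fun_eq_card, Fintype.card_coe]
          have := J.2
          exact_mod_cast Nat.add_le_add_left this k
    calc ⨆ q : ι × T × (Fin N → ℤ), dimH (F q.1 q.2.1 q.2.2 '' (B q.1 ×ˢ univ))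
        ≤ ((k + 2 : ℕ) : ℝ≥0∞) := iSup_le h1
      _ < (finrank ℝ (Fin N → ℝ) : ℝ≥0∞) := by
        rw [finrank_fin_fun]
        exact_mod_cast (by omega : k + 2 < N)
  have hdense := dense_compl_of_dimH_lt_finrank hBad
  obtain ⟨v, hv⟩ := hdense.nonempty
  refine ⟨v, ?_⟩
  intro s hs
  by_contra hcon
  apply hv
  obtain ⟨i, hi⟩ := mem_iUnion.mp (hS hs)
  obtain ⟨b, hb, hbs⟩ := hAσ i hi
  have hJ : (Grid.J v δ s).card ≤ 2 := by
    have : Grid.d v δ s < 3 := not_le.mp hcon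
    unfold Grid.d at this
    omega
  refine mem_iUnion.mpr ⟨(i, ⟨Grid.J v δ s, hJ⟩, Grid.fl v δ s), ?_⟩
  refine ⟨(b, fun l => v l.1), ⟨hb, mem_univ _⟩, ?_⟩
  funext l
  by_cases h : l ∈ Grid.J v δ s
  · simp only [F, h, dite_true]
  · simp only [F, h, dite_false]
    have h1 := (Grid.not_mem_J s l).mp h
    unfold Grid.u at h1
    rw [div_eq_iff hδ.ne'] at h1
    rw [hbs]
    linarith

end Pool.Agent.Lib.MP_df705a_gt
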