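import Mathlib

open Set Metric Filter Topology

namespace Pool.Agent.Lib.MP_df705a_gt

/-- The exit map of a region with transversal boundary. -/
theorem exists_hit {E : Type*} [TopologicalSpace E] (φ : E → ℝ) (hφ : Continuous φ)
    (Φ : ℝ → E → E) (h0 : ∀ x, Φ 0 x = x)
    (hsemi : ∀ s t x, Φ (s + t) x = Φ s (Φ t x))
    (hcont : Continuous (fun p : ℝ × E => Φ p.1 p.2))
    (htrans : ∀ y, φ y = 0 → ∃ ε > 0, ∀ t ∈ Ioo (0 : ℝ) ε, φ (Φ t y) < 0) :
    ∃ e : E → E, ContinuousOn e ({x | 0 ≤ φ x} \ {x | ∀ t, 0 ≤ t → 0 < φ (Φ t x)}) ∧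
      (∀ x ∈ ({x | 0 ≤ φ x} \ {x | ∀ t, 0 ≤ t → 0 < φ (Φ t x)}), φ (e x) = 0) ∧
      (∀ x, φ x = 0 → e x = x) := by
  set A : E → Set ℝ := fun x => {t | 0 ≤ t ∧ φ (Φ t x) ≤ 0} with hA
  set T : E → ℝ := fun x => sInf (A x) with hT
  have hct : ∀ x, Continuous (fun t => Φ t x) := fun x =>
    hcont.comp (continuous_id.prodMk continuous_const)
  have hAclosed : ∀ x, IsClosed (A x) := by
    intro x
    apply IsClosed.and
    · exact isClosed_le continuous_const continuous_id
    · exact isClosed_le (hφ.comp (hct x)) continuous_const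
  have hAbdd : ∀ x, BddBelow (A x) := fun x => ⟨0, fun t ht => ht.1⟩
  have hTnonneg : ∀ x, 0 ≤ T x := fun x => Real.sInf_nonneg (fun t ht => ht.1)
  have hAne : ∀ x ∈ ({x | 0 ≤ φ x} \ {x | ∀ t, 0 ≤ t → 0 < φ (Φ t x)}), (A x).Nonempty := by
    rintro x ⟨_, hx⟩
    simp only [Set.mem_ofPred_eq, not_forall, not_lt] at hx
    obtain ⟨t, ht, h⟩ := hx
    exact ⟨t, ht, h⟩
  have hTmem : ∀ x, (A x).Nonempty → T x ∈ A x := fun x hx =>
    (hAclosed x).csInf_mem hx (hAbdd x)
  have hTle : ∀ x t, t ∈ A x → T x ≤ t := fun x t ht => csInf_le (hAbdd x) ht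
  have hbefore : ∀ x t, 0 ≤ t → t < T x → 0 < φ (Φ t x) := by
    intro x t ht htT
    by_contra hcon
    have : t ∈ A x := ⟨ht, not_lt.mp hcon⟩
    linarith [hTle x t this]
  have hzero : ∀ x ∈ ({x | 0 ≤ φ x} \ {x | ∀ t, 0 ≤ t → 0 < φ (Φ t x)}),
      φ (Φ (T x) x) = 0 := by
    intro x hx
    have hmem := hTmem x (hAne x hx)
    apply le_antisymm hmem.2
    rcases (hTnonneg x).eq_or_lt with h | h
    · rw [← h, h0]
      exact hx.1
    · have hlim : Tendsto (fun t => φ (Φ t x)) (𝓝[<] (T x)) (𝓝 (φ (Φ (T x) x))) :=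
        ((hφ.comp (hct x)).continuousAt.tendsto).mono_left nhdsWithin_le_nhds
      apply ge_of_tendsto hlim
      have : ∀ᶠ t in 𝓝[<] (T x), 0 < t ∧ t < T x := by
        have := Ioo_mem_nhdsLT h
        filter_upwards [this] with t ht using ht
      filter_upwards [this] with t ht
      exact (hbefore x t ht.1.le ht.2).le
  have hTcont : ∀ x ∈ ({x | 0 ≤ φ x} \ {x | ∀ t, 0 ≤ t → 0 < φ (Φ t x)}),
      Tendsto T (𝓝[({x | 0 ≤ φ x} \ {x | ∀ t, 0 ≤ t → 0 < φ (Φ t x)})] x) (𝓝 (T x)) := by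
    intro x hx
    rw [tendsto_order]
    constructor
    · intro a ha
      rcases lt_or_ge a 0 with ha0 | ha0
      · exact Eventually.of_forall fun y => lt_of_lt_of_le ha0 (hTnonneg y)
      · have hev : ∀ᶠ y in 𝓝 x, ∀ t ∈ Icc 0 a, 0 < φ (Φ t y) := by
          apply IsCompact.eventually_forall_of_forall_eventually isCompact_Icc
          intro t ht
          have hpos : 0 < φ (Φ t x) := hbefore x t ht.1 (lt_of_le_of_lt ht.2 ha)
          have hc : Continuous (fun z : E × ℝ => φ (Φ z.2 z.1)) :=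
            hφ.comp (hcont.comp (continuous_snd.prodMk continuous_fst))
          exact (isOpen_lt continuous_const hc).mem_nhds hpos
        have hev' := hev.filter_mono (nhdsWithin_le_nhds
          (s := ({x | 0 ≤ φ x} \ {x | ∀ t, 0 ≤ t → 0 < φ (Φ t x)})))
        filter_upwards [hev', self_mem_nhdsWithin] with y hy hyK
        by_contra hcon
        rw [not_lt] at hcon
        have hm := hTmem y (hAne y hyK)
        have := hy (T y) ⟨hTnonneg y, hcon⟩
        linarith [hm.2]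
    · intro b hb
      obtain ⟨ε, hε, h⟩ := htrans _ (hzero x hx)
      set s : ℝ := min (ε / 2) ((b - T x) / 2) with hs
      have hspos : 0 < s := lt_min (by linarith) (by linarith)
      have hs1 : s < ε := lt_of_le_of_lt (min_le_left _ _) (by linarith)
      have hs2 : s < b - T x := lt_of_le_of_lt (min_le_right _ _) (by linarith)
      have hneg : φ (Φ (s + T x) x) < 0 := by
        rw [hsemi]
        exact h s ⟨hspos, hs1⟩
      have hc : Continuous (fun y : E => φ (Φ (s + T x) y)) :=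
        hφ.comp (hcont.comp (continuous_const.prodMk continuous_id))
      have hev : ∀ᶠ y in 𝓝 x, φ (Φ (s + T x) y) < 0 :=
        (isOpen_lt hc continuous_const).mem_nhds hneg
      have hev' := hev.filter_mono (nhdsWithin_le_nhds
          (s := ({x | 0 ≤ φ x} \ {x | ∀ t, 0 ≤ t → 0 < φ (Φ t x)})))
      filter_upwards [hev'] with y hy
      have : T y ≤ s + T x := hTle y _ ⟨by linarith [hTnonneg x], hy.le⟩
      linarith
  refine ⟨fun x => Φ (T x) x, ?_, hzero, ?_⟩
  · intro x hx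
    have h1 : Tendsto (fun y => (T y, y))
        (𝓝[({x | 0 ≤ φ x} \ {x | ∀ t, 0 ≤ t → 0 < φ (Φ t x)})] x) (𝓝 (T x, x)) := by
      rw [nhds_prod_eq]
      exact (hTcont x hx).prodMk (tendsto_id.mono_left nhdsWithin_le_nhds)
    exact (hcont.tendsto (T x, x)).comp h1
  · intro x hx
    have : T x = 0 := by
      apply le_antisymm _ (hTnonneg x)
      apply hTle
      refine ⟨le_rfl, ?_⟩
      rw [h0, hx]
    simp only [this, h0]

end Pool.Agent.Lib.MP_df705a_gt
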