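import Mathlib

open Set Metric Filter Topology
open scoped NNReal

namespace Pool.Agent.Lib.MP_df705a_gt

/-- An orbit that stays in a compact set and along which `F` is nondecreasing eventually stays
near one rest point, if the rest points are finitely many. -/
theorem settle {E : Type*} [TopologicalSpace E] [T2Space E] (Φ : ℝ → E → E)
    (hsemi : ∀ s t x, Φ (s + t) x = Φ s (Φ t x))
    (hcont : Continuous (fun p : ℝ × E => Φ p.1 p.2))
    (C : Set E) (hC : IsCompact C) (F : E → ℝ) (hF : ContinuousOn F C) (x : E)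
    (hx : ∀ t, 0 ≤ t → Φ t x ∈ C)
    (hmono : ∀ s t, 0 ≤ s → s ≤ t → F (Φ s x) ≤ F (Φ t x))
    (Z : Set E) (hZ : Z.Finite)
    (hcrit : ∀ y, (∀ s, 0 ≤ s → Φ s y ∈ C) → (∀ s, 0 ≤ s → F (Φ s y) = F (Φ 0 y)) → y ∈ Z)
    (V : E → Set E) (hV : ∀ z ∈ Z, IsOpen (V z) ∧ z ∈ V z) :
    ∃ z ∈ Z, ∃ T, 0 ≤ T ∧ ∀ t, T ≤ t → Φ t x ∈ V z := by
  obtain ⟨U, hU, hdisj⟩ := hZ.t2_separation
  set W : E → Set E := fun z => U z ∩ V z with hW
  have hWopen : ∀ z ∈ Z, IsOpen (W z) := fun z hz => (hU z).2.inter (hV z hz).1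
  have hWmem : ∀ z ∈ Z, z ∈ W z := fun z hz => ⟨(hU z).1, (hV z hz).2⟩
  set O : Set E := ⋃ z ∈ Z, W z with hO
  have hOopen : IsOpen O := isOpen_biUnion hWopen
  have hct : ∀ s, Continuous (fun y => Φ s y) := fun s =>
    hcont.comp (continuous_const.prodMk continuous_id)
  have hcx : Continuous (fun t => Φ t x) := hcont.comp (continuous_id.prodMk continuous_const)
  have hev : ∀ᶠ t in atTop, Φ t x ∈ O := by
    by_contra hcon
    have hfr : ∃ᶠ t in atTop, Φ t x ∈ C \ O := by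
      have h1 : ∃ᶠ t in atTop, Φ t x ∉ O := not_eventually.mp hcon
      have h2 : ∀ᶠ t : ℝ in atTop, Φ t x ∈ C := by
        filter_upwards [eventually_ge_atTop (0 : ℝ)] with t ht using hx t ht
      exact (h1.and_eventually h2).mono fun t ht => ⟨ht.2, ht.1⟩
    obtain ⟨y, hy, hcl⟩ := (hC.diff hOopen).exists_mapClusterPt_of_frequently hfr
    rw [mapClusterPt_iff_ultrafilter] at hcl
    obtain ⟨𝒰, h𝒰, hlim⟩ := hcl
    -- the limiting energy
    set h : ℝ → ℝ := fun t => F (Φ (max t 0) x) with hh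
    have hhmono : Monotone h := fun s t hst =>
      hmono _ _ (le_max_right _ _) (max_le_max_right 0 hst)
    have hbdd : BddAbove (range h) := by
      obtain ⟨M, hM⟩ := (hC.image_of_continuousOn hF).bddAbove
      refine ⟨M, ?_⟩
      rintro _ ⟨t, rfl⟩
      exact hM ⟨_, hx _ (le_max_right _ _), rfl⟩
    have hlimh := tendsto_atTop_ciSup hhmono hbdd
    have hstay : ∀ s, 0 ≤ s → Φ s y ∈ C ∧ F (Φ s y) = ⨆ i, h i := by
      intro s hs
      have h1 : Tendsto (fun t => Φ s (Φ t x)) 𝒰 (𝓝 (Φ s y)) :=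
        ((hct s).tendsto y).comp hlim
      have h2 : ∀ᶠ t in (𝒰 : Filter ℝ), Φ s (Φ t x) ∈ C := by
        have : ∀ᶠ t : ℝ in atTop, Φ s (Φ t x) ∈ C := by
          filter_upwards [eventually_ge_atTop (0 : ℝ)] with t ht
          rw [← hsemi]
          exact hx _ (by linarith)
        exact h𝒰 this
      have h3 : Φ s y ∈ C := hC.isClosed.mem_of_tendsto h1 h2
      refine ⟨h3, ?_⟩
      have h4 : Tendsto (fun t => F (Φ s (Φ t x))) 𝒰 (𝓝 (F (Φ s y))) := by
        have h5 : Tendsto (fun t => Φ s (Φ t x)) 𝒰 (𝓝[C] (Φ s y)) :=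
          tendsto_nhdsWithin_iff.mpr ⟨h1, h2⟩
        exact (hF _ h3).tendsto.comp h5
      have h6 : Tendsto (fun t => F (Φ s (Φ t x))) atTop (𝓝 (⨆ i, h i)) := by
        have h7 : Tendsto (fun t => h (s + t)) atTop (𝓝 (⨆ i, h i)) :=
          hlimh.comp (tendsto_atTop_add_const_left _ s tendsto_id)
        apply h7.congr'
        filter_upwards [eventually_ge_atTop (0 : ℝ)] with t ht
        simp only [hh]
        rw [max_eq_left (by linarith), hsemi]
      exact tendsto_nhds_unique h4 (h6.mono_left h𝒰)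
    have hyZ : y ∈ Z := by
      apply hcrit y (fun s hs => (hstay s hs).1)
      intro s hs
      rw [(hstay s hs).2, (hstay 0 le_rfl).2]
    exact hy.2 (mem_biUnion hyZ (hWmem y hyZ))
  obtain ⟨T₀, hT₀⟩ := eventually_atTop.mp hev
  set T : ℝ := max T₀ 0 with hT
  have hT0 : 0 ≤ T := le_max_right _ _
  have hTO : ∀ t, T ≤ t → Φ t x ∈ O := fun t ht => hT₀ t ((le_max_left _ _).trans ht)
  obtain ⟨z₀, hz₀, hz₀W⟩ := mem_iUnion₂.mp (hTO T le_rfl)
  refine ⟨z₀, hz₀, T, hT0, ?_⟩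
  have hpre : IsPreconnected ((fun t => Φ t x) '' Ici T) :=
    isPreconnected_Ici.image _ hcx.continuousOn
  have hsub : (fun t => Φ t x) '' Ici T ⊆ W z₀ := by
    apply IsPreconnected.subset_left_of_subset_union (v := ⋃ z ∈ Z \ {z₀}, W z) (hWopen z₀ hz₀)
      (isOpen_biUnion fun z hz => hWopen z hz.1)
    · rw [Set.disjoint_iUnion₂_right]
      intro z hz
      have := hdisj hz₀ hz.1 (fun h => hz.2 h.symm)
      exact this.mono inter_subset_left inter_subset_left
    · rintro _ ⟨t, ht, rfl⟩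
      obtain ⟨z, hz, hzW⟩ := mem_iUnion₂.mp (hTO t ht)
      by_cases hzz : z = z₀
      · left
        rw [← hzz]
        exact hzW
      · right
        exact mem_biUnion (show z ∈ Z \ {z₀} from ⟨hz, hzz⟩) hzW
    · exact ⟨Φ T x, ⟨T, self_mem_Ici, rfl⟩, hz₀W⟩
    · exact hpre
  intro t ht
  exact (hsub ⟨t, ht, rfl⟩).2

/-- Uniform transversality near the boundary. -/
theorem near_bdry {E : Type*} [TopologicalSpace E] [T2Space E] (φ g : E → ℝ)
    (hφ : Continuous φ) (hg : Continuous g) (hK : IsCompact {x | 0 ≤ φ x})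
    (hb : ∀ x, φ x = 0 → g x < 0) :
    ∃ δ > 0, ∃ c > 0, ∀ x, 0 ≤ φ x → φ x ≤ δ → g x ≤ -c := by
  have hM : IsCompact {x | φ x = 0} := by
    apply hK.of_isClosed_subset (isClosed_eq hφ continuous_const)
    intro x hx
    simp only [mem_ofPred_eq] at hx ⊢
    exact hx.ge
  obtain ⟨c, hc, hcM⟩ := hM.exists_forall_le' (f := fun x => -g x) hg.neg.continuousOn (a := 0)
    (fun x hx => by simpa using hb x hx)
  have hC : IsCompact ({x | 0 ≤ φ x} \ {x | g x < -(c / 2)}) :=
    hK.diff (isOpen_lt hg continuous_const)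
  obtain ⟨δ, hδ, hδC⟩ := hC.exists_forall_le' hφ.continuousOn (a := 0) (by
    rintro x ⟨hx1, hx2⟩
    rcases (show (0 : ℝ) ≤ φ x from hx1).eq_or_lt with h | h
    · exfalso
      apply hx2
      have := hcM x h.symm
      simp only [mem_ofPred_eq]
      linarith
    · exact h)
  refine ⟨δ / 2, by linarith, c / 2, by linarith, ?_⟩
  intro x hx0 hxδ
  by_contra hcon
  have : x ∈ ({x | 0 ≤ φ x} \ {x | g x < -(c / 2)}) := by
    refine ⟨hx0, ?_⟩
    simp only [mem_ofPred_eq]
    intro h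
    exact hcon h.le
  have := hδC x this
  linarith

/-- A positive function whose derivative is negative when it is small cannot become small. -/
theorem stay_away (ψ ψ' : ℝ → ℝ) (hψ : ∀ t, HasDerivAt ψ (ψ' t) t) (hpos : ∀ t, 0 ≤ t → 0 < ψ t)
    (δ c : ℝ) (hc : 0 < c) (hsmall : ∀ t, 0 ≤ t → ψ t ≤ δ → ψ' t ≤ -c) :
    ∀ t, 0 ≤ t → δ ≤ ψ t := by
  intro t₀ ht₀
  by_contra hcon
  rw [not_le] at hcon
  set B : ℝ → ℝ := fun t => ψ t₀ - c / 2 * (t - t₀) with hB
  have hBd : ∀ t, HasDerivAt B (-(c / 2)) t := by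
    intro t
    have h1 : HasDerivAt (fun t : ℝ => t - t₀) 1 t := (hasDerivAt_id t).sub_const t₀
    have h2 := (h1.const_mul (c / 2)).const_sub (ψ t₀)
    simpa using h2
  have key : ∀ t₁, t₀ ≤ t₁ → ψ t₁ ≤ B t₁ := by
    intro t₁ ht₁
    apply image_le_of_deriv_right_lt_deriv_boundary' (f := ψ) (f' := ψ') (a := t₀) (b := t₁)
      (fun s _ => (hψ s).continuousAt.continuousWithinAt)
      (fun s _ => (hψ s).hasDerivWithinAt) (B := B) (B' := fun _ => -(c / 2)) (by simp [hB])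
      (fun s _ => (hBd s).continuousAt.continuousWithinAt)
      (fun s _ => (hBd s).hasDerivWithinAt)
    · intro s hs heq
      have hs0 : 0 ≤ s := ht₀.trans hs.1
      have h1 : ψ s ≤ δ := by
        rw [heq]
        simp only [hB]
        have : 0 ≤ c / 2 * (s - t₀) := mul_nonneg (by linarith) (by linarith [hs.1])
        linarith
      have := hsmall s hs0 h1
      linarith
    · exact ⟨ht₁, le_rfl⟩
  have h1 := key (t₀ + 2 * ψ t₀ / c) (by
    have := hpos t₀ ht₀
    have : 0 ≤ 2 * ψ t₀ / c := by positivity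
    linarith)
  have h2 := hpos (t₀ + 2 * ψ t₀ / c) (by
    have := hpos t₀ ht₀
    have : 0 ≤ 2 * ψ t₀ / c := by positivity
    linarith)
  have h3 : B (t₀ + 2 * ψ t₀ / c) = 0 := by
    simp only [hB]
    field_simp
    ring
  linarith

/-- A partial inverse of a map which is expanding on a set. -/
theorem param_of_antilip {E G : Type*} [MetricSpace E] [Nonempty E] [PseudoMetricSpace G]
    (A : Set E) (g : E → G) (C : ℝ≥0) (h : ∀ x ∈ A, ∀ y ∈ A, dist x y ≤ C * dist (g x) (g y)) :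
    ∃ (σ : G → E) (B : Set G), LipschitzOnWith C σ B ∧ A ⊆ σ '' B := by
  classical
  have hinj : InjOn g A := by
    intro x hx y hy hxy
    have := h x hx y hy
    rw [hxy, dist_self, mul_zero] at this
    exact dist_le_zero.mp this
  have hinv : ∀ x ∈ A, Function.invFunOn g A (g x) = x := by
    intro x hx
    exact hinj.leftInvOn_invFunOn hx
  refine ⟨Function.invFunOn g A, g '' A, ?_, ?_⟩
  · apply LipschitzOnWith.of_dist_le_mul
    rintro _ ⟨x, hx, rfl⟩ _ ⟨y, hy, rfl⟩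
    rw [hinv x hx, hinv y hy]
    exact h x hx y hy
  · intro x hx
    exact ⟨g x, ⟨x, hx, rfl⟩, hinv x hx⟩

end Pool.Agent.Lib.MP_df705a_gt
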