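import Mathlib

open Set Metric Filter Topology
open scoped NNReal RealInnerProductSpace

namespace Pool.Agent.Lib.MP_df705a_gt

/-- Differences of points whose forward orbits stay near a nondegenerate zero of a field with
symmetric derivative `L` lie in the cone where the quadratic form of `L` is nonpositive. -/
theorem stable_cone {E : Type*} [NormedAddCommGroup E] [InnerProductSpace ℝ E]
    [FiniteDimensional ℝ E] (X : E → E) (Φ : ℝ → E → E) (h0 : ∀ x, Φ 0 x = x)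
    (hd : ∀ x t, HasDerivAt (fun s => Φ s x) (X (Φ t x)) t) (z : E) (L : E →L[ℝ] E)
    (hX : HasStrictFDerivAt X L z) (hsymm : ∀ v w : E, ⟪L v, w⟫ = ⟪v, L w⟫)
    (hinj : Function.Injective L) :
    ∃ r > 0, ∀ y₁ y₂ : E, (∀ t, 0 ≤ t → Φ t y₁ ∈ closedBall z r) →
      (∀ t, 0 ≤ t → Φ t y₂ ∈ closedBall z r) → ⟪L (y₁ - y₂), y₁ - y₂⟫ ≤ 0 := by
  obtain ⟨K, hKpos, hK⟩ := LinearMap.exists_antilipschitzWith (L : E →ₗ[ℝ] E)
    (LinearMap.ker_eq_bot.mpr hinj)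
  have hKr : (0 : ℝ) < K := hKpos
  set m : ℝ := (K : ℝ)⁻¹ with hm
  have hmpos : 0 < m := inv_pos.mpr hKr
  have hLm : ∀ w, m * ‖w‖ ≤ ‖L w‖ := by
    intro w
    have h1 : ‖w‖ ≤ K * ‖L w‖ := by
      have := hK.le_mul_dist w 0
      simpa using this
    rw [hm, inv_mul_le_iff₀ hKr]
    exact h1
  have hc : 0 < m / 2 := by positivity
  obtain ⟨s, hs, happ⟩ := hX.approximates_deriv_on_nhds (c := ⟨m / 2, hc.le⟩)
    (Or.inr (by exact hc))
  obtain ⟨r, hr, hrs⟩ := Metric.nhds_basis_closedBall.mem_iff.mp hs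
  refine ⟨r, hr, ?_⟩
  intro y₁ y₂ hy₁ hy₂
  by_contra hcon
  rw [not_le] at hcon
  set w : ℝ → E := fun t => Φ t y₁ - Φ t y₂ with hw
  set w' : ℝ → E := fun t => X (Φ t y₁) - X (Φ t y₂) with hw'
  have hwd : ∀ t, HasDerivAt w (w' t) t := fun t => (hd y₁ t).sub (hd y₂ t)
  set g : ℝ → ℝ := fun t => ⟪L (w t), w t⟫ with hg
  have hgd : ∀ t, HasDerivAt g (2 * ⟪L (w t), w' t⟫) t := by
    intro t
    have h1 : HasDerivAt (fun t => L (w t)) (L (w' t)) t :=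
      (L.hasFDerivAt.comp_hasDerivAt t (hwd t))
    have h2 := HasDerivAt.inner ℝ h1 (hwd t)
    have h3 : ⟪L (w t), w' t⟫ + ⟪L (w' t), w t⟫ = 2 * ⟪L (w t), w' t⟫ := by
      rw [hsymm (w' t) (w t), real_inner_comm (L (w t)) (w' t)]
      ring
    rw [h3] at h2
    exact h2
  have hR : ∀ t, 0 ≤ t → ‖w' t - L (w t)‖ ≤ (m / 2) * ‖w t‖ := by
    intro t ht
    have := happ (Φ t y₁) (hrs (hy₁ t ht)) (Φ t y₂) (hrs (hy₂ t ht))
    exact this
  have hg' : ∀ t, 0 ≤ t → m ^ 2 * ‖w t‖ ^ 2 ≤ 2 * ⟪L (w t), w' t⟫ := by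
    intro t ht
    have e1 : ⟪L (w t), w' t⟫ = ‖L (w t)‖ ^ 2 + ⟪L (w t), w' t - L (w t)⟫ := by
      rw [inner_sub_right (L (w t)) (w' t) (L (w t)), real_inner_self_eq_norm_sq]
      ring
    have e2 : -(‖L (w t)‖ * ((m / 2) * ‖w t‖)) ≤ ⟪L (w t), w' t - L (w t)⟫ := by
      have h1 := abs_real_inner_le_norm (L (w t)) (w' t - L (w t))
      have h2 : ‖L (w t)‖ * ‖w' t - L (w t)‖ ≤ ‖L (w t)‖ * ((m / 2) * ‖w t‖) :=
        mul_le_mul_of_nonneg_left (hR t ht) (norm_nonneg _)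
      have h3 := neg_abs_le ⟪L (w t), w' t - L (w t)⟫
      linarith
    have e3 := hLm (w t)
    have e4 : 0 ≤ ‖w t‖ := norm_nonneg _
    rw [e1]
    nlinarith [mul_nonneg (mul_nonneg hmpos.le e4) (sub_nonneg.mpr e3), sq_nonneg (‖L (w t)‖ - m * ‖w t‖), norm_nonneg (L (w t))]
  set Λ : ℝ := ‖L‖ + 1 with hΛ
  have hΛpos : 0 < Λ := by positivity
  have hgle : ∀ t, g t ≤ Λ * ‖w t‖ ^ 2 := by
    intro t
    calc g t ≤ ‖L (w t)‖ * ‖w t‖ := real_inner_le_norm _ _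
      _ ≤ (‖L‖ * ‖w t‖) * ‖w t‖ := mul_le_mul_of_nonneg_right (L.le_opNorm _) (norm_nonneg _)
      _ ≤ Λ * ‖w t‖ ^ 2 := by rw [hΛ]; nlinarith [sq_nonneg ‖w t‖]
  have hderiv : ∀ t, deriv g t = 2 * ⟪L (w t), w' t⟫ := fun t => (hgd t).deriv
  have hgc : Continuous g := by
    rw [continuous_iff_continuousAt]
    exact fun t => (hgd t).continuousAt
  have hgdiff : Differentiable ℝ g := fun t => (hgd t).differentiableAt
  have hmono : ∀ t, 0 ≤ t → g 0 ≤ g t := by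
    intro t ht
    have := (convex_Ici (0 : ℝ)).mul_sub_le_image_sub_of_le_deriv hgc.continuousOn
      hgdiff.differentiableOn (C := 0) (by
        intro x hx
        rw [interior_Ici] at hx
        rw [hderiv]
        have := hg' x (le_of_lt hx)
        have h2 : 0 ≤ m ^ 2 * ‖w x‖ ^ 2 := by positivity
        linarith) 0 self_mem_Ici t ht ht
    linarith
  have hg0 : 0 < g 0 := by
    simp only [hg, hw, h0]
    exact hcon
  set c : ℝ := m ^ 2 / Λ * g 0 with hcdef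
  have hcpos : 0 < c := by positivity
  have hgrow : ∀ t, 0 ≤ t → c * t ≤ g t - g 0 := by
    intro t ht
    have := (convex_Ici (0 : ℝ)).mul_sub_le_image_sub_of_le_deriv hgc.continuousOn
      hgdiff.differentiableOn (C := c) (by
        intro x hx
        rw [interior_Ici] at hx
        rw [hderiv]
        have h1 := hg' x (le_of_lt hx)
        have h2 := hgle x
        have h3 := hmono x (le_of_lt hx)
        have h4 : c ≤ m ^ 2 * ‖w x‖ ^ 2 := by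
          rw [hcdef, div_mul_eq_mul_div, div_le_iff₀ hΛpos, mul_assoc]
          apply mul_le_mul_of_nonneg_left _ (by positivity)
          linarith
        linarith) 0 self_mem_Ici t ht ht
    simpa using this
  have hbound : ∀ t, 0 ≤ t → g t ≤ Λ * (2 * r) ^ 2 := by
    intro t ht
    have h1 : ‖w t‖ ≤ 2 * r := by
      have ha := mem_closedBall_iff_norm.mp (hy₁ t ht)
      have hb := mem_closedBall_iff_norm.mp (hy₂ t ht)
      have : w t = (Φ t y₁ - z) - (Φ t y₂ - z) := by simp [hw]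
      rw [this]
      calc ‖(Φ t y₁ - z) - (Φ t y₂ - z)‖ ≤ ‖Φ t y₁ - z‖ + ‖Φ t y₂ - z‖ := norm_sub_le _ _
        _ ≤ 2 * r := by linarith
    calc g t ≤ Λ * ‖w t‖ ^ 2 := hgle t
      _ ≤ Λ * (2 * r) ^ 2 := by
        apply mul_le_mul_of_nonneg_left _ hΛpos.le
        exact pow_le_pow_left₀ (norm_nonneg _) h1 2
  have hT := hgrow ((Λ * (2 * r) ^ 2) / c) (by positivity)
  have hT2 := hbound ((Λ * (2 * r) ^ 2) / c) (by positivity)
  rw [mul_div_cancel₀ _ hcpos.ne'] at hT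
  linarith

/-- In the cone where a form positive on `V` is nonpositive, the orthogonal projection to `Vᗮ`
controls the norm. -/
theorem cone_bound {E : Type*} [NormedAddCommGroup E] [InnerProductSpace ℝ E]
    [FiniteDimensional ℝ E] (L : E →L[ℝ] E) (hsymm : ∀ v w : E, ⟪L v, w⟫ = ⟪v, L w⟫)
    (V : Submodule ℝ E) (κ : ℝ) (hκ : 0 < κ) (hV : ∀ v ∈ V, κ * ‖v‖ ^ 2 ≤ ⟪L v, v⟫) :
    ∃ C : ℝ, 0 < C ∧ ∀ w : E, ⟪L w, w⟫ ≤ 0 → ‖w‖ ≤ C * ‖Vᗮ.starProjection w‖ := by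
  set Λ : ℝ := ‖L‖ with hΛ
  have hΛ0 : 0 ≤ Λ := norm_nonneg _
  refine ⟨2 + 3 * Λ / κ, by positivity, ?_⟩
  intro w hw
  set v := V.starProjection w with hv
  set u := Vᗮ.starProjection w with hu
  have hsum : w = v + u := (Submodule.starProjection_add_starProjection_orthogonal (K := V) w).symm
  have hvV : v ∈ V := Submodule.starProjection_apply_mem V w
  have h1 : κ * ‖v‖ ^ 2 ≤ ⟪L v, v⟫ := hV v hvV
  have h2 : ⟪L w, w⟫ = ⟪L v, v⟫ + 2 * ⟪L v, u⟫ + ⟪L u, u⟫ := by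
    rw [hsum, map_add, inner_add_left, inner_add_right, inner_add_right, hsymm u v,
      real_inner_comm (L v) u]
    ring
  have h3 : -(Λ * ‖v‖ * ‖u‖) ≤ ⟪L v, u⟫ := by
    have ha := abs_real_inner_le_norm (L v) u
    have hb := neg_abs_le ⟪L v, u⟫
    have hc : ‖L v‖ * ‖u‖ ≤ Λ * ‖v‖ * ‖u‖ :=
      mul_le_mul_of_nonneg_right (L.le_opNorm v) (norm_nonneg _)
    linarith
  have h4 : -(Λ * ‖u‖ * ‖u‖) ≤ ⟪L u, u⟫ := by
    have ha := abs_real_inner_le_norm (L u) u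
    have hb := neg_abs_le ⟪L u, u⟫
    have hc : ‖L u‖ * ‖u‖ ≤ Λ * ‖u‖ * ‖u‖ :=
      mul_le_mul_of_nonneg_right (L.le_opNorm u) (norm_nonneg _)
    linarith
  have h5 : κ * ‖v‖ ^ 2 ≤ 2 * (Λ * ‖v‖ * ‖u‖) + Λ * ‖u‖ * ‖u‖ := by
    rw [h2] at hw
    linarith
  have hu0 : 0 ≤ ‖u‖ := norm_nonneg _
  have hv0 : 0 ≤ ‖v‖ := norm_nonneg _
  have h6 : ‖v‖ ≤ (1 + 3 * Λ / κ) * ‖u‖ := by
    rcases le_total ‖v‖ ‖u‖ with h | h
    · have : 0 ≤ 3 * Λ / κ * ‖u‖ := by positivity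
      linarith
    · have h7 : κ * ‖v‖ ^ 2 ≤ 3 * Λ * ‖u‖ * ‖v‖ := by
        nlinarith [mul_nonneg hΛ0 (mul_nonneg hu0 (sub_nonneg.mpr h))]
      rcases hv0.eq_or_lt with h8 | h8
      · rw [← h8]; positivity
      · have h9 : κ * ‖v‖ ≤ 3 * Λ * ‖u‖ := by
          have : κ * ‖v‖ * ‖v‖ ≤ 3 * Λ * ‖u‖ * ‖v‖ := by nlinarith
          exact le_of_mul_le_mul_right this h8
        have h10 : ‖v‖ ≤ 3 * Λ / κ * ‖u‖ := by
          rw [div_mul_eq_mul_div, le_div_iff₀ hκ]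
          linarith
        linarith
  calc ‖w‖ = ‖v + u‖ := by rw [← hsum]
    _ ≤ ‖v‖ + ‖u‖ := norm_add_le _ _
    _ ≤ (2 + 3 * Λ / κ) * ‖u‖ := by linarith

end Pool.Agent.Lib.MP_df705a_gt
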