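import Pool.Agent.Lib.MP_df705a_gt.Flow
import Pool.Agent.Lib.MP_df705a_gt.HitMap
import Pool.Agent.Lib.MP_df705a_gt.StableSet
import Pool.Agent.Lib.MP_df705a_gt.Settle

open Set Metric Filter Topology Module
open scoped NNReal RealInnerProductSpace

namespace Pool.Agent.Lib.MP_df705a_gt

/-- A field leaving a compact region transversally, with a Lyapunov function in the interior and
nondegenerate rest points with three expanding directions. -/
structure Trap {E : Type} [NormedAddCommGroup E] [InnerProductSpace ℝ E]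
    (φ : E → ℝ) (X : E → E) (F : E → ℝ) : Prop where
  hφ : ContDiff ℝ 1 φ
  hK : IsCompact {x | 0 ≤ φ x}
  hX : ContDiff ℝ 1 X
  hb : ∀ x, φ x = 0 → fderiv ℝ φ x (X x) < 0
  hF : ∀ x, 0 < φ x → DifferentiableAt ℝ F x ∧ 0 ≤ fderiv ℝ F x (X x) ∧
    (fderiv ℝ F x (X x) = 0 → X x = 0)
  hz : ∀ z, 0 < φ z → X z = 0 → ∃ V : Submodule ℝ E, finrank ℝ V = 3 ∧
    (∃ κ > 0, ∀ v ∈ V, κ * ‖v‖ ^ 2 ≤ ⟪fderiv ℝ X z v, v⟫) ∧
    (∀ v w, ⟪fderiv ℝ X z v, w⟫ = ⟪v, fderiv ℝ X z w⟫) ∧ Function.Injective (fderiv ℝ X z)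

/-- The exit map is defined off a set of dimension at most `N - 3`. -/
theorem Trap.main {E : Type} [NormedAddCommGroup E] [InnerProductSpace ℝ E]
    [FiniteDimensional ℝ E] {φ : E → ℝ} {X : E → E} {F : E → ℝ} (h : Trap φ X F) {k : ℕ}
    (hk : k + 3 = finrank ℝ E) :
    ∃ (S : Set E) (e : E → E) (δ₀ : ℝ), 0 < δ₀ ∧ S ⊆ {x | δ₀ ≤ φ x} ∧
      ContinuousOn e ({x | 0 ≤ φ x} \ S) ∧
      (∀ x ∈ {x | 0 ≤ φ x} \ S, φ (e x) = 0) ∧ (∀ x, φ x = 0 → e x = x) ∧
      ∃ (ι : Type) (_ : Countable ι) (A : ι → Set E), S ⊆ ⋃ i, A i ∧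
        ∀ i, ∃ (σ : (Fin k → ℝ) → E) (B : Set (Fin k → ℝ)) (C : ℝ≥0),
          LipschitzOnWith C σ B ∧ A i ⊆ σ '' B := by
  obtain ⟨hφ, hK, hX, hb, hF, hz⟩ := h
  have hφc : Continuous φ := hφ.continuous
  -- cut off
  obtain ⟨R₀, hR₀⟩ := hK.isBounded.subset_closedBall (0 : E)
  set R : ℝ := max R₀ 1 with hR
  have hRpos : 0 < R := lt_of_lt_of_le one_pos (le_max_right _ _)
  have hKR : {x | 0 ≤ φ x} ⊆ closedBall (0 : E) R :=
    hR₀.trans (closedBall_subset_closedBall (le_max_left _ _))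
  let χ : ContDiffBump (0 : E) := ⟨R, R + 1, hRpos, by linarith⟩
  set Y : E → E := fun x => χ x • X x with hY
  have hYX : ∀ x, 0 ≤ φ x → Y x = X x := by
    intro x hx
    have : χ x = 1 := χ.one_of_mem_closedBall (hKR hx)
    simp only [hY, this, one_smul]
  have hYcd : ContDiff ℝ 1 Y := χ.contDiff.smul hX
  have hYsupp : HasCompactSupport Y := χ.hasCompactSupport.smul_right
  obtain ⟨L, hL⟩ := ContDiff.lipschitzWith_of_hasCompactSupport hYsupp hYcd one_ne_zero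
  obtain ⟨B₀, hB₀⟩ := hYsupp.exists_bound_of_continuous hYcd.continuous
  have hB : ∀ x, ‖Y x‖ ≤ ((max B₀ 0).toNNReal : ℝ≥0) := by
    intro x
    rw [Real.coe_toNNReal _ (le_max_right _ _)]
    exact (hB₀ x).trans (le_max_left _ _)
  obtain ⟨Φ, h0, hd, hsemi, hdist, hcont⟩ := exists_flow Y L _ hL hB
  -- the derivative of `φ` along the flow
  have hφd : ∀ x t, HasDerivAt (fun s => φ (Φ s x)) (fderiv ℝ φ (Φ t x) (Y (Φ t x))) t := by
    intro x t
    have h1 : HasFDerivAt φ (fderiv ℝ φ (Φ t x)) (Φ t x) :=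
      ((hφ.differentiable one_ne_zero) _).hasFDerivAt
    exact h1.comp_hasDerivAt t (hd x t)
  have htrans : ∀ y, φ y = 0 → ∃ ε > 0, ∀ t ∈ Ioo (0 : ℝ) ε, φ (Φ t y) < 0 := by
    intro y hy
    have h1 := hφd y 0
    rw [h0, hYX y hy.ge] at h1
    have h2 : deriv (fun s => φ (Φ s y)) 0 < 0 := by
      rw [h1.deriv]
      exact hb y hy
    have h3 := eventually_nhdsWithin_sign_eq_of_deriv_neg h2 (by simp only [h0, hy])
    obtain ⟨ε, hε, hε'⟩ := Metric.eventually_nhds_iff.mp h3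
    refine ⟨ε, hε, ?_⟩
    intro t ht
    have h4 := hε' (y := t) (by rw [Real.dist_eq, sub_zero, abs_of_pos ht.1]; exact ht.2)
    rw [zero_sub, sign_neg (by linarith [ht.1] : -t < 0), sign_eq_neg_one_iff] at h4
    exact h4
  obtain ⟨e, hecont, hemem, heid⟩ := exists_hit φ hφc Φ h0 hsemi hcont htrans
  set S : Set E := {x | ∀ t, 0 ≤ t → 0 < φ (Φ t x)} with hS
  -- points of `S` stay away from the boundary
  have hgc : Continuous (fun x => fderiv ℝ φ x (Y x)) :=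
    (hφ.continuous_fderiv one_ne_zero).clm_apply hYcd.continuous
  obtain ⟨δ₀, hδ₀, c, hc, hδc⟩ := near_bdry φ (fun x => fderiv ℝ φ x (Y x)) hφc hgc hK
    (fun x hx => by simp only [hYX x hx.ge]; exact hb x hx)
  have hSδ : ∀ x ∈ S, ∀ t, 0 ≤ t → δ₀ ≤ φ (Φ t x) := by
    intro x hx
    exact stay_away _ _ (hφd x) hx δ₀ c hc (fun t ht hsm => hδc _ (hx t ht).le hsm)
  have hSsub : S ⊆ {x | δ₀ ≤ φ x} := by
    intro x hx
    have := hSδ x hx 0 le_rfl
    rwa [h0] at this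
  -- rest points
  have hKδ : IsCompact {x | δ₀ ≤ φ x} := by
    apply hK.of_isClosed_subset (isClosed_le continuous_const hφc)
    intro x hx
    simp only [mem_ofPred_eq] at hx ⊢
    linarith
  have hanti : ∀ z, Function.Injective (fderiv ℝ X z) → ∃ C, AntilipschitzWith C (fderiv ℝ X z) := by
    intro z hinj
    obtain ⟨K, _, hK⟩ := LinearMap.exists_antilipschitzWith (fderiv ℝ X z : E →ₗ[ℝ] E)
      (LinearMap.ker_eq_bot.mpr hinj)
    exact ⟨K, hK⟩
  have hZfin : {z | δ₀ ≤ φ z ∧ X z = 0}.Finite := by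
    by_contra hinf
    have hsub : {z | δ₀ ≤ φ z ∧ X z = 0} ⊆ {z | δ₀ ≤ φ z} := fun z hz => hz.1
    obtain ⟨z, hz1, hz2⟩ := Set.Infinite.exists_accPt_of_subset_isCompact hinf hKδ hsub
    have hclosed : IsClosed {z | δ₀ ≤ φ z ∧ X z = 0} :=
      (isClosed_le continuous_const hφc).inter (isClosed_eq hX.continuous continuous_const)
    have hzmem : z ∈ {z | δ₀ ≤ φ z ∧ X z = 0} := by
      have := hz2.clusterPt
      exact isClosed_iff_clusterPt.mp hclosed z this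
    have hzpos : 0 < φ z := lt_of_lt_of_le hδ₀ hzmem.1
    obtain ⟨V, _, _, _, hinj⟩ := hz z hzpos hzmem.2
    have hne := ((hX.differentiable one_ne_zero) z).hasFDerivAt.eventually_ne (c := 0)
      (hanti z hinj)
    rw [accPt_iff_frequently_nhdsNE] at hz2
    exact (hz2.and_eventually hne).exists.elim fun y hy => hy.2 hy.1.2
  set Z : Set E := {z | δ₀ ≤ φ z ∧ X z = 0} with hZ
  -- local data at the rest points
  have hlocal : ∀ z : Z, ∃ r > 0, ∃ C : ℝ, 0 < C ∧ ∃ g : E →L[ℝ] (Fin k → ℝ),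
      ∀ y₁ y₂ : E, (∀ t, 0 ≤ t → Φ t y₁ ∈ closedBall z.1 r) →
      (∀ t, 0 ≤ t → Φ t y₂ ∈ closedBall z.1 r) → ‖y₁ - y₂‖ ≤ C * ‖g (y₁ - y₂)‖ := by
    rintro ⟨z, hz1, hz2⟩
    have hzpos : 0 < φ z := lt_of_lt_of_le hδ₀ hz1
    obtain ⟨V, hV3, ⟨κ, hκ, hVκ⟩, hsymm, hinj⟩ := hz z hzpos hz2
    have hYXev : X =ᶠ[𝓝 z] Y := by
      have : ∀ᶠ y in 𝓝 z, 0 < φ y := (isOpen_lt continuous_const hφc).mem_nhds hzpos
      filter_upwards [this] with y hy using (hYX y hy.le).symm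
    have hstrict : HasStrictFDerivAt X (fderiv ℝ X z) z :=
      hX.contDiffAt.hasStrictFDerivAt one_ne_zero
    have hstrictY : HasStrictFDerivAt Y (fderiv ℝ X z) z := hstrict.congr_of_eventuallyEq hYXev
    obtain ⟨r, hr, hcone⟩ := stable_cone Y Φ h0 hd z (fderiv ℝ X z) hstrictY hsymm hinj
    obtain ⟨C, hC, hCb⟩ := cone_bound (fderiv ℝ X z) hsymm V κ hκ hVκ
    have hfin : finrank ℝ (Vᗮ : Submodule ℝ E) = finrank ℝ (Fin k → ℝ) := by
      have := Submodule.finrank_add_finrank_orthogonal V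
      rw [finrank_fin_fun]
      omega
    let T : (Vᗮ : Submodule ℝ E) ≃L[ℝ] (Fin k → ℝ) := ContinuousLinearEquiv.ofFinrankEq hfin
    refine ⟨r, hr, C * (‖(T.symm : (Fin k → ℝ) →L[ℝ] (Vᗮ : Submodule ℝ E))‖ + 1), by positivity,
      (T : (Vᗮ : Submodule ℝ E) →L[ℝ] (Fin k → ℝ)).comp
        (Submodule.orthogonalProjectionOnto Vᗮ), ?_⟩
    intro y₁ y₂ hy₁ hy₂
    have h1 := hCb _ (hcone y₁ y₂ hy₁ hy₂)
    set w := y₁ - y₂ with hw
    set p : (Vᗮ : Submodule ℝ E) := Submodule.orthogonalProjectionOnto Vᗮ w with hp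
    have h2 : ‖(Vᗮ : Submodule ℝ E).starProjection w‖ = ‖p‖ := rfl
    have h3 : ‖p‖ ≤ ‖(T.symm : (Fin k → ℝ) →L[ℝ] (Vᗮ : Submodule ℝ E))‖ * ‖T p‖ := by
      have := (T.symm : (Fin k → ℝ) →L[ℝ] (Vᗮ : Submodule ℝ E)).le_opNorm (T p)
      simpa using this
    have h4 : ‖p‖ ≤ (‖(T.symm : (Fin k → ℝ) →L[ℝ] (Vᗮ : Submodule ℝ E))‖ + 1) * ‖T p‖ := by
      have : 0 ≤ ‖T p‖ := norm_nonneg _
      linarith
    calc ‖w‖ ≤ C * ‖p‖ := by rw [← h2]; exact h1
      _ ≤ C * ((‖(T.symm : (Fin k → ℝ) →L[ℝ] (Vᗮ : Submodule ℝ E))‖ + 1) * ‖T p‖) :=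
        mul_le_mul_of_nonneg_left h4 hC.le
      _ = _ := by rw [← mul_assoc]; rfl
  choose r hr C hC g hg using hlocal
  have hZcount : Countable Z := hZfin.countable.to_subtype
  refine ⟨S, e, δ₀, hδ₀, hSsub, hecont, hemem, heid, Z × ℕ, inferInstance,
    fun q => {x | ∀ t, 0 ≤ t → Φ t (Φ (q.2 : ℝ) x) ∈ closedBall q.1.1 (r q.1)}, ?_, ?_⟩
  · -- every trapped orbit settles
    intro x hx
    have hFd : ∀ y, 0 < φ y → HasFDerivAt F (fderiv ℝ F y) y := fun y hy =>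
      (hF y hy).1.hasFDerivAt
    have hFΦ : ∀ y t, 0 < φ (Φ t y) →
        HasDerivAt (fun s => F (Φ s y)) (fderiv ℝ F (Φ t y) (X (Φ t y))) t := by
      intro y t hpos
      have h1 := (hFd _ hpos).comp_hasDerivAt t (hd y t)
      rw [hYX _ hpos.le] at h1
      exact h1
    have hposx : ∀ t, 0 ≤ t → 0 < φ (Φ t x) := fun t ht => hx t ht
    have hmono : ∀ s t, 0 ≤ s → s ≤ t → F (Φ s x) ≤ F (Φ t x) := by
      have : MonotoneOn (fun s => F (Φ s x)) (Ici 0) := by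
        apply monotoneOn_of_deriv_nonneg (convex_Ici 0)
        · intro s hs
          exact (hFΦ x s (hposx s hs)).continuousAt.continuousWithinAt
        · intro s hs
          rw [interior_Ici] at hs
          exact (hFΦ x s (hposx s (le_of_lt hs))).differentiableAt.differentiableWithinAt
        · intro s hs
          rw [interior_Ici] at hs
          rw [(hFΦ x s (hposx s (le_of_lt hs))).deriv]
          exact (hF _ (hposx s (le_of_lt hs))).2.1
      intro s t hs hst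
      exact this hs (hs.trans hst) hst
    have hcrit : ∀ y, (∀ s, 0 ≤ s → Φ s y ∈ {x | δ₀ ≤ φ x}) →
        (∀ s, 0 ≤ s → F (Φ s y) = F (Φ 0 y)) → y ∈ Z := by
      intro y hy hconst
      have hy0 : δ₀ ≤ φ y := by
        have := hy 0 le_rfl
        rwa [h0] at this
      refine ⟨hy0, ?_⟩
      have hypos : 0 < φ y := lt_of_lt_of_le hδ₀ hy0
      have h1 := hFΦ y 0 (by rw [h0]; exact hypos)
      rw [h0] at h1
      have h2 : HasDerivWithinAt (fun s => F (Φ s y)) 0 (Ici 0) 0 := by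
        have hc : HasDerivWithinAt (fun _ : ℝ => F (Φ 0 y)) 0 (Ici 0) 0 :=
          hasDerivWithinAt_const _ _ _
        apply hc.congr
        · intro s hs
          exact hconst s hs
        · rfl
      have h3 : fderiv ℝ F y (X y) = 0 :=
        (uniqueDiffWithinAt_Ici (0 : ℝ)).eq_deriv _ h1.hasDerivWithinAt h2
      exact (hF y hypos).2.2 h3
    have hFcont : ContinuousOn F {x | δ₀ ≤ φ x} := by
      intro y hy
      have : 0 < φ y := lt_of_lt_of_le hδ₀ hy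
      exact (hF y this).1.continuousAt.continuousWithinAt
    classical
    obtain ⟨z, hzZ, T, hT, hTz⟩ := settle Φ hsemi hcont {x | δ₀ ≤ φ x} hKδ F hFcont x
      (hSδ x hx) hmono Z hZfin hcrit (fun z => if hz : z ∈ Z then ball z (r ⟨z, hz⟩) else univ)
      (by
        intro z hz
        simp only [hz, dite_true]
        exact ⟨isOpen_ball, mem_ball_self (hr _)⟩)
    simp only [hzZ, dite_true] at hTz
    refine mem_iUnion.mpr ⟨(⟨z, hzZ⟩, ⌈T⌉₊), ?_⟩
    intro t ht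
    rw [← hsemi]
    apply ball_subset_closedBall
    apply hTz
    have := Nat.le_ceil T
    simp only
    linarith
  · rintro ⟨z, j⟩
    have key : ∀ x ∈ {x | ∀ t, 0 ≤ t → Φ t (Φ (j : ℝ) x) ∈ closedBall z.1 (r z)},
        ∀ y ∈ {x | ∀ t, 0 ≤ t → Φ t (Φ (j : ℝ) x) ∈ closedBall z.1 (r z)},
        dist x y ≤ ((Real.exp (L * |(j : ℝ)|) * C z).toNNReal : ℝ≥0) *
          dist (g z (Φ (j : ℝ) x)) (g z (Φ (j : ℝ) y)) := by
      intro x hx y hy
      rw [Real.coe_toNNReal _ (by have := hC z; positivity)]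
      have h1 : dist x y ≤ Real.exp (L * |(j : ℝ)|) * dist (Φ (j : ℝ) x) (Φ (j : ℝ) y) := by
        have h2 := hdist (-(j : ℝ)) (Φ (j : ℝ) x) (Φ (j : ℝ) y)
        rw [← hsemi, ← hsemi, neg_add_cancel, h0, h0, abs_neg] at h2
        exact h2
      have h3 := hg z (Φ (j : ℝ) x) (Φ (j : ℝ) y) hx hy
      rw [map_sub, ← dist_eq_norm, ← dist_eq_norm] at h3
      calc dist x y ≤ Real.exp (L * |(j : ℝ)|) * dist (Φ (j : ℝ) x) (Φ (j : ℝ) y) := h1
        _ ≤ Real.exp (L * |(j : ℝ)|) * (C z * dist (g z (Φ (j : ℝ) x)) (g z (Φ (j : ℝ) y))) :=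
          mul_le_mul_of_nonneg_left h3 (Real.exp_pos _).le
        _ = _ := by ring
    obtain ⟨σ, B, h1, h2⟩ := param_of_antilip _ (fun x => g z (Φ (j : ℝ) x)) _ key
    exact ⟨σ, B, _, h1, h2⟩

end Pool.Agent.Lib.MP_df705a_gt
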