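import Pool.Agent.Lib.MP_df705a_gt.Mg.G010
import Pool.Agent.Lib.MP_df705a_gt.Translate
import Pool.Agent.Lib.MP_df705a_gt.Trap

open Set Metric Filter Topology Module
open scoped NNReal RealInnerProductSpace

namespace Pool.Agent.Lib.MP_df705a_gt

theorem exists_neg_of_deriv_neg {E : Type} [NormedAddCommGroup E] [NormedSpace ℝ E] {φ : E → ℝ}
    {x v : E} (hφ : DifferentiableAt ℝ φ x) (h0 : φ x = 0) (hv : fderiv ℝ φ x v < 0) :
    (∀ᶠ t in 𝓝[>] (0 : ℝ), φ (x + t • v) < 0) ∧ (∀ᶠ t in 𝓝[>] (0 : ℝ), 0 < φ (x - t • v)) := by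
  have h1 : HasDerivAt (fun t : ℝ => x + t • v) v 0 := by
    simpa using ((hasDerivAt_id (0 : ℝ)).smul_const v).const_add x
  have h2 : HasFDerivAt φ (fderiv ℝ φ x) (x + (0 : ℝ) • v) := by
    simpa using hφ.hasFDerivAt
  have h3 : HasDerivAt (fun t : ℝ => φ (x + t • v)) (fderiv ℝ φ x v) 0 :=
    h2.comp_hasDerivAt (0 : ℝ) h1
  have h4 : deriv (fun t : ℝ => φ (x + t • v)) 0 < 0 := by rw [h3.deriv]; exact hv
  have h5 := eventually_nhdsWithin_sign_eq_of_deriv_neg h4 (by simp [h0])
  constructor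
  · have h6 := h5.filter_mono (nhdsWithin_le_nhds (s := Ioi (0 : ℝ)))
    filter_upwards [h6, self_mem_nhdsWithin] with t ht ht0
    have ht0' : (0 : ℝ) < t := ht0
    rw [zero_sub, sign_neg (by linarith : -t < 0), sign_eq_neg_one_iff] at ht
    exact ht
  · have h7 : Tendsto (fun t : ℝ => -t) (𝓝[>] (0 : ℝ)) (𝓝 (0 : ℝ)) := by
      have : Tendsto (fun t : ℝ => -t) (𝓝 (0 : ℝ)) (𝓝 (-0 : ℝ)) := tendsto_neg (0 : ℝ)
      rw [neg_zero] at this
      exact this.mono_left nhdsWithin_le_nhds
    have h8 := h7.eventually h5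
    filter_upwards [h8, self_mem_nhdsWithin] with t ht ht0
    have ht0' : (0 : ℝ) < t := ht0
    rw [zero_sub, neg_neg, sign_pos ht0', sign_eq_one_iff] at ht
    simpa [sub_eq_add_neg] using ht

/-- The zero level of `φ` is not aspherical if there is a field with at least three expanding
directions at every rest point and which leaves the region `{φ ≥ 0}` transversally. -/
theorem Trap.core {N k : ℕ} (hN : k + 3 = N) {φ : EuclideanSpace ℝ (Fin N) → ℝ}
    {X : EuclideanSpace ℝ (Fin N) → EuclideanSpace ℝ (Fin N)} {F : EuclideanSpace ℝ (Fin N) → ℝ}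
    (h : Trap φ X F) {Y : Type*} [TopologicalSpace Y] [ContractibleSpace Y]
    (p : Y → {x // φ x = 0}) (hp : IsCoveringMap p) (hs : Function.Surjective p) : False := by
  classical
  have hNe : Nontrivial (EuclideanSpace ℝ (Fin N)) := by
    have : Nonempty (Fin N) := ⟨⟨0, by omega⟩⟩
    infer_instance
  obtain ⟨S, e, δ₀, hδ₀, hSδ, hecont, hemem, heid, ι, hι, A, hSA, hAσ⟩ := h.main
    (k := k) (by rw [finrank_euclideanSpace_fin]; exact hN)
  have hφc : Continuous φ := h.hφ.continuous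
  have hφd : Differentiable ℝ φ := h.hφ.differentiable one_ne_zero
  obtain ⟨y₀⟩ : Nonempty Y := inferInstance
  set x₀ : {x // φ x = 0} := p y₀ with hx₀
  set K : Set (EuclideanSpace ℝ (Fin N)) := {x | 0 ≤ φ x} with hK
  -- topology of `K`
  have hfront : ∀ x, x ∈ frontier K ↔ φ x = 0 := by
    intro x
    have hKc : IsClosed K := isClosed_le continuous_const hφc
    rw [hKc.frontier_eq]
    constructor
    · rintro ⟨hx1, hx2⟩
      by_contra hne
      have hpos : 0 < φ x := lt_of_le_of_ne hx1 (Ne.symm hne)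
      apply hx2
      rw [mem_interior]
      exact ⟨{y | 0 < φ y}, fun y (hy : 0 < φ y) => show 0 ≤ φ y from hy.le,
        isOpen_lt continuous_const hφc, hpos⟩
    · intro hx
      refine ⟨hx.ge, ?_⟩
      intro hint
      have h1 := (exists_neg_of_deriv_neg (hφd x) hx (h.hb x hx)).1
      have h2 : ∀ᶠ y in 𝓝 x, y ∈ K := mem_interior_iff_mem_nhds.mp hint
      have h3 : Tendsto (fun t : ℝ => x + t • X x) (𝓝[>] 0) (𝓝 x) := by
        have hc : Continuous (fun t : ℝ => x + t • X x) := by fun_prop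
        have := hc.tendsto 0
        simp only [zero_smul, add_zero] at this
        exact this.mono_left nhdsWithin_le_nhds
      obtain ⟨t, ht1, ht2⟩ := (h1.and (h3.eventually h2)).exists
      exact absurd ht2 (not_le.mpr ht1)
  have hint : (interior K).Nonempty := by
    have h1 := (exists_neg_of_deriv_neg (hφd x₀.1) x₀.2 (h.hb x₀.1 x₀.2)).2
    obtain ⟨t, ht⟩ := h1.exists
    refine ⟨_, mem_interior.mpr ⟨{y | 0 < φ y}, fun y (hy : 0 < φ y) => show 0 ≤ φ y from hy.le,
      isOpen_lt continuous_const hφc, ht⟩⟩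
  -- coordinates
  let ψ : (Fin N → ℝ) ≃L[ℝ] EuclideanSpace ℝ (Fin N) := (EuclideanSpace.equiv (Fin N) ℝ).symm
  have hψc : Continuous ψ := ψ.continuous
  set K' : Set (Fin N → ℝ) := ψ ⁻¹' K with hK'
  set S' : Set (Fin N → ℝ) := ψ ⁻¹' S with hS'
  have hK'comp : IsCompact K' := by
    have : K' = ψ.symm '' K := by
      rw [ContinuousLinearEquiv.image_symm_eq_preimage]
    rw [this]
    exact h.hK.image ψ.symm.continuous
  have hKδ : IsCompact {x | δ₀ ≤ φ x} := by
    apply h.hK.of_isClosed_subset (isClosed_le continuous_const hφc)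
    intro x hx
    simp only [mem_ofPred_eq] at hx ⊢
    linarith
  have hKδ' : IsCompact (ψ ⁻¹' {x | δ₀ ≤ φ x}) := by
    have : ψ ⁻¹' {x | δ₀ ≤ φ x} = ψ.symm '' {x | δ₀ ≤ φ x} := by
      rw [ContinuousLinearEquiv.image_symm_eq_preimage]
    rw [this]
    exact hKδ.image ψ.symm.continuous
  obtain ⟨r, hr, hthick⟩ := hKδ'.exists_thickening_subset_open
    (t := {y | 0 < φ (ψ y)}) (isOpen_lt continuous_const (hφc.comp hψc)) (by
      intro y hy
      have : δ₀ ≤ φ (ψ y) := hy
      simp only [mem_ofPred_eq]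
      linarith)
  set δ : ℝ := r / 2 with hδ
  have hδpos : 0 < δ := by positivity
  obtain ⟨v, hv⟩ := exists_translation (k := k) (N := N) (by omega) hδpos S'
    (fun i => ψ ⁻¹' (A i)) (by
      intro y hy
      obtain ⟨i, hi⟩ := mem_iUnion.mp (hSA hy)
      exact mem_iUnion.mpr ⟨i, hi⟩) (by
      intro i
      obtain ⟨σ, B, C, hσ, hAB⟩ := hAσ i
      refine ⟨ψ.symm ∘ σ, B, _, (ψ.symm.lipschitz.comp_lipschitzOnWith hσ), ?_⟩
      intro y hy
      obtain ⟨b, hb, hby⟩ := hAB hy
      refine ⟨b, hb, ?_⟩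
      simp only [Function.comp_apply, hby]
      exact ψ.symm_apply_apply y)
  have hpos_of_bad : ∀ x y, Grid.bad v δ S' x → y ∈ Grid.F v δ (Grid.idx v δ x) →
      0 < φ (ψ y) := by
    rintro x y ⟨s, hsF, hsS⟩ hyF
    apply hthick
    rw [mem_thickening_iff]
    refine ⟨s, hSδ hsS, ?_⟩
    apply lt_of_le_of_lt _ (by rw [hδ]; linarith : δ < r)
    rw [dist_pi_le_iff hδpos.le]
    intro i
    rw [Real.dist_eq]
    have hy := hyF i
    have hsi := hsF i
    unfold Grid.u at hy hsi
    by_cases hi : i ∈ (Grid.idx v δ x).2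
    · obtain ⟨hy1, hy2⟩ := hy.1 hi
      obtain ⟨hs1, hs2⟩ := hsi.1 hi
      rw [le_div_iff₀ hδpos] at hy1 hs1
      rw [div_le_iff₀ hδpos] at hy2 hs2
      rw [abs_le]
      constructor <;> nlinarith
    · have hy1 := hy.2 hi
      have hs1 := hsi.2 hi
      rw [div_eq_iff hδpos.ne'] at hy1 hs1
      rw [show y i - s i = 0 by linarith, abs_zero]
      exact hδpos.le
  -- the exit map with values in the boundary
  let e' : (Fin N → ℝ) → {x // φ x = 0} := fun y =>
    if hy : φ (e (ψ y)) = 0 then ⟨e (ψ y), hy⟩ else x₀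
  have he' : ContinuousOn e' (K' \ S') := by
    have hind : Topology.IsInducing (Subtype.val : {x // φ x = 0} → EuclideanSpace ℝ (Fin N)) :=
      ⟨rfl⟩
    rw [hind.continuousOn_iff]
    have h1 : ContinuousOn (fun y => e (ψ y)) (K' \ S') :=
      hecont.comp hψc.continuousOn (fun y hy => ⟨hy.1, hy.2⟩)
    apply h1.congr
    intro y hy
    have h2 : φ (e (ψ y)) = 0 := hemem _ ⟨hy.1, hy.2⟩
    simp only [Function.comp_apply, e', h2, dite_true]
  obtain ⟨R, hRcont, hReq⟩ := Grid.exists_extension (X := {x // φ x = 0}) (v := v) (δ := δ) hp hs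
    hδpos K' S' hK'comp hv
    (fun x hbad y hy => (hpos_of_bad x y hbad hy).le) e' he'
  apply no_retraction_compact K h.hK hint (fun x => (R (ψ.symm x)).1)
  · apply continuous_subtype_val.comp_continuousOn
    apply hRcont.comp ψ.symm.continuous.continuousOn
    intro x hx
    simp only [K', mem_preimage, ContinuousLinearEquiv.apply_symm_apply]
    exact hx
  · intro x _
    rw [hfront]
    exact (R (ψ.symm x)).2
  · intro x hx
    rw [hfront] at hx
    have hnb : ¬ Grid.bad v δ S' (ψ.symm x) := by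
      intro hbad
      have := hpos_of_bad _ _ hbad (Grid.mem_own_face _)
      rw [ContinuousLinearEquiv.apply_symm_apply] at this
      linarith
    have hxK : ψ.symm x ∈ K' := by
      simp only [K', mem_preimage, ContinuousLinearEquiv.apply_symm_apply]
      exact hx.ge
    have h1 := hReq _ hxK hnb
    simp only [h1, e', ContinuousLinearEquiv.apply_symm_apply, heid x hx, hx, dite_true]

end Pool.Agent.Lib.MP_df705a_gt
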