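import Mathlib

/-!
# Extending maps from spheres to balls when the target has a contractible covering space
-/

set_option autoImplicit false
set_option linter.unusedSectionVars false

open Metric Set Topology

noncomputable section

namespace Pool.Agent.Lib.MP_df705a_gt

variable {W : Type*} [NormedAddCommGroup W] [NormedSpace ℝ W]

/-- The part of the boundary of the unit ball of `W × ℝ` away from the bottom. -/
def topPart (W : Type*) [NormedAddCommGroup W] : Set (W × ℝ) :=
  {x | ‖x.1‖ ≤ 1 ∧ -1 ≤ x.2 ∧ x.2 ≤ 1 ∧ (x.2 = 1 ∨ ‖x.1‖ = 1)}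

/-- The bottom part of the boundary of the unit ball of `W × ℝ`. -/
def bottomPart (W : Type*) [NormedAddCommGroup W] : Set (W × ℝ) :=
  {x | ‖x.1‖ ≤ 1 ∧ x.2 = -1}

/-- radial retraction of a normed space onto its closed unit ball -/
def clampN (w : W) : W := (max 1 ‖w‖)⁻¹ • w

theorem continuous_clampN : Continuous (clampN : W → W) := by
  unfold clampN
  apply Continuous.smul _ continuous_id
  apply Continuous.inv₀ (continuous_const.max continuous_norm)
  intro w
  positivity

theorem norm_clampN_le (w : W) : ‖clampN w‖ ≤ 1 := by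
  unfold clampN
  rw [norm_smul, norm_inv, Real.norm_of_nonneg (by positivity)]
  rw [inv_mul_le_iff₀ (by positivity), mul_one]
  exact le_max_right _ _

theorem clampN_eq (w : W) (hw : ‖w‖ ≤ 1) : clampN w = w := by
  unfold clampN
  rw [max_eq_left hw, inv_one, one_smul]

/-- clamp of a real to `[-1,1]` -/
def clampR (t : ℝ) : ℝ := max (-1) (min 1 t)

theorem continuous_clampR : Continuous clampR :=
  continuous_const.max (continuous_const.min continuous_id)

theorem clampR_mem (t : ℝ) : -1 ≤ clampR t ∧ clampR t ≤ 1 := by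
  unfold clampR
  constructor
  · exact le_max_left _ _
  · exact max_le (by norm_num) (min_le_left _ _)

theorem clampR_eq (t : ℝ) (h1 : -1 ≤ t) (h2 : t ≤ 1) : clampR t = t := by
  unfold clampR
  rw [min_eq_right h2, max_eq_right h1]

/-- retraction onto the bottom -/
def retBottom (x : W × ℝ) : W × ℝ := (clampN x.1, -1)

theorem continuous_retBottom : Continuous (retBottom : W × ℝ → W × ℝ) :=
  (continuous_clampN.comp continuous_fst).prodMk continuous_const

theorem retBottom_mem (x : W × ℝ) : retBottom x ∈ bottomPart W :=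
  ⟨norm_clampN_le _, rfl⟩

theorem retBottom_eq (x : W × ℝ) (hx : x ∈ bottomPart W) : retBottom x = x := by
  unfold retBottom
  rw [clampN_eq _ hx.1, ← hx.2]

/-- scaling factor -/
def mTop (x : W × ℝ) : ℝ := max ‖clampN x.1‖ ((clampR x.2 + 2) / 3)

theorem mTop_pos (x : W × ℝ) : 0 < mTop x := by
  unfold mTop
  apply lt_max_of_lt_right
  have := (clampR_mem x.2).1
  linarith

theorem mTop_le (x : W × ℝ) : mTop x ≤ 1 := by
  unfold mTop
  apply max_le (norm_clampN_le _)
  have := (clampR_mem x.2).2
  linarith

/-- retraction onto the rest of the boundary -/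
def retTop (x : W × ℝ) : W × ℝ :=
  ((mTop x)⁻¹ • clampN x.1, -2 + (mTop x)⁻¹ * (clampR x.2 + 2))

theorem continuous_mTop : Continuous (mTop : W × ℝ → ℝ) := by
  unfold mTop
  exact (continuous_clampN.comp continuous_fst).norm.max
    (((continuous_clampR.comp continuous_snd).add continuous_const).div_const 3)

theorem continuous_retTop : Continuous (retTop : W × ℝ → W × ℝ) := by
  unfold retTop
  have h : Continuous fun x : W × ℝ => (mTop x)⁻¹ :=
    continuous_mTop.inv₀ (fun x => (mTop_pos x).ne')
  apply Continuous.prodMk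
  · exact h.smul (continuous_clampN.comp continuous_fst)
  · exact continuous_const.add (h.mul ((continuous_clampR.comp continuous_snd).add
      continuous_const))

theorem retTop_mem (x : W × ℝ) : retTop x ∈ topPart W := by
  have hm := mTop_pos x
  have h1 : ‖clampN x.1‖ ≤ mTop x := le_max_left _ _
  have h2 : (clampR x.2 + 2) / 3 ≤ mTop x := le_max_right _ _
  have h3 := clampR_mem x.2
  have hle := mTop_le x
  refine ⟨?_, ?_, ?_, ?_⟩
  · show ‖(mTop x)⁻¹ • clampN x.1‖ ≤ 1
    rw [norm_smul, norm_inv, Real.norm_of_nonneg hm.le, inv_mul_le_iff₀ hm, mul_one]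
    exact h1
  · show -1 ≤ -2 + (mTop x)⁻¹ * (clampR x.2 + 2)
    have : 1 ≤ (mTop x)⁻¹ := (one_le_inv₀ hm).mpr hle
    nlinarith
  · show -2 + (mTop x)⁻¹ * (clampR x.2 + 2) ≤ 1
    have : (mTop x)⁻¹ * (clampR x.2 + 2) ≤ 3 := by
      rw [inv_mul_le_iff₀ hm]; linarith
    linarith
  · rcases max_choice ‖clampN x.1‖ ((clampR x.2 + 2) / 3) with h | h
    · right
      show ‖(mTop x)⁻¹ • clampN x.1‖ = 1
      rw [norm_smul, norm_inv, Real.norm_of_nonneg hm.le]
      have : mTop x = ‖clampN x.1‖ := h
      rw [← this]
      exact inv_mul_cancel₀ hm.ne'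
    · left
      show -2 + (mTop x)⁻¹ * (clampR x.2 + 2) = 1
      have : mTop x = (clampR x.2 + 2) / 3 := h
      have h4 : clampR x.2 + 2 = 3 * mTop x := by rw [this]; ring
      rw [h4]
      field_simp
      norm_num

theorem retTop_eq (x : W × ℝ) (hx : x ∈ topPart W) : retTop x = x := by
  obtain ⟨h1, h2, h3, h4⟩ := hx
  have hc1 : clampN x.1 = x.1 := clampN_eq _ h1
  have hc2 : clampR x.2 = x.2 := clampR_eq _ h2 h3
  have hm : mTop x = 1 := by
    unfold mTop
    rw [hc1, hc2]
    rcases h4 with h | h
    · rw [h, max_eq_right]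
      · norm_num
      · linarith
    · rw [h, max_eq_left]
      linarith
  unfold retTop
  rw [hc1, hc2, hm]
  ext
  · simp
  · simp

theorem topPart_union_bottomPart : topPart W ∪ bottomPart W = sphere (0 : W × ℝ) 1 := by
  ext x
  rw [mem_sphere_zero_iff_norm, Prod.norm_def]
  constructor
  · rintro (⟨h1, h2, h3, h4⟩ | ⟨h1, h2⟩)
    · have h5 : ‖x.2‖ ≤ 1 := by rw [Real.norm_eq_abs]; exact abs_le.mpr ⟨h2, h3⟩
      apply le_antisymm (max_le h1 h5)
      rcases h4 with h | h
      · apply le_max_of_le_right; rw [h]; simp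
      · apply le_max_of_le_left; rw [h]
    · apply le_antisymm (max_le h1 _)
      · apply le_max_of_le_right; rw [h2]; simp
      · rw [h2]; simp
  · intro h
    have h1 : ‖x.1‖ ≤ 1 := h ▸ le_max_left _ _
    have h2 : ‖x.2‖ ≤ 1 := h ▸ le_max_right _ _
    rw [Real.norm_eq_abs, abs_le] at h2
    rcases max_choice ‖x.1‖ ‖x.2‖ with h3 | h3
    · left
      refine ⟨h1, h2.1, h2.2, Or.inr ?_⟩
      rw [← h3]; exact h
    · have h4 : |x.2| = 1 := by
        rw [← Real.norm_eq_abs, ← h3]; exact h
      rcases (abs_eq (by norm_num)).mp h4 with h5 | h5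
      · left; exact ⟨h1, h2.1, h2.2, Or.inl h5⟩
      · right; exact ⟨h1, h5⟩

theorem isClosed_topPart : IsClosed (topPart W) := by
  unfold topPart
  apply IsClosed.inter (isClosed_le continuous_fst.norm continuous_const)
  apply IsClosed.inter (isClosed_le continuous_const continuous_snd)
  apply IsClosed.inter (isClosed_le continuous_snd continuous_const)
  exact (isClosed_eq continuous_snd continuous_const).union
    (isClosed_eq continuous_fst.norm continuous_const)

theorem isClosed_bottomPart : IsClosed (bottomPart W) :=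
  IsClosed.inter (isClosed_le continuous_fst.norm continuous_const)
    (isClosed_eq continuous_snd continuous_const)

theorem isPreconnected_inter (hW : 1 < Module.rank ℝ W) :
    IsPreconnected (topPart W ∩ bottomPart W) := by
  have h : topPart W ∩ bottomPart W = (fun w : W => (w, (-1 : ℝ))) '' sphere (0 : W) 1 := by
    ext x
    constructor
    · rintro ⟨⟨h1, h2, h3, h4⟩, -, h5⟩
      refine ⟨x.1, ?_, ?_⟩
      · rw [mem_sphere_zero_iff_norm]
        rcases h4 with h | h
        · rw [h5] at h; norm_num at h
        · exact h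
      · ext <;> simp [h5]
    · rintro ⟨w, hw, rfl⟩
      rw [mem_sphere_zero_iff_norm] at hw
      exact ⟨⟨hw.le, by simp, by norm_num, Or.inr hw⟩, hw.le, rfl⟩
  rw [h]
  apply (isConnected_sphere hW (0 : W) zero_le_one).isPreconnected.image
  fun_prop

variable {X Y : Type*} [TopologicalSpace X] [TopologicalSpace Y] {p : Y → X}

/-- A map from the boundary sphere lifts through a covering. -/
theorem exists_lift_sphere (hp : IsCoveringMap p) (hs : Function.Surjective p)
    (hW : 1 < Module.rank ℝ W) (g : W × ℝ → X) (hg : ContinuousOn g (sphere 0 1)) :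
    ∃ G : W × ℝ → Y, ContinuousOn G (sphere 0 1) ∧ ∀ x ∈ sphere (0 : W × ℝ) 1, p (G x) = g x := by
  classical
  have hsub1 : topPart W ⊆ sphere (0 : W × ℝ) 1 := by
    rw [← topPart_union_bottomPart]; exact subset_union_left
  have hsub2 : bottomPart W ⊆ sphere (0 : W × ℝ) 1 := by
    rw [← topPart_union_bottomPart]; exact subset_union_right
  have c1 : Continuous fun x : W × ℝ => g (retTop x) :=
    hg.comp_continuous continuous_retTop (fun x => hsub1 (retTop_mem x))
  have c2 : Continuous fun x : W × ℝ => g (retBottom x) :=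
    hg.comp_continuous continuous_retBottom (fun x => hsub2 (retBottom_mem x))
  -- base point
  have hnt : Nontrivial W := by
    exact rank_pos_iff_nontrivial.mp (lt_trans zero_lt_one hW)
  obtain ⟨w0, hw0⟩ := exists_ne (0 : W)
  let w1 : W := ‖w0‖⁻¹ • w0
  have hw1 : ‖w1‖ = 1 := by
    simp only [w1, norm_smul, norm_inv, norm_norm]
    exact inv_mul_cancel₀ (norm_ne_zero_iff.mpr hw0)
  let a0 : W × ℝ := (w1, -1)
  have ha1 : a0 ∈ topPart W := ⟨hw1.le, by simp [a0], by norm_num [a0], Or.inr hw1⟩
  have ha2 : a0 ∈ bottomPart W := ⟨hw1.le, rfl⟩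
  obtain ⟨e0, he0⟩ := hs (g a0)
  obtain ⟨G1, ⟨hG1a, hG1⟩, -⟩ := hp.existsUnique_continuousMap_lifts ⟨_, c1⟩ a0 e0
    (by show p e0 = g (retTop a0); rw [retTop_eq a0 ha1]; exact he0)
  obtain ⟨G2, ⟨hG2a, hG2⟩, -⟩ := hp.existsUnique_continuousMap_lifts ⟨_, c2⟩ a0 e0
    (by show p e0 = g (retBottom a0); rw [retBottom_eq a0 ha2]; exact he0)
  have hG1' : ∀ x ∈ topPart W, p (G1 x) = g x := by
    intro x hx
    have := congrFun hG1 x
    simp only [Function.comp_apply, ContinuousMap.coe_mk] at this
    rw [this, retTop_eq x hx]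
  have hG2' : ∀ x ∈ bottomPart W, p (G2 x) = g x := by
    intro x hx
    have := congrFun hG2 x
    simp only [Function.comp_apply, ContinuousMap.coe_mk] at this
    rw [this, retBottom_eq x hx]
  have heq : EqOn G1 G2 (topPart W ∩ bottomPart W) := by
    apply hp.eqOn_of_comp_eqOn (isPreconnected_inter hW) G1.continuous.continuousOn
      G2.continuous.continuousOn _ (a := a0) ⟨ha1, ha2⟩ (by rw [hG1a, hG2a])
    intro x hx
    simp only [Function.comp_apply]
    rw [hG1' x hx.1, hG2' x hx.2]
  refine ⟨fun x => if x ∈ topPart W then G1 x else G2 x, ?_, ?_⟩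
  · rw [← topPart_union_bottomPart]
    apply ContinuousOn.union_of_isClosed _ _ isClosed_topPart isClosed_bottomPart
    · apply G1.continuous.continuousOn.congr
      intro x hx
      simp [hx]
    · apply G2.continuous.continuousOn.congr
      intro x hx
      by_cases h : x ∈ topPart W
      · simp only [h, if_true]
        exact heq ⟨h, hx⟩
      · simp [h]
  · intro x hx
    rw [← topPart_union_bottomPart] at hx
    by_cases h : x ∈ topPart W
    · simp only [h, if_true]
      exact hG1' x h
    · simp only [h, if_false]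
      exact hG2' x (hx.resolve_left h)

/-- A map from a compact sphere of a normed space to a contractible space extends to the ball. -/
theorem exists_extend_contractible {V : Type*} [NormedAddCommGroup V] [NormedSpace ℝ V]
    [FiniteDimensional ℝ V] [ContractibleSpace Y] (g : V → Y)
    (hg : ContinuousOn g (sphere 0 1)) :
    ∃ G : V → Y, ContinuousOn G (closedBall 0 1) ∧ EqOn G g (sphere 0 1) := by
  classical
  obtain ⟨y0, ⟨H⟩⟩ := id_nullhomotopic Y
  have hH0 : ∀ y, H (0, y) = y := fun y => by simp
  have hH1 : ∀ y, H (1, y) = y0 := fun y => by simp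
  -- the parameter
  let τ : V → unitInterval := fun v => ⟨1 - min 1 ‖v‖, by
    constructor
    · have := min_le_left 1 ‖v‖; linarith
    · have : 0 ≤ min 1 ‖v‖ := le_min zero_le_one (norm_nonneg _); linarith⟩
  have hτ : Continuous τ := by
    apply Continuous.subtype_mk
    exact continuous_const.sub (continuous_const.min continuous_norm)
  refine ⟨fun v => if v = 0 then y0 else H (τ v, g (‖v‖⁻¹ • v)), ?_, ?_⟩
  · intro v hv
    by_cases hv0 : v = 0
    · subst hv0
      -- continuity at zero
      apply ContinuousAt.continuousWithinAt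
      rw [ContinuousAt, if_pos rfl]
      intro U hU
      -- tube lemma
      have hcomp : IsCompact (g '' sphere (0 : V) 1) := (isCompact_sphere (0 : V) 1).image_of_continuousOn hg
      obtain ⟨U', hU'U, hU'o, hyU'⟩ := mem_nhds_iff.mp hU
      have hopen : IsOpen (H ⁻¹' U') := hU'o.preimage H.continuous
      have hsub : ({1} : Set unitInterval) ×ˢ (g '' sphere (0 : V) 1) ⊆ H ⁻¹' U' := by
        rintro ⟨a, b⟩ ⟨ha, hb⟩
        rw [mem_singleton_iff] at ha
        subst ha
        show H (1, b) ∈ U'
        rw [hH1]; exact hyU'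
      obtain ⟨A, B, hA, hB, hA1, hB1, hAB⟩ := generalized_tube_lemma isCompact_singleton hcomp
        hopen hsub
      have h1A : (1 : unitInterval) ∈ A := hA1 rfl
      have hτ0 : τ 0 = 1 := by
        apply Subtype.ext
        simp [τ]
      have hev : ∀ᶠ v in 𝓝 (0 : V), τ v ∈ A :=
        (hτ.tendsto 0).eventually (by rw [hτ0]; exact hA.mem_nhds h1A)
      rw [Filter.mem_map]
      filter_upwards [hev] with v hvA
      by_cases hv0 : v = 0
      · subst hv0
        simp only [mem_preimage, if_true]
        exact hU'U hyU'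
      · simp only [mem_preimage, hv0, if_false]
        apply hU'U
        have : (τ v, g (‖v‖⁻¹ • v)) ∈ A ×ˢ B := by
          refine ⟨hvA, hB1 ⟨‖v‖⁻¹ • v, ?_, rfl⟩⟩
          rw [mem_sphere_zero_iff_norm, norm_smul, norm_inv, norm_norm]
          exact inv_mul_cancel₀ (norm_ne_zero_iff.mpr hv0)
        exact hAB this
    · -- continuity away from zero
      have hne : ∀ᶠ u in 𝓝 v, u ≠ 0 := isOpen_ne.mem_nhds hv0
      have hcont : ContinuousAt (fun u => H (τ u, g (‖u‖⁻¹ • u))) v := by
        apply H.continuous.continuousAt.comp (x := v)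
        apply ContinuousAt.prodMk hτ.continuousAt
        have h1 : ContinuousOn (fun u : V => g (‖u‖⁻¹ • u)) {u | u ≠ 0} := by
          apply hg.comp
          · intro u hu
            apply ContinuousAt.continuousWithinAt
            exact (continuous_norm.continuousAt.inv₀ (norm_ne_zero_iff.mpr hu)).smul
              continuousAt_id
          · intro u hu
            rw [mem_sphere_zero_iff_norm, norm_smul, norm_inv, norm_norm]
            exact inv_mul_cancel₀ (norm_ne_zero_iff.mpr hu)
        exact h1.continuousAt hne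
      apply ContinuousAt.continuousWithinAt
      apply hcont.congr
      filter_upwards [hne] with u hu
      simp [hu]
  · intro v hv
    rw [mem_sphere_zero_iff_norm] at hv
    have hv0 : v ≠ 0 := by
      rintro rfl
      simp at hv
    simp only [hv0, if_false]
    have hτv : τ v = 0 := by
      apply Subtype.ext
      simp [τ, hv]
    rw [hτv, hv, inv_one, one_smul, hH0]

/-- Extension of maps from the boundary of a ball of dimension at least three into a space with
a contractible covering. -/
theorem exists_extend_sphere [FiniteDimensional ℝ W] [ContractibleSpace Y] (hp : IsCoveringMap p)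
    (hs : Function.Surjective p) (hW : 1 < Module.rank ℝ W) (g : W × ℝ → X)
    (hg : ContinuousOn g (sphere 0 1)) :
    ∃ G : W × ℝ → X, ContinuousOn G (closedBall 0 1) ∧ EqOn G g (sphere 0 1) := by
  obtain ⟨G1, hG1, hG1p⟩ := exists_lift_sphere hp hs hW g hg
  obtain ⟨G2, hG2, hG2e⟩ := exists_extend_contractible (V := W × ℝ) G1 hG1
  refine ⟨fun x => p (G2 x), hp.continuous.comp_continuousOn hG2, ?_⟩
  intro x hx
  show p (G2 x) = g x
  rw [hG2e hx, hG1p x hx]

end Pool.Agent.Lib.MP_df705a_gt
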