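import Pool.Agent.Lib.MP_df705a_gt.CoverExtend

/-!
# Extending a map over a set of codimension at least three, cell by cell on a cubical grid
-/

set_option autoImplicit false
set_option linter.unusedSectionVars false

open Metric Set Topology

noncomputable section

namespace Pool.Agent.Lib.MP_df705a_gt

namespace Grid

variable {N : ℕ} (v : Fin N → ℝ) (δ : ℝ)

/-- rescaled coordinate -/
def u (x : Fin N → ℝ) (i : Fin N) : ℝ := (x i - v i) / δ

/-- index of the open face containing `x` -/
def fl (x : Fin N → ℝ) (i : Fin N) : ℤ := ⌊u v δ x i⌋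

open Classical in
/-- the free directions of the open face containing `x` -/
def J (x : Fin N → ℝ) : Finset (Fin N) :=
  Finset.univ.filter fun i => u v δ x i ≠ (fl v δ x i : ℝ)

/-- the closed face with given index -/
def F (a : (Fin N → ℤ) × Finset (Fin N)) : Set (Fin N → ℝ) :=
  {y | ∀ i, (i ∈ a.2 → (a.1 i : ℝ) ≤ u v δ y i ∧ u v δ y i ≤ a.1 i + 1) ∧
    (i ∉ a.2 → u v δ y i = a.1 i)}

/-- the index of the closed face of `x` -/
def idx (x : Fin N → ℝ) : (Fin N → ℤ) × Finset (Fin N) := (fl v δ x, J v δ x)

/-- dimension of the open face containing `x` -/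
def d (x : Fin N → ℝ) : ℕ := (J v δ x).card

/-- the closed face of `x` meets `S` -/
def bad (S : Set (Fin N → ℝ)) (x : Fin N → ℝ) : Prop := (F v δ (idx v δ x) ∩ S).Nonempty

variable {v δ}

theorem mem_J (x : Fin N → ℝ) (i : Fin N) : i ∈ J v δ x ↔ u v δ x i ≠ (fl v δ x i : ℝ) := by
  classical
  simp [J]

theorem not_mem_J (x : Fin N → ℝ) (i : Fin N) : i ∉ J v δ x ↔ u v δ x i = (fl v δ x i : ℝ) := by
  rw [mem_J, not_not]

theorem fl_le (x : Fin N → ℝ) (i : Fin N) : (fl v δ x i : ℝ) ≤ u v δ x i := Int.floor_le _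

theorem lt_fl_add_one (x : Fin N → ℝ) (i : Fin N) : u v δ x i < (fl v δ x i : ℝ) + 1 :=
  Int.lt_floor_add_one _

theorem mem_own_face (x : Fin N → ℝ) : x ∈ F v δ (idx v δ x) := by
  intro i
  refine ⟨fun _ => ⟨fl_le x i, (lt_fl_add_one x i).le⟩, fun h => ?_⟩
  exact (not_mem_J x i).mp h

theorem bad_of_mem {S : Set (Fin N → ℝ)} {x : Fin N → ℝ} (hx : x ∈ S) : bad v δ S x :=
  ⟨x, mem_own_face x, hx⟩

theorem continuous_u (i : Fin N) : Continuous fun x : Fin N → ℝ => u v δ x i := by
  unfold u
  fun_prop

theorem isClosed_F (a : (Fin N → ℤ) × Finset (Fin N)) : IsClosed (F v δ a) := by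
  have : F v δ a = ⋂ i, {y | (i ∈ a.2 → (a.1 i : ℝ) ≤ u v δ y i ∧ u v δ y i ≤ a.1 i + 1) ∧
      (i ∉ a.2 → u v δ y i = a.1 i)} := by
    ext y; simp [F]
  rw [this]
  apply isClosed_iInter
  intro i
  by_cases hi : i ∈ a.2
  · simp only [hi, not_true, true_imp_iff, false_imp_iff, and_true]
    exact (isClosed_le continuous_const (continuous_u i)).inter
      (isClosed_le (continuous_u i) continuous_const)
  · simp only [hi, not_false_eq_true, true_imp_iff, false_imp_iff, true_and]
    exact isClosed_eq (continuous_u i) continuous_const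

/-- points of a closed face have at most its free directions -/
theorem J_subset_of_mem_F {a : (Fin N → ℤ) × Finset (Fin N)} {y : Fin N → ℝ}
    (hy : y ∈ F v δ a) : J v δ y ⊆ a.2 := by
  intro i hi
  by_contra hcon
  rw [mem_J] at hi
  have h := (hy i).2 hcon
  apply hi
  unfold fl
  rw [h, Int.floor_intCast]

theorem d_le_of_mem_F {a : (Fin N → ℤ) × Finset (Fin N)} {y : Fin N → ℝ}
    (hy : y ∈ F v δ a) : d v δ y ≤ a.2.card := Finset.card_le_card (J_subset_of_mem_F hy)

/-- points of full dimension in a closed face have that face as own face -/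
theorem idx_eq_of_mem_F {a : (Fin N → ℤ) × Finset (Fin N)} {y : Fin N → ℝ}
    (hy : y ∈ F v δ a) (hd : a.2.card ≤ d v δ y) : idx v δ y = a := by
  have hJ : J v δ y = a.2 := Finset.eq_of_subset_of_card_le (J_subset_of_mem_F hy) hd
  have hm : fl v δ y = a.1 := by
    funext i
    by_cases hi : i ∈ a.2
    · have h1 := (hy i).1 hi
      rw [← hJ, mem_J] at hi
      unfold fl
      rw [Int.floor_eq_iff]
      refine ⟨h1.1, lt_of_le_of_ne h1.2 ?_⟩
      intro h2
      apply hi
      unfold fl
      have h3 : ((a.1 i : ℝ) + 1) = ((a.1 i + 1 : ℤ) : ℝ) := by push_cast; ring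
      rw [h2, h3, Int.floor_intCast]
    · unfold fl
      rw [(hy i).2 hi, Int.floor_intCast]
  unfold idx
  rw [hJ, hm]

/-- nearby points have larger closed faces -/
theorem eventually_face (x : Fin N → ℝ) :
    ∀ᶠ y in 𝓝 x, J v δ x ⊆ J v δ y ∧ F v δ (idx v δ x) ⊆ F v δ (idx v δ y) := by
  have h1 : ∀ i, ∀ᶠ y in 𝓝 x,
      (i ∈ J v δ x → ((fl v δ x i : ℝ) < u v δ y i ∧ u v δ y i < fl v δ x i + 1)) ∧
      (i ∉ J v δ x → ((fl v δ x i : ℝ) - 1 < u v δ y i ∧ u v δ y i < fl v δ x i + 1)) := by
    intro i
    have hc := (continuous_u (v := v) (δ := δ) i).continuousAt (x := x)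
    by_cases hi : i ∈ J v δ x
    · simp only [hi, not_true, true_imp_iff, false_imp_iff, and_true]
      have hlt : (fl v δ x i : ℝ) < u v δ x i :=
        lt_of_le_of_ne (fl_le x i) (Ne.symm ((mem_J x i).mp hi))
      exact (hc.eventually (lt_mem_nhds hlt)).and (hc.eventually (gt_mem_nhds (lt_fl_add_one x i)))
    · simp only [hi, not_false_eq_true, true_imp_iff, false_imp_iff, true_and]
      have heq := (not_mem_J x i).mp hi
      have hlt : (fl v δ x i : ℝ) - 1 < u v δ x i := by rw [heq]; linarith
      exact (hc.eventually (lt_mem_nhds hlt)).and (hc.eventually (gt_mem_nhds (lt_fl_add_one x i)))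
  have h2 := Filter.eventually_all.mpr h1
  filter_upwards [h2] with y hy
  have hfl : ∀ i ∈ J v δ x, fl v δ y i = fl v δ x i := by
    intro i hi
    have := (hy i).1 hi
    show ⌊u v δ y i⌋ = _
    rw [Int.floor_eq_iff]
    exact ⟨this.1.le, this.2⟩
  have hJ : J v δ x ⊆ J v δ y := by
    intro i hi
    rw [mem_J, hfl i hi]
    exact ne_of_gt ((hy i).1 hi).1
  refine ⟨hJ, ?_⟩
  intro z hz i
  constructor
  · intro hiy
    by_cases hix : i ∈ J v δ x
    · have := (hz i).1 hix
      show ((fl v δ y i : ℤ) : ℝ) ≤ _ ∧ _ ≤ ((fl v δ y i : ℤ) : ℝ) + 1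
      rw [hfl i hix]
      exact this
    · have hzi : u v δ z i = (fl v δ x i : ℝ) := (hz i).2 hix
      have hyi := (hy i).2 hix
      show ((fl v δ y i : ℤ) : ℝ) ≤ _ ∧ _ ≤ ((fl v δ y i : ℤ) : ℝ) + 1
      have h3 : fl v δ y i < fl v δ x i + 1 := by
        have : (fl v δ y i : ℝ) < (fl v δ x i : ℝ) + 1 := lt_of_le_of_lt (fl_le y i) hyi.2
        exact_mod_cast this
      have h4 : fl v δ x i - 1 < fl v δ y i + 1 := by
        have : (fl v δ x i : ℝ) - 1 < (fl v δ y i : ℝ) + 1 := lt_trans hyi.1 (lt_fl_add_one y i)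
        exact_mod_cast this
      have h5 : (fl v δ y i : ℝ) ≤ (fl v δ x i : ℝ) := by exact_mod_cast Int.lt_add_one_iff.mp h3
      have h6 : (fl v δ x i : ℝ) ≤ (fl v δ y i : ℝ) + 1 := by
        have : fl v δ x i ≤ fl v δ y i + 1 := by omega
        exact_mod_cast this
      rw [hzi]
      exact ⟨h5, h6⟩
  · intro hiy
    have hix : i ∉ J v δ x := fun h => hiy (hJ h)
    have hzi : u v δ z i = (fl v δ x i : ℝ) := (hz i).2 hix
    have hyi := (hy i).2 hix
    have hyint : u v δ y i = (fl v δ y i : ℝ) := (not_mem_J y i).mp hiy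
    show u v δ z i = (fl v δ y i : ℝ)
    rw [hzi]
    rw [hyint] at hyi
    have h3 : fl v δ y i < fl v δ x i + 1 := by exact_mod_cast hyi.2
    have h4 : fl v δ x i - 1 < fl v δ y i := by exact_mod_cast hyi.1
    have : fl v δ x i = fl v δ y i := by omega
    rw [this]

theorem isOpen_bad (S : Set (Fin N → ℝ)) (j : ℕ) :
    IsOpen {x : Fin N → ℝ | bad v δ S x ∧ j < d v δ x} := by
  rw [isOpen_iff_mem_nhds]
  rintro x ⟨⟨s, hs1, hs2⟩, hx2⟩
  filter_upwards [eventually_face x] with y hy
  refine ⟨⟨s, hy.2 hs1, hs2⟩, ?_⟩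
  exact lt_of_lt_of_le hx2 (Finset.card_le_card hy.1)

/-- gluing continuity over finitely many closed sets -/
theorem continuousOn_union_finite {A B ι : Type*} [TopologicalSpace A] [TopologicalSpace B]
    (f : A → B) (C : Set A) (hC : IsClosed C) (hf : ContinuousOn f C) (T : Set ι) (hT : T.Finite)
    (D : ι → Set A) (hD : ∀ i, IsClosed (D i)) (hfD : ∀ i ∈ T, ContinuousOn f (D i)) :
    ContinuousOn f (C ∪ ⋃ i ∈ T, D i) ∧ IsClosed (C ∪ ⋃ i ∈ T, D i) := by
  induction T, hT using Set.Finite.induction_on with
  | empty => simpa using ⟨hf, hC⟩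
  | @insert a s ha hs ih =>
    obtain ⟨h1, h2⟩ := ih (fun i hi => hfD i (Set.mem_insert_of_mem _ hi))
    have h3 : C ∪ ⋃ i ∈ insert a s, D i = (C ∪ ⋃ i ∈ s, D i) ∪ D a := by
      rw [Set.biUnion_insert]
      rw [Set.union_assoc, Set.union_comm (D a)]
    rw [h3]
    exact ⟨h1.union_of_isClosed (hfD a (Set.mem_insert _ _)) h2 (hD a), h2.union (hD a)⟩

section face

variable {X Y : Type*} [TopologicalSpace X] [TopologicalSpace Y] {p : Y → X}

/-- extension over one closed face of dimension at least three -/
theorem exists_extend_face [ContractibleSpace Y] (hp : IsCoveringMap p)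
    (hs : Function.Surjective p) (hδ : 0 < δ) (a : (Fin N → ℤ) × Finset (Fin N))
    (ha : 3 ≤ a.2.card) (f : (Fin N → ℝ) → X)
    (hf : ContinuousOn f {y | y ∈ F v δ a ∧ d v δ y < a.2.card}) :
    ∃ g : (Fin N → ℝ) → X, ContinuousOn g (F v δ a) ∧
      ∀ y ∈ F v δ a, d v δ y < a.2.card → g y = f y := by
  classical
  obtain ⟨m, Jf⟩ := a
  have hne : Jf.Nonempty := by
    rw [← Finset.card_pos]
    exact lt_of_lt_of_le (by norm_num) ha
  obtain ⟨j0, hj0⟩ := hne
  let J' := Jf.erase j0
  let W := {i // i ∈ J'} → ℝ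
  have hW : 1 < Module.rank ℝ W := by
    have h1 : Module.rank ℝ W = (J'.card : Cardinal) := by
      rw [rank_fun']
      simp
    rw [h1]
    have h2 : J'.card = Jf.card - 1 := Finset.card_erase_of_mem hj0
    have h3 : 1 < J'.card := by
      rw [h2]
      have : 3 ≤ Jf.card := ha
      omega
    exact_mod_cast h3
  let θ : W × ℝ → (Fin N → ℝ) := fun z i =>
    v i + δ * ((m i : ℝ) + (if h : i ∈ J' then (z.1 ⟨i, h⟩ + 1) / 2
      else if i = j0 then (z.2 + 1) / 2 else 0))
  let η : (Fin N → ℝ) → W × ℝ := fun y =>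
    (fun i => 2 * (u v δ y i.1 - m i.1) - 1, 2 * (u v δ y j0 - m j0) - 1)
  have hθc : Continuous θ := by
    apply continuous_pi
    intro i
    by_cases h : i ∈ J'
    · simp only [θ, h, dif_pos]
      fun_prop
    · by_cases h2 : i = j0
      · subst h2
        simp only [θ, h, dif_neg, not_false_eq_true, if_true]
        fun_prop
      · simp only [θ, h, dif_neg, not_false_eq_true, h2, if_false]
        fun_prop
  have hηc : Continuous η := by
    apply Continuous.prodMk
    · apply continuous_pi
      intro i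
      exact ((continuous_const.mul ((continuous_u i.1).sub continuous_const))).sub
        continuous_const
    · exact ((continuous_const.mul ((continuous_u j0).sub continuous_const))).sub
        continuous_const
  have huθ : ∀ z i, u v δ (θ z) i = (m i : ℝ) + (if h : i ∈ J' then (z.1 ⟨i, h⟩ + 1) / 2
      else if i = j0 then (z.2 + 1) / 2 else 0) := by
    intro z i
    have haux : ∀ a b : ℝ, (a + δ * b - a) / δ = b := by
      intro a b
      field_simp
      ring
    exact haux _ _
  have hmemJf : ∀ i, i ∈ Jf ↔ (i ∈ J' ∨ i = j0) := by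
    intro i
    constructor
    · intro hi
      by_cases h : i = j0
      · exact Or.inr h
      · exact Or.inl (Finset.mem_erase.mpr ⟨h, hi⟩)
    · rintro (h | h)
      · exact Finset.mem_of_mem_erase h
      · rw [h]; exact hj0
  have hj0' : j0 ∉ J' := Finset.notMem_erase _ _
  -- θ maps the ball into the face
  have hθF : ∀ z ∈ closedBall (0 : W × ℝ) 1, θ z ∈ F v δ (m, Jf) := by
    intro z hz i
    rw [mem_closedBall_zero_iff, Prod.norm_def, max_le_iff] at hz
    rw [huθ]
    constructor
    · intro hi
      rcases (hmemJf i).mp hi with h | h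
      · simp only [h, dif_pos]
        have h1 : |z.1 ⟨i, h⟩| ≤ 1 := by
          rw [← Real.norm_eq_abs]
          exact (norm_le_pi_norm z.1 ⟨i, h⟩).trans hz.1
        rw [abs_le] at h1
        constructor <;> linarith
      · subst h
        simp only [hj0', dif_neg, not_false_eq_true, if_true]
        have h1 : |z.2| ≤ 1 := by rw [← Real.norm_eq_abs]; exact hz.2
        rw [abs_le] at h1
        constructor <;> linarith
    · intro hi
      have h1 : i ∉ J' := fun h => hi ((hmemJf i).mpr (Or.inl h))
      have h2 : i ≠ j0 := fun h => hi ((hmemJf i).mpr (Or.inr h))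
      simp [h1, h2]
  -- θ maps the sphere into the boundary of the face
  have hθS : ∀ z ∈ sphere (0 : W × ℝ) 1, d v δ (θ z) < Jf.card := by
    intro z hz
    have hzb : z ∈ closedBall (0 : W × ℝ) 1 := sphere_subset_closedBall hz
    have hsub : J v δ (θ z) ⊆ Jf := J_subset_of_mem_F (hθF z hzb)
    rw [mem_sphere_zero_iff_norm, Prod.norm_def] at hz
    -- some coordinate has absolute value one
    have hex : ∃ i ∈ Jf, i ∉ J v δ (θ z) := by
      rcases max_choice ‖z.1‖ ‖z.2‖ with h | h
      · rw [h] at hz
        have hne : Nonempty {i // i ∈ J'} := by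
          by_contra hcon
          rw [not_nonempty_iff] at hcon
          have : ‖z.1‖ = 0 := by
            rw [norm_eq_zero]
            exact Subsingleton.elim _ _
          rw [this] at hz
          norm_num at hz
        obtain ⟨i, hi⟩ : ∃ i, ‖z.1‖ = ‖z.1 i‖ := by
          obtain ⟨i, -, hi⟩ := Finset.exists_mem_eq_sup' (Finset.univ_nonempty)
            (fun i => ‖z.1 i‖)
          refine ⟨i, ?_⟩
          rw [← hi]
          apply le_antisymm
          · rw [pi_norm_le_iff_of_nonneg]
            · intro j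
              exact Finset.le_sup' (fun i => ‖z.1 i‖) (Finset.mem_univ j)
            · exact (norm_nonneg _).trans (Finset.le_sup' (fun i => ‖z.1 i‖) (Finset.mem_univ i))
          · apply Finset.sup'_le
            intro j _
            exact norm_le_pi_norm _ _
        refine ⟨i.1, (hmemJf _).mpr (Or.inl i.2), ?_⟩
        rw [not_mem_J]
        have h3 : |z.1 i| = 1 := by rw [← Real.norm_eq_abs, ← hi]; exact hz
        have h4 := huθ z i.1
        simp only [i.2, dif_pos] at h4
        unfold fl
        rcases (abs_eq (by norm_num)).mp h3 with h5 | h5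
        · have : u v δ (θ z) i.1 = ((m i.1 + 1 : ℤ) : ℝ) := by
            rw [h4]
            have h6 : z.1 ⟨i.1, i.2⟩ = 1 := h5
            rw [h6]; push_cast; ring
          rw [this, Int.floor_intCast]
        · have : u v δ (θ z) i.1 = ((m i.1 : ℤ) : ℝ) := by
            rw [h4]
            have h6 : z.1 ⟨i.1, i.2⟩ = -1 := h5
            rw [h6]; push_cast; ring
          rw [this, Int.floor_intCast]
      · rw [h] at hz
        refine ⟨j0, hj0, ?_⟩
        rw [not_mem_J]
        have h3 : |z.2| = 1 := by rw [← Real.norm_eq_abs]; exact hz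
        have h4 := huθ z j0
        simp only [hj0', dif_neg, not_false_eq_true, if_true] at h4
        unfold fl
        rcases (abs_eq (by norm_num)).mp h3 with h5 | h5
        · have : u v δ (θ z) j0 = ((m j0 + 1 : ℤ) : ℝ) := by
            rw [h4, h5]; push_cast; ring
          rw [this, Int.floor_intCast]
        · have : u v δ (θ z) j0 = ((m j0 : ℤ) : ℝ) := by
            rw [h4, h5]; push_cast; ring
          rw [this, Int.floor_intCast]
    obtain ⟨i, hi1, hi2⟩ := hex
    apply Finset.card_lt_card
    refine ⟨hsub, fun h => hi2 (h hi1)⟩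
  -- η on the face
  have hθη : ∀ y ∈ F v δ (m, Jf), θ (η y) = y := by
    intro y hy
    funext i
    have hu : y i = v i + δ * u v δ y i := by
      simp only [u]
      field_simp
      ring
    by_cases h : i ∈ J'
    · simp only [θ, η, h, dif_pos]
      conv_rhs => rw [hu]
      ring
    · by_cases h2 : i = j0
      · subst h2
        simp only [θ, η, h, dif_neg, not_false_eq_true, if_true]
        conv_rhs => rw [hu]
        ring
      · have h3 : i ∉ Jf := fun h4 => by
          rcases (hmemJf i).mp h4 with h5 | h5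
          · exact h h5
          · exact h2 h5
        simp only [θ, h, dif_neg, not_false_eq_true, h2, if_false]
        conv_rhs => rw [hu, (hy i).2 h3]
        ring
  have hηball : ∀ y ∈ F v δ (m, Jf), η y ∈ closedBall (0 : W × ℝ) 1 := by
    intro y hy
    rw [mem_closedBall_zero_iff, Prod.norm_def, max_le_iff]
    constructor
    · rw [pi_norm_le_iff_of_nonneg zero_le_one]
      intro i
      have h1 := (hy i.1).1 ((hmemJf _).mpr (Or.inl i.2))
      simp only [η, Real.norm_eq_abs]
      rw [abs_le]
      constructor <;> linarith [h1.1, h1.2]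
    · have h1 := (hy j0).1 hj0
      simp only [η, Real.norm_eq_abs]
      rw [abs_le]
      constructor <;> linarith [h1.1, h1.2]
  have hηsphere : ∀ y ∈ F v δ (m, Jf), d v δ y < Jf.card → η y ∈ sphere (0 : W × ℝ) 1 := by
    intro y hy hd
    have hb := hηball y hy
    rw [mem_closedBall_zero_iff] at hb
    rw [mem_sphere_zero_iff_norm]
    apply le_antisymm hb
    -- some free direction of the face is an integer coordinate of `y`
    obtain ⟨i, hi1, hi2⟩ : ∃ i ∈ Jf, i ∉ J v δ y := by
      by_contra hcon
      push Not at hcon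
      have : Jf ⊆ J v δ y := fun i hi => hcon i hi
      exact absurd (Finset.card_le_card this) (not_le.mpr hd)
    have hint := (not_mem_J y i).mp hi2
    have hrange := (hy i).1 hi1
    rw [hint] at hrange
    have hcases : fl v δ y i = m i ∨ fl v δ y i = m i + 1 := by
      have h1 : m i ≤ fl v δ y i := by exact_mod_cast hrange.1
      have h2 : fl v δ y i ≤ m i + 1 := by exact_mod_cast hrange.2
      omega
    have habs : |2 * (u v δ y i - m i) - 1| = 1 := by
      rw [hint]
      rcases hcases with h | h
      · rw [h]; norm_num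
      · rw [h]; push_cast; norm_num
    rw [Prod.norm_def]
    rcases (hmemJf i).mp hi1 with h | h
    · apply le_max_of_le_left
      rw [← habs, ← Real.norm_eq_abs]
      exact norm_le_pi_norm (η y).1 ⟨i, h⟩
    · subst h
      apply le_max_of_le_right
      rw [← habs, ← Real.norm_eq_abs]
  -- the extension
  have hg : ContinuousOn (fun z => f (θ z)) (sphere (0 : W × ℝ) 1) := by
    apply hf.comp hθc.continuousOn
    intro z hz
    exact ⟨hθF z (sphere_subset_closedBall hz), hθS z hz⟩
  obtain ⟨G, hG1, hG2⟩ := exists_extend_sphere hp hs hW (fun z => f (θ z)) hg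
  refine ⟨fun y => G (η y), hG1.comp hηc.continuousOn (fun y hy => hηball y hy), ?_⟩
  intro y hy hd
  have h1 := hG2 (hηsphere y hy hd)
  show G (η y) = f y
  rw [h1]
  simp only
  rw [hθη y hy]

/-- **Cubical extension theorem.** -/
theorem exists_extension [ContractibleSpace Y] (hp : IsCoveringMap p)
    (hs : Function.Surjective p) (hδ : 0 < δ) (K S : Set (Fin N → ℝ)) (hK : IsCompact K)
    (hSd : ∀ s ∈ S, 3 ≤ d v δ s) (hface : ∀ x, bad v δ S x → F v δ (idx v δ x) ⊆ K)
    (e : (Fin N → ℝ) → X) (he : ContinuousOn e (K \ S)) :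
    ∃ R : (Fin N → ℝ) → X, ContinuousOn R K ∧ ∀ x ∈ K, ¬ bad v δ S x → R x = e x := by
  classical
  let G : ℕ → Set (Fin N → ℝ) := fun j => {x | x ∈ K ∧ (bad v δ S x → d v δ x ≤ j)}
  have hGclosed : ∀ j, IsClosed (G j) := by
    intro j
    have : (G j)ᶜ = Kᶜ ∪ {x | bad v δ S x ∧ j < d v δ x} := by
      ext x
      simp only [G, mem_compl_iff, mem_ofPred_eq, mem_union, not_and, Classical.not_imp, not_le]
      tauto
    rw [← isOpen_compl_iff, this]
    exact hK.isClosed.isOpen_compl.union (isOpen_bad S j)
  have key : ∀ j, 2 ≤ j → ∃ R : (Fin N → ℝ) → X, ContinuousOn R (G j) ∧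
      ∀ x ∈ K, ¬ bad v δ S x → R x = e x := by
    intro j hj
    induction j, hj using Nat.le_induction with
    | base =>
      refine ⟨e, he.mono ?_, fun _ _ _ => rfl⟩
      rintro x ⟨hxK, hx⟩
      refine ⟨hxK, fun hxS => ?_⟩
      have h1 := hx (bad_of_mem hxS)
      have h2 := hSd x hxS
      omega
    | succ j hj ih =>
      obtain ⟨R, hR, hRe⟩ := ih
      -- extensions over the bad faces of dimension `j + 1`
      have hext : ∀ a : (Fin N → ℤ) × Finset (Fin N), ∃ g : (Fin N → ℝ) → X,
          (a.2.card = j + 1 ∧ (F v δ a ∩ S).Nonempty ∧ F v δ a ⊆ K) →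
            (ContinuousOn g (F v δ a) ∧ ∀ y ∈ F v δ a, d v δ y < a.2.card → g y = R y) := by
        intro a
        by_cases ha : a.2.card = j + 1 ∧ (F v δ a ∩ S).Nonempty ∧ F v δ a ⊆ K
        · obtain ⟨g, hg⟩ := exists_extend_face (v := v) (δ := δ) hp hs hδ a (by omega) R (by
            apply hR.mono
            rintro y ⟨hy1, hy2⟩
            exact ⟨ha.2.2 hy1, fun _ => by omega⟩)
          exact ⟨g, fun _ => hg⟩
        · exact ⟨e, fun h => absurd h ha⟩
      choose g hg using hext
      let R' : (Fin N → ℝ) → X := fun x =>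
        if bad v δ S x ∧ d v δ x = j + 1 then g (idx v δ x) x else R x
      let T : Set ((Fin N → ℤ) × Finset (Fin N)) :=
        {a | a.2.card = j + 1 ∧ (F v δ a ∩ S).Nonempty ∧ F v δ a ⊆ K}
      have hTfin : T.Finite := by
        -- boundedness of `K`
        obtain ⟨B, hB⟩ : ∃ B : ℝ, ∀ y ∈ K, ∀ i, |u v δ y i| ≤ B := by
          have h1 : ∀ i, ∃ B : ℝ, ∀ y ∈ K, |u v δ y i| ≤ B := by
            intro i
            obtain ⟨B, hB⟩ := hK.bddAbove_image (f := fun y => |u v δ y i|)
              (continuous_u i).abs.continuousOn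
            exact ⟨B, fun y hy => hB ⟨y, hy, rfl⟩⟩
          choose B hB using h1
          refine ⟨∑ i, |B i|, fun y hy i => (hB i y hy).trans ((le_abs_self _).trans ?_)⟩
          exact Finset.single_le_sum (f := fun i => |B i|) (fun i _ => abs_nonneg _)
            (Finset.mem_univ i)
        have h2 : T ⊆ (Set.Icc (fun _ => -⌈B⌉) (fun _ => ⌈B⌉) : Set (Fin N → ℤ)) ×ˢ
            (Set.univ : Set (Finset (Fin N))) := by
          rintro ⟨m, Jf⟩ ⟨-, -, h3⟩
          refine ⟨?_, mem_univ _⟩
          -- the corner of the face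
          let y0 : Fin N → ℝ := fun i => v i + δ * m i
          have hu0 : ∀ i, u v δ y0 i = m i := by
            intro i
            simp only [u, y0]
            field_simp
            ring
          have hy0 : y0 ∈ F v δ (m, Jf) := by
            intro i
            rw [hu0]
            exact ⟨fun _ => ⟨le_rfl, by linarith⟩, fun _ => rfl⟩
          have h4 := hB y0 (h3 hy0)
          constructor
          · intro i
            have := h4 i
            rw [hu0, abs_le] at this
            have h5 : -(⌈B⌉ : ℝ) ≤ m i := le_trans (neg_le_neg (Int.le_ceil B)) this.1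
            show -⌈B⌉ ≤ m i
            exact_mod_cast h5
          · intro i
            have := h4 i
            rw [hu0, abs_le] at this
            have h5 : (m i : ℝ) ≤ ⌈B⌉ := le_trans this.2 (Int.le_ceil B)
            exact_mod_cast h5
        apply Set.Finite.subset _ h2
        exact (Set.finite_Icc _ _).prod Set.finite_univ
      have hcover : G (j + 1) ⊆ G j ∪ ⋃ a ∈ T, F v δ a := by
        rintro x ⟨hxK, hx⟩
        by_cases h : bad v δ S x ∧ d v δ x = j + 1
        · right
          rw [mem_iUnion₂]
          exact ⟨idx v δ x, ⟨h.2, h.1, hface x h.1⟩, mem_own_face x⟩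
        · left
          refine ⟨hxK, fun hb => ?_⟩
          have h1 := hx hb
          have h2 : d v δ x ≠ j + 1 := fun h3 => h ⟨hb, h3⟩
          omega
      refine ⟨R', ?_, ?_⟩
      · apply ContinuousOn.mono _ hcover
        refine (continuousOn_union_finite R' (G j) (hGclosed j) ?_ T hTfin (fun a => F v δ a)
          (fun a => isClosed_F a) ?_).1
        · apply hR.congr
          rintro x ⟨hxK, hx⟩
          have : ¬ (bad v δ S x ∧ d v δ x = j + 1) := by
            rintro ⟨h1, h2⟩
            have := hx h1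
            omega
          exact if_neg this
        · intro a ha
          obtain ⟨hg1, hg2⟩ := hg a ha
          apply hg1.congr
          intro y hy
          have hdy := d_le_of_mem_F hy
          by_cases hdy' : d v δ y < a.2.card
          · have : ¬ (bad v δ S y ∧ d v δ y = j + 1) := by
              rintro ⟨h1, h2⟩
              have := ha.1
              omega
            have h2 : R' y = R y := if_neg this
            rw [h2, hg2 y hy hdy']
          · have h1 : idx v δ y = a := idx_eq_of_mem_F hy (not_lt.mp hdy')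
            have h2 : bad v δ S y := by
              unfold bad
              rw [h1]
              exact ha.2.1
            have h3 : d v δ y = j + 1 := by
              have := ha.1
              omega
            have h4 : R' y = g (idx v δ y) y := if_pos ⟨h2, h3⟩
            rw [h4, h1]
      · intro x hxK hx
        have h1 : R' x = R x := if_neg (fun h => hx h.1)
        rw [h1, hRe x hxK hx]
  obtain ⟨R, hR, hRe⟩ := key (N + 2) (by omega)
  refine ⟨R, hR.mono ?_, hRe⟩
  intro x hx
  refine ⟨hx, fun _ => ?_⟩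
  have h1 : d v δ x ≤ Fintype.card (Fin N) := Finset.card_le_univ _
  rw [Fintype.card_fin] at h1
  omega

end face

end Grid

end Pool.Agent.Lib.MP_df705a_gt
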