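import Mathlib

/-!
# Scalar curvature of a Riemannian metric, in coordinates and on a manifold

All the objects are given by the classical coordinate formulas.
-/

open scoped Manifold ContDiff
open Bundle

noncomputable section

namespace Pool.Agent.Lib.MP_df705a_gt

/-- The coordinate space `ℝ^m`. -/
abbrev Co (m : ℕ) := EuclideanSpace ℝ (Fin m)

/-- A field of bilinear forms on `ℝ^m`. -/
abbrev FormField (m : ℕ) := Co m → Co m →L[ℝ] Co m →L[ℝ] ℝ

/-- `h` is a smooth Riemannian metric on `ℝ^m`. -/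
structure IsMetric {m : ℕ} (h : FormField m) : Prop where
  smooth : ContDiff ℝ ∞ h
  symm : ∀ x u v, h x u v = h x v u
  pos : ∀ x v, v ≠ 0 → 0 < h x v v

/-- The `i`-th standard basis vector of `ℝ^m`. -/
def ev {m : ℕ} (i : Fin m) : Co m := EuclideanSpace.single i 1

/-- The inverse matrix `h^{ij}(x)` of the matrix `h_{ij}(x)` of the field of forms `h`. -/
def invGram {m : ℕ} (h : FormField m) (x : Co m) : Matrix (Fin m) (Fin m) ℝ :=
  (Matrix.of fun i j => h x (ev i) (ev j))⁻¹

/-- The Christoffel symbols of the first kind: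
`[uv, w] = (∂_u h(v, w) + ∂_v h(u, w) - ∂_w h(u, v)) / 2`. -/
def chr {m : ℕ} (h : FormField m) (x u v w : Co m) : ℝ :=
  (fderiv ℝ (fun y => h y v w) x u + fderiv ℝ (fun y => h y u w) x v
    - fderiv ℝ (fun y => h y u v) x w) / 2

/-- The Riemann curvature tensor `⟨R(u, v)w, z⟩` of `h`:
`∂_u [vw, z] - ∂_v [uw, z] + h^{pq} ([uw, p] [vz, q] - [vw, p] [uz, q])`. -/
def riem {m : ℕ} (h : FormField m) (x u v w z : Co m) : ℝ :=
  fderiv ℝ (fun y => chr h y v w z) x u - fderiv ℝ (fun y => chr h y u w z) x v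
    + ∑ p, ∑ q, invGram h x p q *
      (chr h x u w (ev p) * chr h x v z (ev q) - chr h x v w (ev p) * chr h x u z (ev q))

/-- The scalar curvature `h^{il} h^{jk} ⟨R(e_i, e_j)e_k, e_l⟩` of `h`. -/
def scal {m : ℕ} (h : FormField m) (x : Co m) : ℝ :=
  ∑ i, ∑ j, ∑ k, ∑ l, invGram h x i l * invGram h x j k * riem h x (ev i) (ev j) (ev k) (ev l)

/-- The covariant Hessian `∂_u ∂_v f - h^{pq} [uv, p] ∂_q f` of a function `f`. -/
def covHess {m : ℕ} (h : FormField m) (f : Co m → ℝ) (x u v : Co m) : ℝ :=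
  fderiv ℝ (fderiv ℝ f) x u v
    - ∑ p, ∑ q, invGram h x p q * chr h x u v (ev p) * fderiv ℝ f x (ev q)

section Manifold

variable {n : ℕ} {M : Type*} [TopologicalSpace M] [ChartedSpace (Co n) M]
  [IsManifold (𝓡 n) ∞ M]

/-- The expression of the Riemannian metric `g` in the preferred chart at `x`. -/
def chartMetric (g : ContMDiffRiemannianMetric (𝓡 n) ∞ (Co n) (fun x : M => TangentSpace (𝓡 n) x))
    (x : M) : FormField n := fun y =>
  let G : Co n →L[ℝ] Co n →L[ℝ] ℝ := g.inner ((extChartAt (𝓡 n) x).symm y)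
  let D : Co n →L[ℝ] Co n := mfderiv (𝓡 n) (𝓡 n) (extChartAt (𝓡 n) x).symm y
  G.bilinearComp D D

/-- The scalar curvature of the Riemannian metric `g` at the point `x`. -/
def scalarCurvature
    (g : ContMDiffRiemannianMetric (𝓡 n) ∞ (Co n) (fun x : M => TangentSpace (𝓡 n) x))
    (x : M) : ℝ :=
  scal (chartMetric g x) (extChartAt (𝓡 n) x x)

/-- The metric `g` has positive scalar curvature. -/
def PSC (g : ContMDiffRiemannianMetric (𝓡 n) ∞ (Co n) (fun x : M => TangentSpace (𝓡 n) x)) :
    Prop :=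
  ∀ x : M, 0 < scalarCurvature g x

end Manifold

/-- A space is aspherical if it has a covering space which is contractible
(which is then its universal cover). -/
def IsAspherical.{u} (M : Type u) [TopologicalSpace M] : Prop :=
  ∃ (Y : Type u) (_ : TopologicalSpace Y) (p : Y → M),
    ContractibleSpace Y ∧ IsCoveringMap p ∧ Function.Surjective p

end Pool.Agent.Lib.MP_df705a_gt
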