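import Pool.Agent.Lib.MP_df705a_gt.Morse

open Set Metric Filter Topology Module MeasureTheory
open scoped NNReal RealInnerProductSpace

namespace Pool.Agent.Lib.MP_df705a_gt

/-- A compact region with a convex function and a boundary having two concave directions at
every point carries a trap. -/
theorem exists_trap {E : Type} [NormedAddCommGroup E] [InnerProductSpace ℝ E]
    [FiniteDimensional ℝ E] [MeasurableSpace E] [BorelSpace E] (h3 : 3 ≤ finrank ℝ E)
    (φ f : E → ℝ) (hφ : ContDiff ℝ 2 φ) (hf : ContDiff ℝ 2 f) (hK : IsCompact {x | 0 ≤ φ x})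
    (hreg : ∀ x, φ x = 0 → fderiv ℝ φ x ≠ 0)
    (Γ : E → E →L[ℝ] E →L[ℝ] E) (hΓ : Continuous Γ)
    (hfc : ∀ x, 0 ≤ φ x → ∀ v, v ≠ 0 → 0 < hess Γ f x v v)
    (hcc : ∀ x, φ x = 0 → ∃ S : Submodule ℝ E, finrank ℝ S = 2 ∧
      (∀ v ∈ S, fderiv ℝ φ x v = 0) ∧ ∀ v ∈ S, v ≠ 0 → hess Γ φ x v v < 0) :
    ∃ (X : E → E) (F : E → ℝ), Trap φ X F := by
  have hφc : Continuous φ := hφ.continuous
  have hDφ : ContDiff ℝ 1 (fderiv ℝ φ) := hφ.fderiv_right (by norm_num)
  have hDf : ContDiff ℝ 1 (fderiv ℝ f) := hf.fderiv_right (by norm_num)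
  have hφd : Differentiable ℝ φ := hφ.differentiable two_ne_zero
  have hfd : Differentiable ℝ f := hf.differentiable two_ne_zero
  obtain ⟨J, hJ⟩ := exists_sharp (E := E)
  have hJ2 : ∀ ℓ : E →L[ℝ] ℝ, ℓ (J ℓ) = ‖J ℓ‖ ^ 2 := by
    intro ℓ
    rw [← hJ, real_inner_self_eq_norm_sq]
  have hJ0 : ∀ ℓ : E →L[ℝ] ℝ, J ℓ = 0 → ℓ = 0 := by
    intro ℓ h
    ext v
    rw [← hJ, h, inner_zero_left]
    rfl
  -- uniform constants
  obtain ⟨c, hc, hcK⟩ := unif_pos hK (continuous_hess hΓ hf) hfc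
  obtain ⟨h, hh, hhK⟩ := unif_bdd hK (continuous_hess hΓ hφ)
  obtain ⟨γ, hγ, hγK⟩ := unif_bdd hK hΓ
  -- the collar
  have hHφ : Continuous (hess Γ φ) := continuous_hess hΓ hφ
  obtain ⟨δ₁, hδ₁, hcollar⟩ : ∃ δ₁ > 0, ∀ z, 0 < φ z → φ z < δ₁ →
      ∃ V : Submodule ℝ E, finrank ℝ V = 3 ∧
        ∀ v ∈ V, hess Γ φ z v v ≤ 1 / φ z * (fderiv ℝ φ z v) ^ 2 := by
    set P : E → Prop := fun z => 0 < φ z → ∃ V : Submodule ℝ E, finrank ℝ V = 3 ∧
        ∀ v ∈ V, hess Γ φ z v v ≤ 1 / φ z * (fderiv ℝ φ z v) ^ 2 with hP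
    have hU : IsOpen {z | ∀ᶠ y in 𝓝 z, P y} := isOpen_setOfPred_eventually_nhds
    have hC : IsCompact ({x | 0 ≤ φ x} \ {z | ∀ᶠ y in 𝓝 z, P y}) := hK.diff hU
    obtain ⟨δ₁, hδ₁, hb⟩ := hC.exists_forall_le' hφc.continuousOn (a := 0) (by
      rintro z ⟨hz1, hz2⟩
      rcases (show (0 : ℝ) ≤ φ z from hz1).eq_or_lt with h0 | h0
      · exfalso
        apply hz2
        obtain ⟨S, hS2, hSker, hSneg⟩ := hcc z h0.symm
        exact near_point hφ hHφ h0.symm (hreg z h0.symm) hS2 hSker hSneg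
      · exact h0)
    refine ⟨δ₁, hδ₁, ?_⟩
    intro z hz0 hz1
    have hzU : z ∈ {z | ∀ᶠ y in 𝓝 z, P y} := by
      by_contra hcon
      have := hb z ⟨hz0.le, hcon⟩
      linarith
    exact (show ∀ᶠ y in 𝓝 z, P y from hzU).self_of_nhds hz0
  set ε : ℝ := c * δ₁ / (4 * h) with hε
  have hεpos : 0 < ε := by positivity
  set ρ : ℝ := c / (4 * γ) with hρ
  have hρpos : 0 < ρ := by positivity
  -- the gradient map and its derivative
  set G : E → E := fun x => J (fderiv ℝ f x) - (ε / φ x) • J (fderiv ℝ φ x) with hG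
  set G' : E → E →L[ℝ] E := fun z => J.comp (fderiv ℝ (fderiv ℝ f) z) -
    ((ε / φ z) • J.comp (fderiv ℝ (fderiv ℝ φ) z) +
      ((-(ε / φ z ^ 2)) • fderiv ℝ φ z).smulRight (J (fderiv ℝ φ z))) with hG'
  have hGd : ∀ z, 0 < φ z → HasFDerivAt G (G' z) z := by
    intro z hz
    have h1 : HasFDerivAt (fun x => J (fderiv ℝ f x)) (J.comp (fderiv ℝ (fderiv ℝ f) z)) z :=
      J.hasFDerivAt.comp z (hDf.differentiable one_ne_zero z).hasFDerivAt
    have h2 : HasFDerivAt (fun x => J (fderiv ℝ φ x)) (J.comp (fderiv ℝ (fderiv ℝ φ) z)) z :=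
      J.hasFDerivAt.comp z (hDφ.differentiable one_ne_zero z).hasFDerivAt
    have h3 : HasFDerivAt (fun x => ε / φ x) ((-(ε / φ z ^ 2)) • fderiv ℝ φ z) z := by
      have h4 : HasDerivAt (fun y : ℝ => ε / y) (-(ε / φ z ^ 2)) (φ z) := by
        have := (hasDerivAt_inv hz.ne').const_mul ε
        have h5 : (fun y : ℝ => ε * y⁻¹) = fun y : ℝ => ε / y := by
          funext y; rw [div_eq_mul_inv]
        have h6 : ε * -(φ z ^ 2)⁻¹ = -(ε / φ z ^ 2) := by
          rw [div_eq_mul_inv]; ring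
        rw [← h6, ← h5]
        exact this
      exact h4.comp_hasFDerivAt z (hφd z).hasFDerivAt
    exact h1.sub (h3.smul h2)
  have hinner : ∀ z v w, ⟪G' z v, w⟫ = fderiv ℝ (fderiv ℝ f) z v w -
      ε / φ z * fderiv ℝ (fderiv ℝ φ) z v w +
      ε / φ z ^ 2 * (fderiv ℝ φ z v * fderiv ℝ φ z w) := by
    intro z v w
    have h1 : G' z v = J (fderiv ℝ (fderiv ℝ f) z v) -
      ((ε / φ z) • J (fderiv ℝ (fderiv ℝ φ) z v) +
      ((-(ε / φ z ^ 2)) * fderiv ℝ φ z v) • (J (fderiv ℝ φ z))) := by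
      simp [hG']
    rw [h1, inner_sub_left, inner_add_left, real_inner_smul_left, real_inner_smul_left, hJ, hJ, hJ]
    ring
  -- a regular value
  obtain ⟨q, hqρ, hq⟩ : ∃ q : E, ‖q‖ < ρ ∧ ∀ z, 0 < φ z → G z = q → (G' z).det ≠ 0 := by
    have hsard := addHaar_image_eq_zero_of_det_fderivWithin_eq_zero (volume : Measure E)
      (f := G) (s := {z | 0 < φ z ∧ (G' z).det = 0}) (f' := G')
      (fun z hz => (hGd z hz.1).hasFDerivWithinAt) (fun z hz => hz.2)
    have hball : 0 < volume (ball (0 : E) ρ) := measure_ball_pos _ _ hρpos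
    have hne : ¬ (ball (0 : E) ρ ⊆ G '' {z | 0 < φ z ∧ (G' z).det = 0}) := by
      intro hsub
      have := measure_mono (μ := (volume : Measure E)) hsub
      rw [hsard] at this
      exact absurd this (not_le.mpr hball)
    obtain ⟨q, hq1, hq2⟩ := not_subset.mp hne
    refine ⟨q, by simpa using hq1, ?_⟩
    intro z hz hGz hdet
    exact hq2 ⟨z, ⟨hz, hdet⟩, hGz⟩
  -- the field
  set X : E → E := fun x => φ x • (J (fderiv ℝ f x) - q) - ε • J (fderiv ℝ φ x) with hX
  set F : E → ℝ := fun x => f x - ⟪q, x⟫ - ε * Real.log (φ x) with hF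
  have hXG : ∀ x, 0 < φ x → X x = φ x • (G x - q) := by
    intro x hx
    simp only [hX, hG]
    have h1 : φ x • ((ε / φ x) • J (fderiv ℝ φ x)) = ε • J (fderiv ℝ φ x) := by
      rw [smul_smul]
      congr 1
      field_simp
    rw [smul_sub, smul_sub, smul_sub, h1]
    abel
  have hFd : ∀ x, 0 < φ x → HasFDerivAt F (innerSL ℝ (G x - q)) x := by
    intro x hx
    have h1 : HasFDerivAt (fun x => ⟪q, x⟫) (innerSL ℝ q) x := (innerSL ℝ q).hasFDerivAt
    have h2 : HasFDerivAt (fun x => Real.log (φ x)) ((φ x)⁻¹ • fderiv ℝ φ x) x :=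
      (hφd x).hasFDerivAt.log hx.ne'
    have h3 := ((hfd x).hasFDerivAt.sub h1).sub (h2.const_mul ε)
    have h4 : innerSL ℝ (G x - q) = fderiv ℝ f x - innerSL ℝ q - ε • (φ x)⁻¹ • fderiv ℝ φ x := by
      ext v
      have h5 : ⟪G x, v⟫ - ⟪q, v⟫ = fderiv ℝ f x v - ⟪q, v⟫ - ε * ((φ x)⁻¹ * fderiv ℝ φ x v) := by
        simp only [hG]
        rw [inner_sub_left, real_inner_smul_left, hJ, hJ, div_eq_mul_inv]
        ring
      simpa using h5
    rw [h4]
    exact h3
  refine ⟨X, F, ?_⟩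
  constructor
  · exact hφ.of_le (by norm_num)
  · exact hK
  · have h1 : ContDiff ℝ 1 φ := hφ.of_le (by norm_num)
    have h2 : ContDiff ℝ 1 (fun x => J (fderiv ℝ f x)) := J.contDiff.comp hDf
    have h3 : ContDiff ℝ 1 (fun x => J (fderiv ℝ φ x)) := J.contDiff.comp hDφ
    exact (h1.smul (h2.sub contDiff_const)).sub (contDiff_const.smul h3)
  · intro x hx
    have h1 : X x = -(ε • J (fderiv ℝ φ x)) := by
      simp [hX, hx]
    rw [h1, map_neg, map_smul, smul_eq_mul, hJ2]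
    have h2 : J (fderiv ℝ φ x) ≠ 0 := fun h0 => hreg x hx (hJ0 _ h0)
    have h4 : 0 < ‖J (fderiv ℝ φ x)‖ := norm_pos_iff.mpr h2
    have : 0 < ε * ‖J (fderiv ℝ φ x)‖ ^ 2 := by positivity
    linarith
  · intro x hx
    have h1 := hFd x hx
    rw [h1.fderiv, hXG x hx]
    have h2 : innerSL ℝ (G x - q) (φ x • (G x - q)) = φ x * ‖G x - q‖ ^ 2 := by
      rw [map_smul, smul_eq_mul, innerSL_apply_apply, real_inner_self_eq_norm_sq]
    rw [h2]
    refine ⟨h1.differentiableAt, by positivity, ?_⟩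
    intro h0
    rcases mul_eq_zero.mp h0 with h4 | h4
    · exact absurd h4 hx.ne'
    · have h5 : G x - q = 0 := by
        rwa [sq_eq_zero_iff, norm_eq_zero] at h4
      rw [h5, smul_zero]
  · intro z hz hXz
    have hGq : G z = q := by
      rw [hXG z hz] at hXz
      rcases smul_eq_zero.mp hXz with h4 | h4
      · exact absurd h4 hz.ne'
      · exact sub_eq_zero.mp h4
    have hXd : HasFDerivAt X (φ z • G' z) z := by
      have h1 : HasFDerivAt (fun x => φ x • (G x - q))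
          (φ z • G' z + (fderiv ℝ φ z).smulRight (G z - q)) z :=
        (hφd z).hasFDerivAt.smul ((hGd z hz).sub_const q)
      rw [hGq, sub_self, ContinuousLinearMap.smulRight_zero, add_zero] at h1
      refine h1.congr_of_eventuallyEq ?_
      have : ∀ᶠ y in 𝓝 z, 0 < φ y := (isOpen_lt continuous_const hφc).mem_nhds hz
      filter_upwards [this] with y hy using hXG y hy
    rw [hXd.fderiv]
    have hsymf : ∀ v w, fderiv ℝ (fderiv ℝ f) z v w = fderiv ℝ (fderiv ℝ f) z w v :=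
      second_derivative_symmetric (fun y => (hfd y).hasFDerivAt)
        (hDf.differentiable one_ne_zero z).hasFDerivAt
    have hsymφ : ∀ v w, fderiv ℝ (fderiv ℝ φ) z v w = fderiv ℝ (fderiv ℝ φ) z w v :=
      second_derivative_symmetric (fun y => (hφd y).hasFDerivAt)
        (hDφ.differentiable one_ne_zero z).hasFDerivAt
    -- the key estimate
    have hquad : ∀ v, ⟪G' z v, v⟫ = hess Γ f z v v +
        (ε / φ z) * (1 / φ z * (fderiv ℝ φ z v) ^ 2 - hess Γ φ z v v) + ⟪q, Γ z v v⟫ := by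
      intro v
      have h1 : ⟪q, Γ z v v⟫ = fderiv ℝ f z (Γ z v v) - ε / φ z * fderiv ℝ φ z (Γ z v v) := by
        rw [← hGq]
        simp only [hG]
        rw [inner_sub_left, real_inner_smul_left, hJ, hJ]
      rw [hinner, hess_apply, hess_apply, h1]
      field_simp
      ring
    have hqΓ : ∀ v, -(c / 4 * ‖v‖ ^ 2) ≤ ⟪q, Γ z v v⟫ := by
      intro v
      have h1 := abs_real_inner_le_norm q (Γ z v v)
      have h2 := neg_abs_le ⟪q, Γ z v v⟫
      have h4 : ‖q‖ * ‖Γ z v v‖ ≤ ρ * (γ * ‖v‖ ^ 2) :=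
        mul_le_mul hqρ.le (hγK z hz.le v) (norm_nonneg _) hρpos.le
      have h5 : ρ * (γ * ‖v‖ ^ 2) = c / 4 * ‖v‖ ^ 2 := by
        rw [hρ]; field_simp
      linarith
    obtain ⟨V, hV3, hVpos⟩ : ∃ V : Submodule ℝ E, finrank ℝ V = 3 ∧
        ∀ v ∈ V, c / 2 * ‖v‖ ^ 2 ≤ ⟪G' z v, v⟫ := by
      rcases lt_or_ge (φ z) δ₁ with hlt | hge
      · obtain ⟨V, hV3, hV⟩ := hcollar z hz hlt
        refine ⟨V, hV3, ?_⟩
        intro v hv
        have h1 := hV v hv
        have h2 : 0 ≤ (ε / φ z) * (1 / φ z * (fderiv ℝ φ z v) ^ 2 - hess Γ φ z v v) :=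
          mul_nonneg (by positivity) (by linarith)
        have h4 := hcK z hz.le v
        have h5 := hqΓ v
        have h6 : 0 ≤ c * ‖v‖ ^ 2 := by positivity
        rw [hquad]
        linarith
      · obtain ⟨b, hb⟩ := exists_linearIndependent_of_le_finrank h3
        obtain ⟨V, hV3⟩ : ∃ V : Submodule ℝ E, finrank ℝ V = 3 :=
          ⟨Submodule.span ℝ (Set.range b), by rw [finrank_span_eq_card hb, Fintype.card_fin]⟩
        refine ⟨V, hV3, ?_⟩
        intro v _
        have h1 := hhK z hz.le v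
        rw [Real.norm_eq_abs] at h1
        have h2 : -(c / 4 * ‖v‖ ^ 2) ≤
            (ε / φ z) * (1 / φ z * (fderiv ℝ φ z v) ^ 2 - hess Γ φ z v v) := by
          have h6 : 0 ≤ (ε / φ z) * (1 / φ z * (fderiv ℝ φ z v) ^ 2) := by positivity
          have h7 : (ε / φ z) * hess Γ φ z v v ≤ (ε / φ z) * (h * ‖v‖ ^ 2) :=
            mul_le_mul_of_nonneg_left ((le_abs_self _).trans h1) (by positivity)
          have h8 : (ε / φ z) * (h * ‖v‖ ^ 2) ≤ (ε / δ₁) * (h * ‖v‖ ^ 2) := by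
            apply mul_le_mul_of_nonneg_right _ (by positivity)
            exact div_le_div_of_nonneg_left hεpos.le hδ₁ hge
          have h9 : (ε / δ₁) * (h * ‖v‖ ^ 2) = c / 4 * ‖v‖ ^ 2 := by
            rw [hε]; field_simp
          rw [mul_sub]
          linarith
        have h4 := hcK z hz.le v
        have h5 := hqΓ v
        rw [hquad]
        linarith
    refine ⟨V, hV3, ⟨φ z * (c / 2), by positivity, ?_⟩, ?_, ?_⟩
    · intro v hv
      rw [smul_apply, real_inner_smul_left, mul_assoc]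
      exact mul_le_mul_of_nonneg_left (hVpos v hv) hz.le
    · intro v w
      rw [smul_apply, smul_apply, real_inner_smul_left, real_inner_smul_right,
        real_inner_comm (G' z w) v, hinner, hinner, hsymf v w, hsymφ v w]
      ring
    · have hdet := hq z hz hGq
      have hinj : Function.Injective (G' z) := by
        have h1 : LinearMap.det (G' z : E →ₗ[ℝ] E) ≠ 0 := hdet
        have h2 : LinearMap.ker (G' z : E →ₗ[ℝ] E) = ⊥ := by
          by_contra hker
          exact h1 (LinearMap.det_eq_zero_iff_ker_ne_bot.mpr hker)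
        exact LinearMap.ker_eq_bot.mp h2
      intro v w hvw
      rw [smul_apply, smul_apply] at hvw
      exact hinj (smul_right_injective E hz.ne' hvw)

end Pool.Agent.Lib.MP_df705a_gt
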