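import Pool.Agent.Lib.MP_df705a_gt.Boundary4
import Pool.Agent.Lib.MP_df705a_gt.Morse2
import Pool.Agent.Lib.MP_df705a_gt.Curv

open scoped Manifold ContDiff
open Bundle Filter Topology Module

noncomputable section

namespace Pool.Agent.Lib.MP_df705a_gt

open scoped Shortcuts

/-! ### The scalar curvature only depends on the germ of the metric -/

theorem chr_congr {m : ℕ} {h h' : FormField m} {y : Co m} (he : h =ᶠ[𝓝 y] h') (u v w : Co m) :
    chr h y u v w = chr h' y u v w := by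
  have key : ∀ a b : Co m, (fun z => h z a b) =ᶠ[𝓝 y] fun z => h' z a b := by
    intro a b
    filter_upwards [he] with z hz
    rw [hz]
  unfold chr
  rw [(key v w).fderiv_eq, (key u w).fderiv_eq, (key u v).fderiv_eq]

theorem scal_congr {m : ℕ} {h h' : FormField m} {y : Co m} (he : h =ᶠ[𝓝 y] h') :
    scal h y = scal h' y := by
  have hval : h y = h' y := he.self_of_nhds
  have hchr : ∀ u v w, (fun z => chr h z u v w) =ᶠ[𝓝 y] fun z => chr h' z u v w := by
    intro u v w
    filter_upwards [he.eventually_nhds] with z hz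
    exact chr_congr hz u v w
  have hinv : invGram h y = invGram h' y := by
    unfold invGram
    rw [hval]
  unfold scal riem
  simp only [hinv, chr_congr he]
  simp only [(hchr _ _ _).fderiv_eq]

/-- The main theorem, for a compact space with local parametrizations. -/
theorem not_aspherical_core {n : ℕ} {M : Type*} [TopologicalSpace M] [CompactSpace M]
    [ConnectedSpace M] (h : FormField (n + 1)) (hh : IsMetric h)
    (φ : Co (n + 1) → ℝ) (hφ : ContDiff ℝ 2 φ) (hK : IsCompact {x | 0 ≤ φ x})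
    (hreg : ∀ x, φ x = 0 → fderiv ℝ φ x ≠ 0)
    (f : Co (n + 1) → ℝ) (hf : ContDiff ℝ 2 f)
    (hconv : ∀ x, 0 ≤ φ x → ∀ v, v ≠ 0 → 0 < covHess h f x v v)
    (hcurv : ∀ x, φ x = 0 → ∀ u v, fderiv ℝ φ x u = 0 → fderiv ℝ φ x v = 0 →
      riem h x u v v u ≤ 0)
    (ι : M → Co (n + 1)) (hι : Continuous ι) (hinj : Function.Injective ι)
    (hrange : Set.range ι = {x | φ x = 0})
    (ψ : M → Co n → Co (n + 1)) (yc : M → Co n) (hψx : ∀ x, ψ x (yc x) = ι x)
    (hψz : ∀ x y, φ (ψ x y) = 0) (hBD : ∀ x, BD h φ (ψ x) (yc x))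
    (hscal : ∀ x, 0 < scal (pull h (ψ x)) (yc x)) :
    ¬ Curv.IsAspherical M := by
  rintro ⟨Y, hY, p, hYc, hp, hps⟩
  have hφc : Continuous φ := hφ.continuous
  have hcurv' : ∀ x u v, fderiv ℝ φ (ψ x (yc x)) u = 0 →
      fderiv ℝ φ (ψ x (yc x)) v = 0 →
      riem h (ψ x (yc x)) u v v u ≤ 0 := fun x u v hu hv =>
    hcurv _ (hψz x _) u v hu hv
  -- the trace does not vanish
  have hne : ∀ z, φ z = 0 → bdTrace h φ z ≠ 0 := by
    intro z hz
    have hzr : z ∈ Set.range ι := by rw [hrange]; exact hz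
    obtain ⟨x, rfl⟩ := hzr
    have b := hBD x
    have h1 := b.trace_lt (hcurv' x) (hscal x)
    have h2 := trace_sq_nonneg _ _ b.invGram_posSemidef b.A_symm
    rw [b.trace_eq_bdTrace, hψx] at h1
    intro h0
    rw [h0] at h1
    linarith
  -- the point of `K` where `f` is maximal
  obtain ⟨x₀⟩ : Nonempty M := inferInstance
  have hKne : ({x | 0 ≤ φ x} : Set (Co (n + 1))).Nonempty := by
    refine ⟨ι x₀, ?_⟩
    have : ι x₀ ∈ Set.range ι := ⟨x₀, rfl⟩
    rw [hrange] at this
    exact (show φ (ι x₀) = 0 from this).ge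
  obtain ⟨z₁, hz₁K, hz₁max⟩ := hK.exists_isMaxOn hKne hf.continuous.continuousOn
  have hz₁ : φ z₁ = 0 := by
    by_contra hne0
    have hpos : 0 < φ z₁ := lt_of_le_of_ne hz₁K (Ne.symm hne0)
    have hloc : IsLocalMax f z₁ := by
      have : ∀ᶠ y in 𝓝 z₁, 0 < φ y := (isOpen_lt continuous_const hφc).mem_nhds hpos
      filter_upwards [this] with y hy
      exact hz₁max (show 0 ≤ φ y from hy.le)
    have h1 : fderiv ℝ f z₁ = 0 := hloc.fderiv_eq_zero
    have h2 := second_le_zero hf.contDiffAt hloc (ev 0)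
    have hev : (ev 0 : Co (n + 1)) ≠ 0 := by
      intro h0
      have := congrArg (fun v : Co (n + 1) => v 0) h0
      simp [ev] at this
    have h3 := hconv z₁ hpos.le (ev 0) hev
    rw [covHess_eq hh, h1] at h3
    simp only [zero_apply, sub_zero] at h3
    linarith
  have hz₁r : z₁ ∈ Set.range ι := by rw [hrange]; exact hz₁
  obtain ⟨x₁, hx₁⟩ := hz₁r
  have htr1 : 0 < bdTrace h φ z₁ := by
    have b := hBD x₁
    have hmax : IsLocalMax (fun y => f (ψ x₁ y)) (yc x₁) := by
      apply Eventually.of_forall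
      intro y
      simp only [hψx, hx₁]
      exact hz₁max (show 0 ≤ φ (ψ x₁ y) from (hψz x₁ y).ge)
    have hn : fderiv ℝ f (ψ x₁ (yc x₁))
        (nrm h φ (ψ x₁ (yc x₁))) ≤ 0 := by
      by_contra hcon
      rw [not_le] at hcon
      have hc := b.cpos
      rw [hψx, hx₁] at hcon hc
      have h1 : fderiv ℝ (fun z => f z₁ - f z) z₁ (nrm h φ z₁) < 0 := by
        rw [fderiv_const_sub]
        simpa using hcon
      have h2 : fderiv ℝ (fun z => -φ z) z₁ (nrm h φ z₁) < 0 := by
        rw [fderiv_fun_neg]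
        simpa using hc
      have h3 := (exists_neg_of_deriv_neg (x := z₁) (v := nrm h φ z₁)
        (((hf.differentiable two_ne_zero) z₁).const_sub (f z₁)) (by simp) h1).1
      have h4 := (exists_neg_of_deriv_neg (x := z₁) (v := nrm h φ z₁)
        ((hφ.differentiable two_ne_zero) z₁).fun_neg (by simp [hz₁]) h2).1
      obtain ⟨t, ht1, ht2⟩ := (h3.and h4).exists
      have h5 : 0 ≤ φ (z₁ + t • nrm h φ z₁) := by linarith
      have h6 : f (z₁ + t • nrm h φ z₁) ≤ f z₁ := hz₁max h5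
      linarith
    have h1 := b.trace_nonneg_of_max hf hmax hn (fun v hv => hconv _ (hψz x₁ _).ge v hv)
    rw [b.trace_eq_bdTrace, hψx, hx₁] at h1
    exact lt_of_le_of_ne h1 (Ne.symm (hne z₁ hz₁))
  -- the trace is positive everywhere
  have hconn : IsPreconnected {x | φ x = 0} := by
    rw [← hrange]
    exact isPreconnected_range hι
  have htr : ∀ z, φ z = 0 → 0 < bdTrace h φ z := by
    intro z hz
    by_contra hcon
    rw [not_lt] at hcon
    have himg := hconn.image _ (continuousOn_bdTrace hh hφ hreg)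
    have h0 : (0 : ℝ) ∈ bdTrace h φ '' {x | φ x = 0} :=
      himg.ordConnected.out ⟨z, hz, rfl⟩ ⟨z₁, hz₁, rfl⟩ ⟨hcon, htr1.le⟩
    obtain ⟨w, hw, hw0⟩ := h0
    exact hne w hw hw0
  have hcc : ∀ z, φ z = 0 → ∃ S : Submodule ℝ (Co (n + 1)), finrank ℝ S = 2 ∧
      (∀ v ∈ S, fderiv ℝ φ z v = 0) ∧ ∀ v ∈ S, v ≠ 0 → hess (gam h) φ z v v < 0 := by
    intro z hz
    have hzr : z ∈ Set.range ι := by rw [hrange]; exact hz
    obtain ⟨x, rfl⟩ := hzr
    have b := hBD x
    obtain ⟨S, hS2, hSk, hSn⟩ := b.two_concave (hcurv' x) (hscal x) (by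
      rw [b.trace_eq_bdTrace, hψx]
      exact htr _ hz)
    rw [hψx] at hSk hSn
    refine ⟨S, hS2, hSk, ?_⟩
    intro v hv hv0
    rw [hess_gam hh]
    exact hSn v hv hv0
  -- the dimension
  have hn2 : 2 ≤ n := by
    obtain ⟨S, hS2, hSk, _⟩ := hcc z₁ hz₁
    set ℓ : Co (n + 1) →ₗ[ℝ] ℝ := (fderiv ℝ φ z₁ : Co (n + 1) →ₗ[ℝ] ℝ) with hℓ
    have h1 := LinearMap.finrank_range_add_finrank_ker ℓ
    have h2 : LinearMap.range ℓ = ⊤ := by
      apply LinearMap.range_eq_top.mpr
      apply LinearMap.surjective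
      intro h0
      apply hreg z₁ hz₁
      ext v
      exact congrArg (fun L : Co (n + 1) →ₗ[ℝ] ℝ => L v) h0
    rw [h2, finrank_top, finrank_self, finrank_euclideanSpace_fin] at h1
    have h3 : S ≤ LinearMap.ker ℓ := fun v hv => hSk v hv
    have h4 := Submodule.finrank_mono h3
    omega
  obtain ⟨k, rfl⟩ : ∃ k, n = k + 2 := ⟨n - 2, by omega⟩
  obtain ⟨X, F, hT⟩ := exists_trap (E := Co (k + 2 + 1))
    (by rw [finrank_euclideanSpace_fin]; omega) φ f hφ hf hK hreg (gam h) (continuous_gam hh)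
    (fun x hx v hv => by rw [hess_gam hh]; exact hconv x hx v hv) hcc
  -- the covering of the boundary
  let e₀ : M → {x // φ x = 0} := fun x => ⟨ι x, by
    have : ι x ∈ Set.range ι := ⟨x, rfl⟩
    rw [hrange] at this
    exact this⟩
  have he₀c : Continuous e₀ := hι.subtype_mk _
  have he₀b : Function.Bijective e₀ := by
    constructor
    · intro a c hac
      exact hinj (congrArg Subtype.val hac)
    · rintro ⟨z, hz⟩
      have hzr : z ∈ Set.range ι := by rw [hrange]; exact hz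
      obtain ⟨x, rfl⟩ := hzr
      exact ⟨x, rfl⟩
  let E₀ : M ≃ {x // φ x = 0} := Equiv.ofBijective e₀ he₀b
  let H₀ : M ≃ₜ {x // φ x = 0} := Continuous.homeoOfEquivCompactToT2 (f := E₀) he₀c
  exact hT.core (k := k) (by omega) (H₀ ∘ p) (hp.homeomorph_comp H₀) (H₀.surjective.comp hps)

end Pool.Agent.Lib.MP_df705a_gt
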