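import Mathlib

open Set Metric Filter Topology
open scoped NNReal

namespace Pool.Agent.Lib.MP_df705a_gt

/-- Global solutions of an autonomous equation with a bounded globally Lipschitz field. -/
theorem exists_sol {E : Type*} [NormedAddCommGroup E] [NormedSpace ℝ E] [CompleteSpace E]
    (X : E → E) (L B : ℝ≥0) (hL : LipschitzWith L X) (hB : ∀ x, ‖X x‖ ≤ B) (x : E) (n : ℕ) :
    ∃ α : ℝ → E, α 0 = x ∧
      ∀ t ∈ Ioo (-((n : ℝ) + 1)) ((n : ℝ) + 1), HasDerivAt α (X (α t)) t := by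
  have hn : (0 : ℝ) < (n : ℝ) + 1 := by positivity
  let t₀ : Icc (-((n : ℝ) + 1)) ((n : ℝ) + 1) := ⟨0, by constructor <;> linarith⟩
  have hpl : IsPicardLindelof (fun _ ↦ X) t₀ x (B * ((n : ℝ≥0) + 1)) 0 B L := by
    apply IsPicardLindelof.of_time_independent
    · intro y _
      exact hB y
    · exact hL.lipschitzOnWith
    · simp [t₀]
  obtain ⟨α, h0, hα⟩ := hpl.exists_eq_forall_mem_Icc_hasDerivWithinAt₀
  refine ⟨α, h0, ?_⟩
  intro t ht
  exact (hα t (Ioo_subset_Icc_self ht)).hasDerivAt (Icc_mem_nhds ht.1 ht.2)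

/-- The global flow of a bounded globally Lipschitz field. -/
theorem exists_flow {E : Type*} [NormedAddCommGroup E] [NormedSpace ℝ E] [CompleteSpace E]
    (X : E → E) (L B : ℝ≥0) (hL : LipschitzWith L X) (hB : ∀ x, ‖X x‖ ≤ B) :
    ∃ Φ : ℝ → E → E, (∀ x, Φ 0 x = x) ∧
      (∀ x t, HasDerivAt (fun s => Φ s x) (X (Φ t x)) t) ∧
      (∀ s t x, Φ (s + t) x = Φ s (Φ t x)) ∧
      (∀ t x y, dist (Φ t x) (Φ t y) ≤ Real.exp (L * |t|) * dist x y) ∧
      Continuous (fun p : ℝ × E => Φ p.1 p.2) := by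
  choose α h0 hα using exists_sol X L B hL hB
  have key : ∀ x : E, ∀ n m : ℕ, ∀ t : ℝ, |t| < (n : ℝ) + 1 → |t| < (m : ℝ) + 1 →
      α x n t = α x m t := by
    intro x n m t hn hm
    set r : ℝ := min ((n : ℝ) + 1) ((m : ℝ) + 1) with hr
    have hrpos : 0 < r := by
      rw [hr]; positivity
    have ht : t ∈ Ioo (-r) r := by
      rw [mem_Ioo, ← abs_lt]
      exact lt_min hn hm
    have hsub1 : Ioo (-r) r ⊆ Ioo (-((n : ℝ) + 1)) ((n : ℝ) + 1) :=
      Ioo_subset_Ioo (neg_le_neg (min_le_left _ _)) (min_le_left _ _)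
    have hsub2 : Ioo (-r) r ⊆ Ioo (-((m : ℝ) + 1)) ((m : ℝ) + 1) :=
      Ioo_subset_Ioo (neg_le_neg (min_le_right _ _)) (min_le_right _ _)
    refine ODE_solution_unique_of_mem_Ioo (v := fun _ => X) (s := fun _ => univ) (K := L)
      (t₀ := 0) (fun _ _ => hL.lipschitzOnWith) ⟨by linarith, hrpos⟩
      (fun s hs => ⟨hα x n s (hsub1 hs), mem_univ _⟩)
      (fun s hs => ⟨hα x m s (hsub2 hs), mem_univ _⟩) (by rw [h0, h0]) ht
  let Φ : ℝ → E → E := fun t x => α x ⌈|t|⌉₊ t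
  have hceil : ∀ t : ℝ, |t| < (⌈|t|⌉₊ : ℝ) + 1 := fun t =>
    lt_of_le_of_lt (Nat.le_ceil _) (by linarith)
  have hΦ0 : ∀ x, Φ 0 x = x := by
    intro x
    simp only [Φ]
    rw [h0]
  have hΦd : ∀ x t, HasDerivAt (fun s => Φ s x) (X (Φ t x)) t := by
    intro x t
    have h1 : HasDerivAt (α x ⌈|t|⌉₊) (X (α x ⌈|t|⌉₊ t)) t :=
      hα x ⌈|t|⌉₊ t (by rw [mem_Ioo, ← abs_lt]; exact hceil t)
    refine h1.congr_of_eventuallyEq ?_
    have hopen : ∀ᶠ s in 𝓝 t, |s| < (⌈|t|⌉₊ : ℝ) + 1 :=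
      (isOpen_lt continuous_abs continuous_const).mem_nhds (hceil t)
    filter_upwards [hopen] with s hs
    exact key x _ _ s (hceil s) hs
  have hΦs : ∀ s t x, Φ (s + t) x = Φ s (Φ t x) := by
    intro s t x
    have := ODE_solution_unique_univ (v := fun _ => X) (s := fun _ => univ) (K := L) (t₀ := 0)
      (f := fun s => Φ (s + t) x) (g := fun s => Φ s (Φ t x))
      (fun _ => hL.lipschitzOnWith)
      (fun u => ⟨by
        have h := hΦd x (u + t)
        exact h.comp_add_const u t, mem_univ _⟩)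
      (fun u => ⟨hΦd (Φ t x) u, mem_univ _⟩)
      (by simp [hΦ0])
    exact congrFun this s
  have hpos : ∀ t, 0 ≤ t → ∀ x y, dist (Φ t x) (Φ t y) ≤ Real.exp (L * t) * dist x y := by
    intro t ht x y
    have := dist_le_of_trajectories_ODE (v := fun _ => X) (K := L) (a := 0) (b := t)
      (f := fun s => Φ s x) (g := fun s => Φ s y) (δ := dist x y) (fun _ => hL)
      (fun s _ => (hΦd x s).continuousAt.continuousWithinAt)
      (fun s _ => (hΦd x s).hasDerivWithinAt)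
      (fun s _ => (hΦd y s).continuousAt.continuousWithinAt)
      (fun s _ => (hΦd y s).hasDerivWithinAt) (by simp [hΦ0]) t ⟨ht, le_rfl⟩
    rw [sub_zero, mul_comm] at this
    exact this
  have hLneg : LipschitzWith L (fun x => -X x) := hL.neg
  have hneg : ∀ t, 0 ≤ t → ∀ x y, dist (Φ (-t) x) (Φ (-t) y) ≤ Real.exp (L * t) * dist x y := by
    intro t ht x y
    have hd : ∀ x s, HasDerivAt (fun u => Φ (-u) x) (-X (Φ (-s) x)) s := by
      intro x s
      have h1 := (hΦd x (-s)).scomp s (hasDerivAt_neg s)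
      rw [neg_smul, one_smul] at h1
      exact h1
    have := dist_le_of_trajectories_ODE (v := fun _ => fun x => -X x) (K := L) (a := 0) (b := t)
      (f := fun s => Φ (-s) x) (g := fun s => Φ (-s) y) (δ := dist x y) (fun _ => hLneg)
      (fun s _ => (hd x s).continuousAt.continuousWithinAt)
      (fun s _ => (hd x s).hasDerivWithinAt)
      (fun s _ => (hd y s).continuousAt.continuousWithinAt)
      (fun s _ => (hd y s).hasDerivWithinAt) (by simp [hΦ0]) t ⟨ht, le_rfl⟩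
    rw [sub_zero, mul_comm] at this
    exact this
  have hdist : ∀ t x y, dist (Φ t x) (Φ t y) ≤ Real.exp (L * |t|) * dist x y := by
    intro t x y
    rcases le_total 0 t with ht | ht
    · rw [abs_of_nonneg ht]
      exact hpos t ht x y
    · rw [abs_of_nonpos ht]
      have := hneg (-t) (by linarith) x y
      rwa [neg_neg] at this
  refine ⟨Φ, hΦ0, hΦd, hΦs, hdist, ?_⟩
  rw [continuous_iff_continuousAt]
  rintro ⟨t₀, x₀⟩
  rw [Metric.continuousAt_iff]
  intro ε hε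
  have hcont : ContinuousAt (fun s => Φ s x₀) t₀ := (hΦd x₀ t₀).continuousAt
  rw [Metric.continuousAt_iff] at hcont
  obtain ⟨δ₁, hδ₁, h1⟩ := hcont (ε / 2) (by linarith)
  set C : ℝ := Real.exp (L * (|t₀| + 1)) with hC
  have hCpos : 0 < C := Real.exp_pos _
  refine ⟨min (min δ₁ 1) (ε / 2 / C), by positivity, ?_⟩
  rintro ⟨t, x⟩ hd
  rw [Prod.dist_eq, max_lt_iff] at hd
  obtain ⟨hdt, hdx⟩ := hd
  simp only at hdt hdx
  have hdt1 : dist t t₀ < δ₁ := lt_of_lt_of_le hdt ((min_le_left _ _).trans (min_le_left _ _))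
  have hdt2 : dist t t₀ < 1 := lt_of_lt_of_le hdt ((min_le_left _ _).trans (min_le_right _ _))
  have hdx1 : dist x x₀ < ε / 2 / C := lt_of_lt_of_le hdx (min_le_right _ _)
  have htabs : |t| ≤ |t₀| + 1 := by
    rw [Real.dist_eq] at hdt2
    have := abs_sub_abs_le_abs_sub t t₀
    linarith
  have h2 : dist (Φ t x) (Φ t x₀) < ε / 2 := by
    calc dist (Φ t x) (Φ t x₀) ≤ Real.exp (L * |t|) * dist x x₀ := hdist t x x₀
      _ ≤ C * dist x x₀ := by
          apply mul_le_mul_of_nonneg_right _ dist_nonneg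
          rw [hC]
          apply Real.exp_le_exp.mpr
          exact mul_le_mul_of_nonneg_left htabs L.coe_nonneg
      _ < C * (ε / 2 / C) := by
          apply mul_lt_mul_of_pos_left hdx1 hCpos
      _ = ε / 2 := by field_simp
  calc dist (Φ t x) (Φ t₀ x₀) ≤ dist (Φ t x) (Φ t x₀) + dist (Φ t x₀) (Φ t₀ x₀) :=
        dist_triangle _ _ _
    _ < ε / 2 + ε / 2 := add_lt_add h2 (h1 hdt1)
    _ = ε := by ring

end Pool.Agent.Lib.MP_df705a_gt
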