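import Pool.Agent.Lib.MP_df705a_gt.Defs

open scoped Manifold ContDiff
open Bundle Filter Topology

noncomputable section

namespace Pool.Agent.Lib.MP_df705a_gt

namespace Shortcuts

variable {E : Type*} [NormedAddCommGroup E] [NormedSpace ℝ E]

scoped instance sc1 : NormedAddCommGroup (E →L[ℝ] ℝ) := inferInstance
scoped instance sc2 : NormedSpace ℝ (E →L[ℝ] ℝ) := inferInstance
scoped instance sc3 : NormedAddCommGroup (E →L[ℝ] E →L[ℝ] ℝ) := inferInstance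
scoped instance sc4 : NormedSpace ℝ (E →L[ℝ] E →L[ℝ] ℝ) := inferInstance
scoped instance sc5 : NormedAddCommGroup (E →L[ℝ] E →L[ℝ] E →L[ℝ] ℝ) := inferInstance
scoped instance sc6 : NormedSpace ℝ (E →L[ℝ] E →L[ℝ] E →L[ℝ] ℝ) := inferInstance

end Shortcuts

open scoped Shortcuts

section calculus

variable {U E : Type*} [NormedAddCommGroup U] [NormedSpace ℝ U] [NormedAddCommGroup E]
  [NormedSpace ℝ E]

theorem hasFDerivAt_clm2 {T : U → E →L[ℝ] E →L[ℝ] ℝ} {a b : U → E}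
    {T' : U →L[ℝ] E →L[ℝ] E →L[ℝ] ℝ} {a' b' : U →L[ℝ] E} {y : U}
    (hT : HasFDerivAt T T' y) (ha : HasFDerivAt a a' y) (hb : HasFDerivAt b b' y) :
    ∃ L : U →L[ℝ] ℝ, HasFDerivAt (fun y => T y (a y) (b y)) L y ∧
      ∀ u, L u = T' u (a y) (b y) + T y (a' u) (b y) + T y (a y) (b' u) := by
  refine ⟨_, (hT.clm_apply ha).clm_apply hb, ?_⟩
  intro u
  simp
  ring

theorem hasFDerivAt_clm3 {T : U → E →L[ℝ] E →L[ℝ] E →L[ℝ] ℝ} {a b c : U → E}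
    {T' : U →L[ℝ] E →L[ℝ] E →L[ℝ] E →L[ℝ] ℝ} {a' b' c' : U →L[ℝ] E} {y : U}
    (hT : HasFDerivAt T T' y) (ha : HasFDerivAt a a' y) (hb : HasFDerivAt b b' y)
    (hc : HasFDerivAt c c' y) :
    ∃ L : U →L[ℝ] ℝ, HasFDerivAt (fun y => T y (a y) (b y) (c y)) L y ∧
      ∀ u, L u = T' u (a y) (b y) (c y) + T y (a' u) (b y) (c y) + T y (a y) (b' u) (c y)
        + T y (a y) (b y) (c' u) := by
  refine ⟨_, ((hT.clm_apply ha).clm_apply hb).clm_apply hc, ?_⟩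
  intro u
  simp
  ring

end calculus

variable {n N : ℕ}

/-- The Christoffel symbols in terms of the derivative of the field of forms. -/
theorem chr_eq {h : FormField N} {x : Co N} (hd : DifferentiableAt ℝ h x) (u v w : Co N) :
    chr h x u v w = (fderiv ℝ h x u v w + fderiv ℝ h x v u w - fderiv ℝ h x w u v) / 2 := by
  have key : ∀ a b c : Co N, fderiv ℝ (fun y => h y b c) x a = fderiv ℝ h x a b c := by
    intro a b c
    obtain ⟨L, hL, hLu⟩ := hasFDerivAt_clm2 hd.hasFDerivAt (hasFDerivAt_const b x)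
      (hasFDerivAt_const c x)
    rw [hL.fderiv, hLu]
    simp
  unfold chr
  rw [key, key, key]

/-- The derivative of the Christoffel symbols. -/
theorem fderiv_chr {h : FormField N} (hd : Differentiable ℝ h)
    (hd2 : Differentiable ℝ (fderiv ℝ h)) (x u v w z : Co N) :
    fderiv ℝ (fun y => chr h y v w z) x u =
      (fderiv ℝ (fderiv ℝ h) x u v w z + fderiv ℝ (fderiv ℝ h) x u w v z
        - fderiv ℝ (fderiv ℝ h) x u z v w) / 2 := by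
  have e1 : (fun y => chr h y v w z) = fun y =>
      (fderiv ℝ h y v w z + fderiv ℝ h y w v z - fderiv ℝ h y z v w) / 2 := by
    funext y
    exact chr_eq (hd y) v w z
  have key : ∀ a b c : Co N, ∃ L : Co N →L[ℝ] ℝ,
      HasFDerivAt (fun y => fderiv ℝ h y a b c) L x ∧
      ∀ u, L u = fderiv ℝ (fderiv ℝ h) x u a b c := by
    intro a b c
    obtain ⟨L, hL, hLu⟩ := hasFDerivAt_clm3 (hd2 x).hasFDerivAt (hasFDerivAt_const a x)
      (hasFDerivAt_const b x) (hasFDerivAt_const c x)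
    refine ⟨L, hL, ?_⟩
    intro u
    rw [hLu]
    simp
  obtain ⟨L1, hL1, hL1u⟩ := key v w z
  obtain ⟨L2, hL2, hL2u⟩ := key w v z
  obtain ⟨L3, hL3, hL3u⟩ := key z v w
  have h4 : HasFDerivAt (fun y =>
      (fderiv ℝ h y v w z + fderiv ℝ h y w v z - fderiv ℝ h y z v w) / 2)
      ((1 / 2 : ℝ) • (L1 + L2 - L3)) x := by
    have h5 := ((hL1.fun_add hL2).fun_sub hL3).const_mul (1 / 2 : ℝ)
    refine h5.congr_of_eventuallyEq (Eventually.of_forall fun y => ?_)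
    ring
  rw [e1, h4.fderiv]
  simp [hL1u, hL2u, hL3u]
  ring

/-- The pullback of a field of forms. -/
def pull (h : FormField N) (ψ : Co n → Co N) : FormField n := fun y =>
  (h (ψ y)).bilinearComp (fderiv ℝ ψ y) (fderiv ℝ ψ y)

theorem pull_apply (h : FormField N) (ψ : Co n → Co N) (y v w : Co n) :
    pull h ψ y v w = h (ψ y) (fderiv ℝ ψ y v) (fderiv ℝ ψ y w) := rfl

theorem hasFDerivAt_clm1 {U V W : Type*} [NormedAddCommGroup U] [NormedSpace ℝ U]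
    [NormedAddCommGroup V] [NormedSpace ℝ V] [NormedAddCommGroup W] [NormedSpace ℝ W]
    {T : U → V →L[ℝ] W} {T' : U →L[ℝ] V →L[ℝ] W} {y : U} (hT : HasFDerivAt T T' y) (v : V) :
    HasFDerivAt (fun y => T y v) (T'.flip v) y := by
  have h1 := hT.clm_apply (hasFDerivAt_const v y)
  simpa using h1

theorem fderiv_pull {h : FormField N} {ψ : Co n → Co N} {y : Co n} (hψ : ContDiffAt ℝ 2 ψ y)
    (hh : DifferentiableAt ℝ h (ψ y)) (u v w : Co n) :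
    fderiv ℝ (fun y => pull h ψ y v w) y u =
      fderiv ℝ h (ψ y) (fderiv ℝ ψ y u) (fderiv ℝ ψ y v) (fderiv ℝ ψ y w)
      + h (ψ y) (fderiv ℝ (fderiv ℝ ψ) y u v) (fderiv ℝ ψ y w)
      + h (ψ y) (fderiv ℝ ψ y v) (fderiv ℝ (fderiv ℝ ψ) y u w) := by
  have h1 : HasFDerivAt ψ (fderiv ℝ ψ y) y := (hψ.differentiableAt two_ne_zero).hasFDerivAt
  have h2 : HasFDerivAt (fderiv ℝ ψ) (fderiv ℝ (fderiv ℝ ψ) y) y :=
    ((hψ.fderiv_right (m := 1) (by norm_num)).differentiableAt one_ne_zero).hasFDerivAt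
  have h3 : HasFDerivAt (fun y => h (ψ y)) ((fderiv ℝ h (ψ y)).comp (fderiv ℝ ψ y)) y :=
    hh.hasFDerivAt.comp y h1
  obtain ⟨L, hL, hLu⟩ := hasFDerivAt_clm2 h3 (hasFDerivAt_clm1 h2 v) (hasFDerivAt_clm1 h2 w)
  have h4 : (fun y => pull h ψ y v w) =
      fun y => h (ψ y) (fderiv ℝ ψ y v) (fderiv ℝ ψ y w) := rfl
  rw [h4, hL.fderiv, hLu]
  simp

theorem chr_pull {h : FormField N} (hsymm : ∀ x a b, h x a b = h x b a) {ψ : Co n → Co N}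
    {y : Co n} (hψ : ContDiffAt ℝ 2 ψ y) (hh : DifferentiableAt ℝ h (ψ y)) (u v w : Co n) :
    chr (pull h ψ) y u v w = h (ψ y) (fderiv ℝ (fderiv ℝ ψ) y u v) (fderiv ℝ ψ y w)
      + chr h (ψ y) (fderiv ℝ ψ y u) (fderiv ℝ ψ y v) (fderiv ℝ ψ y w) := by
  have hs : ∀ a b, fderiv ℝ (fderiv ℝ ψ) y a b = fderiv ℝ (fderiv ℝ ψ) y b a := by
    have := hψ.isSymmSndFDerivAt (by simp)
    intro a b
    exact this.eq a b
  rw [chr_eq hh]
  unfold chr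
  rw [fderiv_pull hψ hh, fderiv_pull hψ hh, fderiv_pull hψ hh, hs v u, hs w u, hs w v,
    hsymm _ (fderiv ℝ ψ y v) (fderiv ℝ (fderiv ℝ ψ) y u w),
    hsymm _ (fderiv ℝ ψ y u) (fderiv ℝ (fderiv ℝ ψ) y v w)]
  ring

theorem fderiv_chr_pull {h : FormField N} (hsymm : ∀ x a b, h x a b = h x b a)
    (hd : Differentiable ℝ h) (hd2 : Differentiable ℝ (fderiv ℝ h))
    {ψ : Co n → Co N} {y : Co n} (hψ : ContDiffAt ℝ 3 ψ y) (u v w z : Co n) :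
    fderiv ℝ (fun y => chr (pull h ψ) y v w z) y u =
      (fderiv ℝ h (ψ y) (fderiv ℝ ψ y u) (fderiv ℝ (fderiv ℝ ψ) y v w) (fderiv ℝ ψ y z)
        + h (ψ y) (fderiv ℝ (fderiv ℝ (fderiv ℝ ψ)) y u v w) (fderiv ℝ ψ y z)
        + h (ψ y) (fderiv ℝ (fderiv ℝ ψ) y v w) (fderiv ℝ (fderiv ℝ ψ) y u z))
      + ((fderiv ℝ (fderiv ℝ h) (ψ y) (fderiv ℝ ψ y u) (fderiv ℝ ψ y v) (fderiv ℝ ψ y w)
            (fderiv ℝ ψ y z)
          + fderiv ℝ h (ψ y) (fderiv ℝ (fderiv ℝ ψ) y u v) (fderiv ℝ ψ y w) (fderiv ℝ ψ y z)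
          + fderiv ℝ h (ψ y) (fderiv ℝ ψ y v) (fderiv ℝ (fderiv ℝ ψ) y u w) (fderiv ℝ ψ y z)
          + fderiv ℝ h (ψ y) (fderiv ℝ ψ y v) (fderiv ℝ ψ y w) (fderiv ℝ (fderiv ℝ ψ) y u z))
        + (fderiv ℝ (fderiv ℝ h) (ψ y) (fderiv ℝ ψ y u) (fderiv ℝ ψ y w) (fderiv ℝ ψ y v)
            (fderiv ℝ ψ y z)
          + fderiv ℝ h (ψ y) (fderiv ℝ (fderiv ℝ ψ) y u w) (fderiv ℝ ψ y v) (fderiv ℝ ψ y z)
          + fderiv ℝ h (ψ y) (fderiv ℝ ψ y w) (fderiv ℝ (fderiv ℝ ψ) y u v) (fderiv ℝ ψ y z)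
          + fderiv ℝ h (ψ y) (fderiv ℝ ψ y w) (fderiv ℝ ψ y v) (fderiv ℝ (fderiv ℝ ψ) y u z))
        - (fderiv ℝ (fderiv ℝ h) (ψ y) (fderiv ℝ ψ y u) (fderiv ℝ ψ y z) (fderiv ℝ ψ y v)
            (fderiv ℝ ψ y w)
          + fderiv ℝ h (ψ y) (fderiv ℝ (fderiv ℝ ψ) y u z) (fderiv ℝ ψ y v) (fderiv ℝ ψ y w)
          + fderiv ℝ h (ψ y) (fderiv ℝ ψ y z) (fderiv ℝ (fderiv ℝ ψ) y u v) (fderiv ℝ ψ y w)
          + fderiv ℝ h (ψ y) (fderiv ℝ ψ y z) (fderiv ℝ ψ y v) (fderiv ℝ (fderiv ℝ ψ) y u w)))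
        / 2 := by
  have hψ2 : ContDiffAt ℝ 2 ψ y := hψ.of_le (by norm_num)
  have h1 : HasFDerivAt ψ (fderiv ℝ ψ y) y := (hψ.differentiableAt (by norm_num)).hasFDerivAt
  have hc2 : ContDiffAt ℝ 2 (fderiv ℝ ψ) y := hψ.fderiv_right (by norm_num)
  have hc3 : ContDiffAt ℝ 1 (fderiv ℝ (fderiv ℝ ψ)) y := hc2.fderiv_right (by norm_num)
  have h2 : HasFDerivAt (fderiv ℝ ψ) (fderiv ℝ (fderiv ℝ ψ) y) y :=
    (hc2.differentiableAt two_ne_zero).hasFDerivAt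
  have h3 : HasFDerivAt (fderiv ℝ (fderiv ℝ ψ)) (fderiv ℝ (fderiv ℝ (fderiv ℝ ψ)) y) y :=
    (hc3.differentiableAt one_ne_zero).hasFDerivAt
  have hh : HasFDerivAt (fun y => h (ψ y)) ((fderiv ℝ h (ψ y)).comp (fderiv ℝ ψ y)) y :=
    (hd (ψ y)).hasFDerivAt.comp y h1
  have hh2 : HasFDerivAt (fun y => fderiv ℝ h (ψ y))
      ((fderiv ℝ (fderiv ℝ h) (ψ y)).comp (fderiv ℝ ψ y)) y :=
    (hd2 (ψ y)).hasFDerivAt.comp y h1
  obtain ⟨L0, hL0, hL0u⟩ := hasFDerivAt_clm2 hh (hasFDerivAt_clm1 (hasFDerivAt_clm1 h3 v) w)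
    (hasFDerivAt_clm1 h2 z)
  obtain ⟨L1, hL1, hL1u⟩ := hasFDerivAt_clm3 hh2 (hasFDerivAt_clm1 h2 v)
    (hasFDerivAt_clm1 h2 w) (hasFDerivAt_clm1 h2 z)
  obtain ⟨L2, hL2, hL2u⟩ := hasFDerivAt_clm3 hh2 (hasFDerivAt_clm1 h2 w)
    (hasFDerivAt_clm1 h2 v) (hasFDerivAt_clm1 h2 z)
  obtain ⟨L3, hL3, hL3u⟩ := hasFDerivAt_clm3 hh2 (hasFDerivAt_clm1 h2 z)
    (hasFDerivAt_clm1 h2 v) (hasFDerivAt_clm1 h2 w)
  have hmain : HasFDerivAt (fun y => chr (pull h ψ) y v w z)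
      (L0 + (1 / 2 : ℝ) • (L1 + L2 - L3)) y := by
    have h5 := hL0.fun_add (((hL1.fun_add hL2).fun_sub hL3).const_mul (1 / 2 : ℝ))
    refine h5.congr_of_eventuallyEq ?_
    filter_upwards [hψ2.eventually (by simp)] with y' hy'
    rw [chr_pull hsymm hy' (hd _), chr_eq (hd _)]
    ring
  rw [hmain.fderiv]
  simp only [add_apply, smul_apply, sub_apply, smul_eq_mul, hL0u, hL1u, hL2u, hL3u,
    ContinuousLinearMap.comp_apply, ContinuousLinearMap.flip_apply]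
  ring

theorem fderiv_symm {h : FormField N} (hsymm : ∀ x a b, h x a b = h x b a) {x : Co N}
    (hd : DifferentiableAt ℝ h x) (a b c : Co N) : fderiv ℝ h x a b c = fderiv ℝ h x a c b := by
  obtain ⟨L, hL, hLu⟩ := hasFDerivAt_clm2 hd.hasFDerivAt (hasFDerivAt_const b x)
    (hasFDerivAt_const c x)
  obtain ⟨L', hL', hLu'⟩ := hasFDerivAt_clm2 hd.hasFDerivAt (hasFDerivAt_const c x)
    (hasFDerivAt_const b x)
  have e : (fun y => h y b c) = fun y => h y c b := by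
    funext y; exact hsymm y b c
  rw [e] at hL
  have h1 := hL.unique hL'
  have h2 := hLu a
  have h3 := hLu' a
  rw [h1] at h2
  rw [h2] at h3
  simpa using h3

/-- The Gauss formula for the derivatives of the Christoffel symbols of the induced metric. -/
theorem gauss_pull {h : FormField N} (hsymm : ∀ x a b, h x a b = h x b a)
    (hd : Differentiable ℝ h) (hd2 : Differentiable ℝ (fderiv ℝ h))
    {ψ : Co n → Co N} {y : Co n} (hψ : ContDiffAt ℝ 3 ψ y) (Γ : Co N → Co N → Co N)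
    (hΓ : ∀ a b c, h (ψ y) (Γ a b) c = chr h (ψ y) a b c)
    (hexp : ∀ a b : Co N, ∑ p, ∑ q, invGram h (ψ y) p q *
      (h (ψ y) a (ev p) * h (ψ y) b (ev q)) = h (ψ y) a b)
    (u v w z : Co n) :
    fderiv ℝ (fun y => chr (pull h ψ) y v w z) y u
        - fderiv ℝ (fun y => chr (pull h ψ) y u w z) y v =
      riem h (ψ y) (fderiv ℝ ψ y u) (fderiv ℝ ψ y v) (fderiv ℝ ψ y w) (fderiv ℝ ψ y z)
      + h (ψ y) (fderiv ℝ (fderiv ℝ ψ) y v w + Γ (fderiv ℝ ψ y v) (fderiv ℝ ψ y w))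
          (fderiv ℝ (fderiv ℝ ψ) y u z + Γ (fderiv ℝ ψ y u) (fderiv ℝ ψ y z))
      - h (ψ y) (fderiv ℝ (fderiv ℝ ψ) y u w + Γ (fderiv ℝ ψ y u) (fderiv ℝ ψ y w))
          (fderiv ℝ (fderiv ℝ ψ) y v z + Γ (fderiv ℝ ψ y v) (fderiv ℝ ψ y z)) := by
  have hψ2 : ContDiffAt ℝ 2 ψ y := hψ.of_le (by norm_num)
  have hs2 : ∀ a b, fderiv ℝ (fderiv ℝ ψ) y a b = fderiv ℝ (fderiv ℝ ψ) y b a := by
    have := hψ2.isSymmSndFDerivAt (by simp)
    intro a b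
    exact this.eq a b
  have hs3 : ∀ a b c, fderiv ℝ (fderiv ℝ (fderiv ℝ ψ)) y a b c =
      fderiv ℝ (fderiv ℝ (fderiv ℝ ψ)) y b a c := by
    have hc2 : ContDiffAt ℝ 2 (fderiv ℝ ψ) y := hψ.fderiv_right (by norm_num)
    have := hc2.isSymmSndFDerivAt (by simp)
    intro a b c
    rw [this.eq a b]
  have hsum : ∀ a b c d : Co N, ∑ p, ∑ q, invGram h (ψ y) p q *
      (chr h (ψ y) a c (ev p) * chr h (ψ y) b d (ev q)
        - chr h (ψ y) b c (ev p) * chr h (ψ y) a d (ev q)) =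
      h (ψ y) (Γ a c) (Γ b d) - h (ψ y) (Γ b c) (Γ a d) := by
    intro a b c d
    rw [← hexp (Γ a c) (Γ b d), ← hexp (Γ b c) (Γ a d), ← Finset.sum_sub_distrib]
    apply Finset.sum_congr rfl
    intro p _
    rw [← Finset.sum_sub_distrib]
    apply Finset.sum_congr rfl
    intro q _
    rw [hΓ, hΓ, hΓ, hΓ]
    ring
  unfold riem
  rw [hsum, fderiv_chr_pull hsymm hd hd2 hψ, fderiv_chr_pull hsymm hd hd2 hψ,
    fderiv_chr hd hd2, fderiv_chr hd hd2]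
  have k1 := hΓ (fderiv ℝ ψ y u) (fderiv ℝ ψ y z) (fderiv ℝ (fderiv ℝ ψ) y v w)
  have k2 := hΓ (fderiv ℝ ψ y v) (fderiv ℝ ψ y w) (fderiv ℝ (fderiv ℝ ψ) y u z)
  have k3 := hΓ (fderiv ℝ ψ y v) (fderiv ℝ ψ y z) (fderiv ℝ (fderiv ℝ ψ) y u w)
  have k4 := hΓ (fderiv ℝ ψ y u) (fderiv ℝ ψ y w) (fderiv ℝ (fderiv ℝ ψ) y v z)
  rw [chr_eq (hd _)] at k1 k2 k3 k4
  simp only [map_add, add_apply]
  rw [hsymm _ (fderiv ℝ (fderiv ℝ ψ) y v w) (Γ (fderiv ℝ ψ y u) (fderiv ℝ ψ y z)),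
    hsymm _ (fderiv ℝ (fderiv ℝ ψ) y u w) (Γ (fderiv ℝ ψ y v) (fderiv ℝ ψ y z)), k1, k2, k3, k4,
    hs2 v u, hs3 v u w,
    fderiv_symm hsymm (hd _) (fderiv ℝ ψ y u) (fderiv ℝ (fderiv ℝ ψ) y v w) (fderiv ℝ ψ y z),
    fderiv_symm hsymm (hd _) (fderiv ℝ ψ y v) (fderiv ℝ (fderiv ℝ ψ) y u w) (fderiv ℝ ψ y z)]
  ring

end Pool.Agent.Lib.MP_df705a_gt
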