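import Pool.Agent.Lib.MP_df705a_gt.Final

open scoped Manifold ContDiff
open Bundle Filter Topology Module

noncomputable section

namespace Pool.Agent.Lib.MP_df705a_gt

open scoped Shortcuts

/-- The main theorem with raw hypotheses. -/
theorem not_aspherical_raw {n N : ℕ} (hN : N = n + 1) {M : Type*} [TopologicalSpace M]
    [CompactSpace M] [ConnectedSpace M] (h : FormField N) (hh : IsMetric h)
    (φ : Co N → ℝ) (hφ : ContDiff ℝ 2 φ) (hK : IsCompact {x | 0 ≤ φ x})
    (hreg : ∀ x, φ x = 0 → fderiv ℝ φ x ≠ 0)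
    (f : Co N → ℝ) (hf : ContDiff ℝ 2 f)
    (hconv : ∀ x, 0 ≤ φ x → ∀ v, v ≠ 0 → 0 < covHess h f x v v)
    (hcurv : ∀ x, φ x = 0 → ∀ u v, fderiv ℝ φ x u = 0 → fderiv ℝ φ x v = 0 →
      riem h x u v v u ≤ 0)
    (ι : M → Co N) (hι : Continuous ι) (hinj : Function.Injective ι)
    (hrange : Set.range ι = {x | φ x = 0})
    (ψ : M → Co n → Co N) (yc : M → Co n) (hψx : ∀ x, ψ x (yc x) = ι x)
    (hψz : ∀ x y, φ (ψ x y) = 0) (hψ3 : ∀ x, ContDiffAt ℝ 3 (ψ x) (yc x))
    (hψi : ∀ x, Function.Injective (fderiv ℝ (ψ x) (yc x)))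
    (hscal : ∀ x, 0 < scal (pull h (ψ x)) (yc x)) :
    ¬ Curv.IsAspherical M := by
  subst hN
  exact not_aspherical_core h hh φ hφ hK hreg f hf hconv hcurv ι hι hinj hrange ψ yc hψx hψz
    (fun x => ⟨hh, hφ, hψ3 x, hψi x, Eventually.of_forall (hψz x), hreg _ (hψz x _)⟩) hscal

/-! ### Forms given by coefficients -/

section form

variable {m : ℕ}

/-- The field of forms with given coefficients. -/
def form (k : Co m → Matrix (Fin m) (Fin m) ℝ) : FormField m := fun y =>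
  ∑ i, ∑ j, k y i j • (EuclideanSpace.proj i : Co m →L[ℝ] ℝ).smulRight
    (EuclideanSpace.proj j : Co m →L[ℝ] ℝ)

theorem form_apply (k : Co m → Matrix (Fin m) (Fin m) ℝ) (y u v : Co m) :
    form k y u v = ∑ i, ∑ j, k y i j * (u i * v j) := by
  unfold form
  simp only [sum_apply, smul_apply, ContinuousLinearMap.smulRight_apply, smul_eq_mul]
  rfl

theorem form_ev (k : Co m → Matrix (Fin m) (Fin m) ℝ) (y : Co m) (i j : Fin m) :
    form k y (ev i) (ev j) = k y i j := by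
  rw [form_apply, Finset.sum_eq_single i, Finset.sum_eq_single j]
  · simp [ev]
  · intro b _ hb
    simp [ev, hb]
  · simp
  · intro b _ hb
    apply Finset.sum_eq_zero
    intro c _
    simp [ev, hb]
  · simp

theorem bilin_expand (B : Co m →L[ℝ] Co m →L[ℝ] ℝ) (u v : Co m) :
    B u v = ∑ i, ∑ j, (u i * v j) * B (ev i) (ev j) := by
  conv_lhs => rw [← sum_ev u, ← sum_ev v]
  simp only [map_sum, map_smul, sum_apply, smul_apply, smul_eq_mul, Finset.mul_sum]
  rw [Finset.sum_comm]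
  apply Finset.sum_congr rfl
  intro i _
  apply Finset.sum_congr rfl
  intro j _
  ring

theorem form_ext {B B' : Co m →L[ℝ] Co m →L[ℝ] ℝ} (h : ∀ i j, B (ev i) (ev j) = B' (ev i) (ev j)) :
    B = B' := by
  ext u v
  rw [bilin_expand B, bilin_expand B']
  simp only [h]

theorem form_isMetric {k : Co m → Matrix (Fin m) (Fin m) ℝ}
    (hk : ∀ i j, ContDiff ℝ ∞ fun x => k x i j) (hp : ∀ x, (k x).PosDef) :
    IsMetric (form k) := by
  constructor
  · unfold form
    apply ContDiff.sum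
    intro i _
    apply ContDiff.sum
    intro j _
    exact (hk i j).smul contDiff_const
  · intro x u v
    rw [form_apply, form_apply, Finset.sum_comm]
    apply Finset.sum_congr rfl
    intro i _
    apply Finset.sum_congr rfl
    intro j _
    have h1 : k x j i = k x i j := by
      have := (hp x).isHermitian
      have h2 := congrFun (congrFun this i) j
      rw [Matrix.conjTranspose_apply, star_trivial] at h2
      exact h2
    rw [h1]
    ring
  · intro x v hv
    rw [form_apply]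
    have h1 := (hp x).dotProduct_mulVec_pos (x := fun i => v i) (by
      intro h0
      apply hv
      ext i
      exact congrFun h0 i)
    refine h1.trans_eq ?_
    rw [star_trivial, dotProduct]
    apply Finset.sum_congr rfl
    intro i _
    rw [Matrix.mulVec, dotProduct, Finset.mul_sum]
    apply Finset.sum_congr rfl
    intro j _
    ring

end form

/-! ### Linear coordinates -/

section lin

variable (E : Type*) [NormedAddCommGroup E] [NormedSpace ℝ E] [FiniteDimensional ℝ E]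

/-- The linear coordinates given by the basis. -/
def lin : Co (finrank ℝ E) ≃L[ℝ] E :=
  (EuclideanSpace.equiv (Fin (finrank ℝ E)) ℝ).trans (finBasis ℝ E).equivFunL.symm

variable {E}

theorem lin_ev (i : Fin (finrank ℝ E)) : lin E (ev i) = finBasis ℝ E i := by
  unfold lin
  rw [ContinuousLinearEquiv.trans_apply, ContinuousLinearEquiv.symm_apply_eq]
  ext j
  simp [ev, Finsupp.single_apply, eq_comm]

theorem repr_lin (u : Co (finrank ℝ E)) (i : Fin (finrank ℝ E)) :
    (finBasis ℝ E).repr (lin E u) i = u i := by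
  conv_lhs => rw [← sum_ev u, map_sum]
  simp only [map_smul, lin_ev, map_sum, Basis.repr_self, Finsupp.coe_finsetSum, Finset.sum_apply,
    Finsupp.smul_apply, smul_eq_mul, Finsupp.single_apply]
  simp

theorem pd_lin (i : Fin (finrank ℝ E)) (F : E → ℝ) (y : Co (finrank ℝ E)) :
    Curv.pd i F (lin E y) = fderiv ℝ (fun z => F (lin E z)) y (ev i) := by
  have h1 := (lin E).comp_right_fderiv (f := F) (x := y)
  have h2 : (fun z => F (lin E z)) = F ∘ (lin E) := rfl
  rw [h2, h1]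
  unfold Curv.pd
  rw [← lin_ev]
  rfl

theorem christoffel_lin (h : Curv.Coeff E) (i j k : Fin (finrank ℝ E)) (y : Co (finrank ℝ E)) :
    Curv.christoffel h i j k (lin E y) =
      chr (form fun z => h (lin E z)) y (ev i) (ev j) (ev k) := by
  unfold Curv.christoffel chr
  rw [pd_lin, pd_lin, pd_lin]
  simp only [form_ev]

theorem invGram_form (h : Curv.Coeff E) (y : Co (finrank ℝ E)) :
    invGram (form fun z => h (lin E z)) y = (h (lin E y))⁻¹ := by
  unfold invGram
  congr 1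
  ext i j
  rw [Matrix.of_apply, form_ev]

theorem riemann_lin (h : Curv.Coeff E) (i j k l : Fin (finrank ℝ E)) (y : Co (finrank ℝ E)) :
    Curv.riemann h i j k l (lin E y) =
      riem (form fun z => h (lin E z)) y (ev i) (ev j) (ev k) (ev l) := by
  unfold Curv.riemann riem
  rw [pd_lin, pd_lin]
  simp only [christoffel_lin, invGram_form]

theorem scal_lin (h : Curv.Coeff E) (y : Co (finrank ℝ E)) :
    Curv.scal h (lin E y) = scal (form fun z => h (lin E z)) y := by
  unfold Curv.scal scal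
  simp only [riemann_lin, invGram_form]

theorem covHess_lin {h : Curv.Coeff E} {f : E → ℝ} (hf : ContDiff ℝ 2 f) (i j : Fin (finrank ℝ E))
    (y : Co (finrank ℝ E)) : Curv.covHess h f (lin E y) i j =
      covHess (form fun z => h (lin E z)) (fun z => f (lin E z)) y (ev i) (ev j) := by
  unfold Curv.covHess covHess
  rw [pd_lin]
  simp only [christoffel_lin, invGram_form, pd_lin]
  congr 1
  have hfL : ContDiff ℝ 2 (fun z => f (lin E z)) := hf.comp (lin E).contDiff
  have h1 : ContDiff ℝ 1 (fderiv ℝ (fun z => f (lin E z))) := hfL.fderiv_right (by norm_num)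
  rw [(hasFDerivAt_clm1 ((h1.differentiable one_ne_zero) y).hasFDerivAt (ev j)).fderiv]
  rfl

theorem covHess_quad {m : ℕ} {h : FormField m} (hh : IsMetric h) (f : Co m → ℝ) (y v : Co m) :
    covHess h f y v v = ∑ i, ∑ j, v i * (covHess h f y (ev i) (ev j) * v j) := by
  simp only [← hess_gam hh]
  rw [bilin_expand (hess (gam h) f y) v v]
  apply Finset.sum_congr rfl
  intro i _
  apply Finset.sum_congr rfl
  intro j _
  ring

theorem curv_lin {h : Curv.Coeff E} (hh : IsMetric (form fun z => h (lin E z)))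
    (y u v : Co (finrank ℝ E)) : Curv.curv h (lin E y) (lin E u) (lin E v) =
      riem (form fun z => h (lin E z)) y u v v u := by
  unfold Curv.curv
  simp only [riemann_lin, repr_lin]
  conv_rhs => rw [← sum_ev u, ← sum_ev v]
  rw [riem_quad hh, Finset.sum_comm]
  apply Finset.sum_congr rfl
  intro j _
  rw [Finset.sum_comm]
  apply Finset.sum_congr rfl
  intro k _
  rw [Finset.mul_sum]
  apply Finset.sum_congr rfl
  intro i _
  rw [Finset.mul_sum]
  apply Finset.sum_congr rfl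
  intro l _
  ring

theorem ip_lin (h : Curv.Coeff E) (y u v : Co (finrank ℝ E)) :
    Curv.ip h (lin E y) (lin E u) (lin E v) = form (fun z => h (lin E z)) y u v := by
  unfold Curv.ip
  simp only [repr_lin]
  rw [form_apply]

end lin

/-! ### Manifolds -/

theorem ip_zero_of_eq {V : Type*} [NormedAddCommGroup V] [NormedSpace ℝ V]
    [FiniteDimensional ℝ V] (h : Curv.Coeff V) (x : V) {u : V} (hu : u = 0) :
    Curv.ip h x u u = 0 := by
  subst hu
  unfold Curv.ip
  simp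

section manifold

variable {E : Type*} [NormedAddCommGroup E] [NormedSpace ℝ E] [FiniteDimensional ℝ E]
  {V : Type*} [NormedAddCommGroup V] [NormedSpace ℝ V] [FiniteDimensional ℝ V]
  {M : Type*} [TopologicalSpace M] [ChartedSpace E M] [IsManifold 𝓘(ℝ, E) ∞ M]

theorem mdiff_symm (x : M) {y : E} (hy : y ∈ (extChartAt 𝓘(ℝ, E) x).target) :
    MDifferentiableAt 𝓘(ℝ, E) 𝓘(ℝ, E) (extChartAt 𝓘(ℝ, E) x).symm y := by
  have h1 : ContMDiffOn 𝓘(ℝ, E) 𝓘(ℝ, E) ∞ (extChartAt 𝓘(ℝ, E) x).symm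
      (extChartAt 𝓘(ℝ, E) x).target := contMDiffOn_extChartAt_symm x
  have h2 : ContMDiffAt 𝓘(ℝ, E) 𝓘(ℝ, E) ∞ (extChartAt 𝓘(ℝ, E) x).symm y :=
    h1.contMDiffAt (extChartAt_target_mem_nhds' hy)
  exact h2.mdifferentiableAt (by simp)

theorem injective_mfderiv_symm (x : M) {y : E} (hy : y ∈ (extChartAt 𝓘(ℝ, E) x).target) :
    Function.Injective (mfderiv 𝓘(ℝ, E) 𝓘(ℝ, E) (extChartAt 𝓘(ℝ, E) x).symm y) := by
  have h1 := isInvertible_mfderivWithin_extChartAt_symm (I := 𝓘(ℝ, E)) (x := x) hy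
  rw [ModelWithCorners.range_eq_univ, mfderivWithin_univ] at h1
  exact h1.injective

theorem contDiffOn_comp {ι : M → V} (hι : ContMDiff 𝓘(ℝ, E) 𝓘(ℝ, V) ∞ ι) (x : M) :
    ContDiffOn ℝ ∞ (fun y => ι ((extChartAt 𝓘(ℝ, E) x).symm y)) (extChartAt 𝓘(ℝ, E) x).target := by
  have h1 : ContMDiffOn 𝓘(ℝ, E) 𝓘(ℝ, E) ∞ (extChartAt 𝓘(ℝ, E) x).symm
      (extChartAt 𝓘(ℝ, E) x).target := contMDiffOn_extChartAt_symm x
  have h2 : ContMDiffOn 𝓘(ℝ, E) 𝓘(ℝ, V) ∞ (fun y => ι ((extChartAt 𝓘(ℝ, E) x).symm y))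
      (extChartAt 𝓘(ℝ, E) x).target := hι.comp_contMDiffOn h1
  exact h2.contDiffOn

theorem mfderiv_comp_symm {ι : M → V} (hι : ContMDiff 𝓘(ℝ, E) 𝓘(ℝ, V) ∞ ι) (x : M) {y : E}
    (hy : y ∈ (extChartAt 𝓘(ℝ, E) x).target) (v : E) :
    mfderiv 𝓘(ℝ, E) 𝓘(ℝ, V) ι ((extChartAt 𝓘(ℝ, E) x).symm y)
      (mfderiv 𝓘(ℝ, E) 𝓘(ℝ, E) (extChartAt 𝓘(ℝ, E) x).symm y v) =
      fderiv ℝ (fun y => ι ((extChartAt 𝓘(ℝ, E) x).symm y)) y v := by
  have hmd : MDifferentiableAt 𝓘(ℝ, E) 𝓘(ℝ, V) ι ((extChartAt 𝓘(ℝ, E) x).symm y) :=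
    hι.contMDiffAt.mdifferentiableAt (by simp)
  have h1 := mfderiv_comp (I := 𝓘(ℝ, E)) (I' := 𝓘(ℝ, E)) (I'' := 𝓘(ℝ, V)) y hmd
    (mdiff_symm x hy)
  have h2 : mfderiv 𝓘(ℝ, E) 𝓘(ℝ, V) (ι ∘ (extChartAt 𝓘(ℝ, E) x).symm) y =
      fderiv ℝ (fun y => ι ((extChartAt 𝓘(ℝ, E) x).symm y)) y := mfderiv_eq_fderiv
  rw [h2] at h1
  rw [h1]
  rfl

/-- The main theorem. -/
theorem not_aspherical [CompactSpace M] [ConnectedSpace M]
    (g : ContMDiffRiemannianMetric 𝓘(ℝ, E) ∞ E (fun x : M => TangentSpace 𝓘(ℝ, E) x))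
    (hg : Curv.PSC g) (hdim : finrank ℝ V = finrank ℝ E + 1)
    (h : Curv.Coeff V) (hh : Curv.IsMetric h)
    (φ : V → ℝ) (hφ : ContDiff ℝ 2 φ) (hK : IsCompact {x | 0 ≤ φ x})
    (hreg : ∀ x, φ x = 0 → fderiv ℝ φ x ≠ 0)
    (f : V → ℝ) (hf : ContDiff ℝ 2 f) (hconv : ∀ x, 0 ≤ φ x → (Curv.covHess h f x).PosDef)
    (hcurv : ∀ x, φ x = 0 → ∀ u v : V, fderiv ℝ φ x u = 0 → fderiv ℝ φ x v = 0 →
      Curv.curv h x u v ≤ 0)
    (ι : M → V) (hι : ContMDiff 𝓘(ℝ, E) 𝓘(ℝ, V) ∞ ι)
    (hinj : Function.Injective ι) (hrange : Set.range ι = {x | φ x = 0})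
    (hiso : ∀ (x : M) (v w : TangentSpace 𝓘(ℝ, E) x), g.inner x v w =
      Curv.ip h (ι x) (mfderiv 𝓘(ℝ, E) 𝓘(ℝ, V) ι x v) (mfderiv 𝓘(ℝ, E) 𝓘(ℝ, V) ι x w)) :
    ¬ Curv.IsAspherical M := by
  set LV := lin V with hLV
  set LE := lin E with hLE
  set H : FormField (finrank ℝ V) := form fun z => h (LV z) with hH
  have hHm : IsMetric H := form_isMetric (fun i j => (hh.1 i j).comp LV.contDiff)
    (fun x => hh.2 _)
  have hfd : ∀ (F : V → ℝ) (z u : Co (finrank ℝ V)),
      fderiv ℝ (fun z => F (LV z)) z u = fderiv ℝ F (LV z) (LV u) := by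
    intro F z u
    have h1 := LV.comp_right_fderiv (f := F) (x := z)
    have h2 : (fun z => F (LV z)) = F ∘ LV := rfl
    rw [h2, h1]
    rfl
  -- local parametrizations
  set ψ₀ : M → E → V := fun x y => ι ((extChartAt 𝓘(ℝ, E) x).symm y) with hψ₀
  set ψ : M → Co (finrank ℝ E) → Co (finrank ℝ V) := fun x y => LV.symm (ψ₀ x (LE y)) with hψ
  set yc : M → Co (finrank ℝ E) := fun x => LE.symm (extChartAt 𝓘(ℝ, E) x x) with hyc
  have hLyc : ∀ x, LE (yc x) = extChartAt 𝓘(ℝ, E) x x := fun x => by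
    simp only [hyc, ContinuousLinearEquiv.apply_symm_apply]
  have htarget : ∀ x : M, (extChartAt 𝓘(ℝ, E) x).target ∈ 𝓝 (extChartAt 𝓘(ℝ, E) x x) :=
    fun x => extChartAt_target_mem_nhds' (mem_extChartAt_target x)
  have hψ₀c : ∀ x, ∀ y ∈ (extChartAt 𝓘(ℝ, E) x).target, ContDiffAt ℝ ∞ (ψ₀ x) y :=
    fun x y hy => (contDiffOn_comp hι x).contDiffAt (extChartAt_target_mem_nhds' hy)
  have hψd : ∀ x y, LE y ∈ (extChartAt 𝓘(ℝ, E) x).target → ∀ v,
      fderiv ℝ (ψ x) y v = LV.symm (fderiv ℝ (ψ₀ x) (LE y) (LE v)) := by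
    intro x y hy v
    have h1 : HasFDerivAt (ψ₀ x) (fderiv ℝ (ψ₀ x) (LE y)) (LE y) :=
      ((hψ₀c x _ hy).differentiableAt (by simp)).hasFDerivAt
    have h2 : HasFDerivAt (ψ x)
        ((LV.symm : V →L[ℝ] Co (finrank ℝ V)).comp ((fderiv ℝ (ψ₀ x) (LE y)).comp
          (LE : Co (finrank ℝ E) →L[ℝ] E))) y :=
      LV.symm.hasFDerivAt.comp y (h1.comp y LE.hasFDerivAt)
    rw [h2.fderiv]
    rfl
  -- the metric in the charts
  have hmetric : ∀ x y, LE y ∈ (extChartAt 𝓘(ℝ, E) x).target →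
      pull H (ψ x) y = form (fun z => Curv.chartMetric g x (LE z)) y := by
    intro x y hy
    apply form_ext
    intro i j
    rw [form_ev, pull_apply, hψd x y hy, hψd x y hy]
    unfold Curv.chartMetric
    rw [hiso, mfderiv_comp_symm hι x hy, mfderiv_comp_symm hι x hy, hLE, lin_ev, lin_ev]
    have h1 := ip_lin h (ψ x y) (LV.symm (fderiv ℝ (ψ₀ x) (LE y) (finBasis ℝ E i)))
      (LV.symm (fderiv ℝ (ψ₀ x) (LE y) (finBasis ℝ E j)))
    rw [← hLV, ContinuousLinearEquiv.apply_symm_apply, ContinuousLinearEquiv.apply_symm_apply] at h1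
    rw [hH, ← h1]
    simp only [hψ, ContinuousLinearEquiv.apply_symm_apply]
    rfl
  refine not_aspherical_raw hdim H hHm (fun z => φ (LV z)) (hφ.comp LV.contDiff) ?_ ?_
    (fun z => f (LV z)) (hf.comp LV.contDiff) ?_ ?_ (fun x => LV.symm (ι x))
    (LV.symm.continuous.comp hι.continuous) (LV.symm.injective.comp hinj) ?_ ψ yc ?_ ?_ ?_ ?_ ?_
  · have h1 : {z | 0 ≤ φ (LV z)} = LV.symm '' {x | 0 ≤ φ x} := by
      rw [ContinuousLinearEquiv.image_symm_eq_preimage]
      rfl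
    rw [h1]
    exact hK.image LV.symm.continuous
  · intro z hz h0
    apply hreg _ hz
    ext v
    have h1 := hfd φ z (LV.symm v)
    rw [h0, ContinuousLinearEquiv.apply_symm_apply] at h1
    simpa using h1.symm
  · intro z hz v hv
    rw [covHess_quad hHm]
    have h1 := (hconv _ hz).dotProduct_mulVec_pos (x := fun i => v i) (by
      intro h0
      apply hv
      ext i
      exact congrFun h0 i)
    refine h1.trans_eq ?_
    rw [star_trivial, dotProduct]
    apply Finset.sum_congr rfl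
    intro i _
    rw [Matrix.mulVec, dotProduct, Finset.mul_sum]
    apply Finset.sum_congr rfl
    intro j _
    rw [hLV, covHess_lin hf]
  · intro z hz u v hu hv
    rw [hfd] at hu hv
    rw [hH, hLV, ← curv_lin hHm]
    exact hcurv _ hz _ _ hu hv
  · ext z
    constructor
    · rintro ⟨x, rfl⟩
      have : ι x ∈ Set.range ι := ⟨x, rfl⟩
      rw [hrange] at this
      simp only [Set.mem_ofPred_eq, ContinuousLinearEquiv.apply_symm_apply]
      exact this
    · intro hz
      have : LV z ∈ Set.range ι := by rw [hrange]; exact hz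
      obtain ⟨x, hx⟩ := this
      refine ⟨x, ?_⟩
      simp only [hx, ContinuousLinearEquiv.symm_apply_apply]
  · intro x
    simp only [hψ, hψ₀, hLyc]
    rw [extChartAt_to_inv]
  · intro x y
    simp only [hψ, ContinuousLinearEquiv.apply_symm_apply]
    have : ψ₀ x (LE y) ∈ Set.range ι := ⟨_, rfl⟩
    rw [hrange] at this
    exact this
  · intro x
    have h1 : ContDiffAt ℝ ∞ (ψ₀ x) (LE (yc x)) := by
      rw [hLyc]
      exact hψ₀c x _ (mem_extChartAt_target x)
    have h2 : ContDiffAt ℝ ∞ (ψ x) (yc x) :=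
      LV.symm.contDiff.contDiffAt.comp (yc x) (h1.comp (yc x) LE.contDiff.contDiffAt)
    exact h2.of_le ENat.LEInfty.out
  · intro x
    rw [injective_iff_map_eq_zero]
    intro v hv
    have hy : LE (yc x) ∈ (extChartAt 𝓘(ℝ, E) x).target := by
      rw [hLyc]; exact mem_extChartAt_target x
    rw [hψd x _ hy] at hv
    have h1 : fderiv ℝ (ψ₀ x) (LE (yc x)) (LE v) = 0 := by
      have := congrArg LV hv
      simpa using this
    set p := (extChartAt 𝓘(ℝ, E) x).symm (LE (yc x)) with hp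
    set w : TangentSpace 𝓘(ℝ, E) p :=
      mfderiv 𝓘(ℝ, E) 𝓘(ℝ, E) (extChartAt 𝓘(ℝ, E) x).symm (LE (yc x)) (LE v) with hw
    have h2 : mfderiv 𝓘(ℝ, E) 𝓘(ℝ, V) ι p w = 0 :=
      (mfderiv_comp_symm hι x hy (LE v)).trans h1
    have h3 : g.inner p w w = 0 := (hiso p w w).trans (ip_zero_of_eq h _ h2)
    have h4 : w = 0 := by
      by_contra hne
      exact (g.pos _ _ hne).ne' h3
    have h5 : LE v = 0 := (injective_iff_map_eq_zero _).mp (injective_mfderiv_symm x hy) (LE v) h4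
    exact (map_eq_zero_iff LE LE.injective).mp h5
  · intro x
    have h1 : pull H (ψ x) =ᶠ[𝓝 (yc x)] form (fun z => Curv.chartMetric g x (LE z)) := by
      have h2 : ∀ᶠ y in 𝓝 (yc x), LE y ∈ (extChartAt 𝓘(ℝ, E) x).target := by
        apply LE.continuous.continuousAt
        rw [hLyc]
        exact htarget x
      filter_upwards [h2] with y hy using hmetric x y hy
    rw [scal_congr h1, hLE, ← scal_lin, ← hLE, hLyc]
    exact hg x

end manifold

end Pool.Agent.Lib.MP_df705a_gt
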